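import Pool.Agent.LIV.St

/-!
# Extremal merging: the sum over an image along a list (module ADJ1)
-/

set_option autoImplicit false

namespace LIV

open Finset

theorem adj1_aux (f : ℕ × ℕ → ℕ × ℕ) (φ : ℕ × ℕ → ℝ) (hφ : ∀ x, 0 ≤ φ x)
    (l : List (ℕ × ℕ)) : ∀ a : ℕ × ℕ,
    ∑ x ∈ (a :: l).toFinset.image f, φ x ≤
      φ (f a) + adj (fun s s' => (if f s = f s' then 0 else 1) * φ (f s')) (a :: l) := by
  induction l with
  | nil =>
    intro a
    simp [adj]
  | cons s' l ih =>
    intro a
    have h1 := ih s'
    have e1 : adj (fun s s' => (if f s = f s' then 0 else 1) * φ (f s')) (a :: s' :: l) =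
        (if f a = f s' then 0 else 1) * φ (f s') +
          adj (fun s s' => (if f s = f s' then 0 else 1) * φ (f s')) (s' :: l) := rfl
    have e2 : (a :: s' :: l).toFinset.image f = insert (f a) ((s' :: l).toFinset.image f) := by
      rw [List.toFinset_cons (a := a), image_insert]
    rw [e1, e2]
    by_cases h : f a = f s'
    · rw [if_pos h, zero_mul, zero_add]
      have h2 : f a ∈ (s' :: l).toFinset.image f := by
        rw [h]
        exact mem_image_of_mem f (by simp)
      rw [insert_eq_of_mem h2, h]
      exact h1
    · rw [if_neg h, one_mul]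
      have h2 : ∑ x ∈ insert (f a) ((s' :: l).toFinset.image f), φ x ≤
          φ (f a) + ∑ x ∈ (s' :: l).toFinset.image f, φ x := by
        by_cases h3 : f a ∈ (s' :: l).toFinset.image f
        · rw [insert_eq_of_mem h3]
          linarith [hφ (f a)]
        · rw [sum_insert h3]
      linarith

theorem adj1 : StAdj1 := fun f φ a l hφ => adj1_aux f φ hφ l a

end LIV
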