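import Pool.Agent.LIV.St

set_option autoImplicit false

namespace LIV

open Pool.Agent.LibHelper3 CMG Finset

theorem adj2_nil (g : ℕ × ℕ → ℕ × ℕ → ℝ) : adj g [] = 0 := rfl
theorem adj2_one (g : ℕ × ℕ → ℕ × ℕ → ℝ) (s : ℕ × ℕ) : adj g [s] = 0 := rfl
theorem adj2_cons (g : ℕ × ℕ → ℕ × ℕ → ℝ) (s s' : ℕ × ℕ) (l : List (ℕ × ℕ)) :
    adj g (s :: s' :: l) = g s s' + adj g (s' :: l) := rfl

theorem adj2_lin (g h : ℕ × ℕ → ℕ × ℕ → ℝ) (c d : ℝ) : ∀ l : List (ℕ × ℕ),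
    adj (fun s s' => c * g s s' + d * h s s') l = c * adj g l + d * adj h l
  | [] => by simp [adj2_nil]
  | [s] => by simp [adj2_one]
  | s :: s' :: l => by
    rw [adj2_cons, adj2_cons, adj2_cons, adj2_lin g h c d (s' :: l)]
    ring

theorem adj2_mono (g h : ℕ × ℕ → ℕ × ℕ → ℝ) (R : ℕ × ℕ → ℕ × ℕ → Prop) :
    ∀ l : List (ℕ × ℕ), l.Pairwise R →
    (∀ s ∈ l, ∀ s' ∈ l, R s s' → g s s' ≤ h s s') → adj g l ≤ adj h l
  | [], _, _ => by simp [adj2_nil]
  | [s], _, _ => by simp [adj2_one]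
  | s :: s' :: l, hp, hm => by
    rw [adj2_cons, adj2_cons]
    rw [List.pairwise_cons] at hp
    refine add_le_add (hm s (by simp) s' (by simp) (hp.1 s' (by simp)))
      (adj2_mono g h R (s' :: l) hp.2 ?_)
    intro x hx y hy hxy
    exact hm x (List.mem_cons_of_mem _ hx) y (List.mem_cons_of_mem _ hy) hxy

theorem adj2_Ek (t : ℕ) (g : ℕ → ℕ × ℕ → ℕ × ℕ → ℝ) : ∀ l : List (ℕ × ℕ),
    Ek t (fun k => adj (g k) l) = adj (fun s s' => Ek t (fun k => g k s s')) l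
  | [] => by simp only [adj2_nil]; exact Ek_const t 0
  | [s] => by simp only [adj2_one]; exact Ek_const t 0
  | s :: s' :: l => by
    simp only [adj2_cons]
    rw [Ek_add, adj2_Ek t g (s' :: l)]

theorem adj2_tel {x y : ℝ} (hx : 0 ≤ x) (hxy : x ≤ y) :
    (y - x) * wt y ≤ 1 / (1 + x) - 1 / (1 + y) := by
  unfold wt
  have h1 : 0 < 1 + x := by linarith
  have h2 : 0 < 1 + y := by linarith
  have e : 1 / (1 + x) - 1 / (1 + y) = (y - x) * (1 / ((1 + x) * (1 + y))) := by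
    field_simp
    ring
  rw [e]
  apply mul_le_mul_of_nonneg_left _ (by linarith)
  apply one_div_le_one_div_of_le (by positivity)
  nlinarith

theorem adj2_wt (v : ℕ × ℕ → ℝ) : ∀ (a : ℕ × ℕ) (l : List (ℕ × ℕ)), (∀ s ∈ a :: l, 0 ≤ v s) →
    (a :: l).Pairwise (fun s s' => v s ≤ v s') →
    adj (fun s s' => (v s' - v s) * wt (v s')) (a :: l) ≤ 1 / (1 + v a)
  | a, [], h, _ => by
    rw [adj2_one]
    have := h a (by simp)
    positivity
  | a, b :: l, h, hp => by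
    rw [adj2_cons]
    rw [List.pairwise_cons] at hp
    have h0 := h a (by simp)
    have h1 := hp.1 b (by simp)
    have ih := adj2_wt v b l (fun s hs => h s (List.mem_cons_of_mem _ hs)) hp.2
    have h2 := adj2_tel h0 h1
    linarith

theorem adj2_snd (ψ : ℕ × ℕ → ℝ) : ∀ (a : ℕ × ℕ) (l : List (ℕ × ℕ)),
    adj (fun _ s' => ψ s') (a :: l) = (l.map ψ).sum
  | a, [] => by simp [adj2_one]
  | a, b :: l => by
    rw [adj2_cons, adj2_snd ψ b l]
    simp

theorem adj2_fst (ψ : ℕ × ℕ → ℝ) (h : ∀ s, 0 ≤ ψ s) : ∀ l : List (ℕ × ℕ),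
    adj (fun s _ => ψ s) l ≤ (l.map ψ).sum
  | [] => by simp [adj2_nil]
  | [a] => by simpa [adj2_one] using h a
  | a :: b :: l => by
    have ih := adj2_fst ψ h (b :: l)
    rw [adj2_cons, List.map_cons, List.sum_cons]
    linarith

theorem adj2_sum (ψ : ℕ × ℕ → ℝ) (l : List (ℕ × ℕ)) (hl : l.Nodup) :
    ∑ s ∈ l.toFinset, ψ s = (l.map ψ).sum := List.sum_toFinset ψ hl

theorem adj2 : StAdj2 := by
  refine ⟨adj2_lin, adj2_mono, adj2_Ek, ?_, ?_, ?_⟩
  · intro v a l h hp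
    refine (adj2_wt v a l h hp).trans ?_
    have h0 := h a (by simp)
    rw [div_le_one (by linarith)]
    linarith
  · intro ψ l hl h
    rw [adj2_sum ψ l hl]
    cases l with
    | nil => simp [adj2_nil]
    | cons a l =>
      rw [adj2_snd, List.map_cons, List.sum_cons]
      linarith [h a]
  · intro ψ l hl h
    rw [adj2_sum ψ l hl]
    exact adj2_fst ψ h l

end LIV
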