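import Pool.Agent.LIV.St

/-!
# BLK: blocks which keep the potentials and reduce the width   (helper19)
-/

set_option autoImplicit false

namespace LIV

open Pool.Agent.LibHelper3 CMG Finset

theorem blk_avg {T : ℕ} {p₀ B c₀ M : ℝ} (hp : 0 < p₀) (hB : 0 < B) (hc : 0 < c₀) (hM : 0 < M)
    {D : ℕ → Prop} [DecidablePred D] {P Q O R : ℕ → ℝ} (hP : ∀ k, 0 ≤ P k) (hQ : ∀ k, 0 ≤ Q k)
    (hO : ∀ k, 0 ≤ O k) (hR : ∀ k, 0 ≤ R k)
    (h0 : p₀ ≤ Ek T (fun k => if D k then 1 else 0)) (h1 : Ek T P ≤ p₀ * B / 8)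
    (h2 : Ek T Q ≤ p₀ * B / 8) (h3 : Ek T O ≤ c₀ * p₀ / 16 * M)
    (h4 : Ek T R ≤ c₀ * p₀ / 16 * M) :
    ∃ k < 2 ^ T, D k ∧ P k ≤ B ∧ Q k ≤ B ∧ O k + R k ≤ c₀ * M / 2 := by
  by_contra hcon
  push Not at hcon
  have hcM : 0 < c₀ * M / 2 := by positivity
  have key : ∀ k < 2 ^ T, (if D k then (1 : ℝ) else 0) ≤
      ((1 / B) * P k + (1 / B) * Q k) + (1 / (c₀ * M / 2)) * (O k + R k) := by
    intro k hk
    have a1 : 0 ≤ (1 / B) * P k := mul_nonneg (by positivity) (hP k)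
    have a2 : 0 ≤ (1 / B) * Q k := mul_nonneg (by positivity) (hQ k)
    have a3 : 0 ≤ (1 / (c₀ * M / 2)) * (O k + R k) :=
      mul_nonneg (by positivity) (add_nonneg (hO k) (hR k))
    split_ifs with hD
    · by_cases b1 : P k ≤ B
      · by_cases b2 : Q k ≤ B
        · have b3 := hcon k hk hD b1 b2
          have b4 : 1 ≤ (1 / (c₀ * M / 2)) * (O k + R k) := by
            rw [one_div, inv_mul_eq_div, le_div_iff₀ hcM]
            linarith
          linarith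
        · have b4 : 1 ≤ (1 / B) * Q k := by
            rw [one_div, inv_mul_eq_div, le_div_iff₀ hB]
            linarith
          linarith
      · have b4 : 1 ≤ (1 / B) * P k := by
          rw [one_div, inv_mul_eq_div, le_div_iff₀ hB]
          linarith
        linarith
    · linarith
  have h5 := Ek_mono key
  rw [Ek_add, Ek_add, Ek_mul, Ek_mul, Ek_mul, Ek_add] at h5
  have h6 : (1 / B) * Ek T P ≤ p₀ / 8 := by
    rw [one_div, inv_mul_eq_div, div_le_iff₀ hB]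
    linarith
  have h7 : (1 / B) * Ek T Q ≤ p₀ / 8 := by
    rw [one_div, inv_mul_eq_div, div_le_iff₀ hB]
    linarith
  have h8 : (1 / (c₀ * M / 2)) * (Ek T O + Ek T R) ≤ p₀ / 4 := by
    rw [one_div, inv_mul_eq_div, div_le_iff₀ hcM]
    have : p₀ / 4 * (c₀ * M / 2) = c₀ * p₀ / 16 * M + c₀ * p₀ / 16 * M := by ring
    linarith
  linarith

theorem blk : StBlk := by
  intro p₀ c₀ C B m₀ hp0 hp1 hc0 hC hm0 hB hCB hMv hLB hOv m i θ F W hm hi hS hmul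
  obtain ⟨hPos, l, hl, hr, hpl, hpr⟩ := hS
  have hm1 : 1 ≤ m := hm0.trans hm
  have hF : F.Nonempty := hl.nonempty
  obtain ⟨a, haF, hal⟩ := hl.2
  obtain ⟨b, hbF, hbr⟩ := hr.2
  have hexl : ∀ k, ∃ c, End 1 c (runF (m ^ 2) k F) := fun k =>
    exists_end_left (runF_nonempty hF)
  have hexr : ∀ k, ∃ c, End (-1) c (runF (m ^ 2) k F) := fun k =>
    exists_end_right (runF_nonempty hF)
  choose cl hcl using hexl
  choose cr hcr using hexr
  have e1 := hLB m 1 θ l F cl hm (Or.inl rfl) hPos hl hcl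
  have e2 := hLB m (-1) θ (l + W) F cr hm (Or.inr rfl) hPos hr hcr
  have e3 := hOv m 1 θ l F a hm (Or.inl rfl) hPos hl haF hal hpl
  have e4 := hOv m (-1) θ (l + W) F b hm (Or.inr rfl) hPos hr hbF hbr hpr
  have e5 := hMv m i W a b hm1 hi (by rw [hal, hbr]) hmul
  have hM : (0 : ℝ) < (m : ℝ) := by exact_mod_cast hm1
  have hB0 : 0 < B := by linarith
  have hbd : ∀ x : ℝ, x ≤ B → p₀ / 16 * x + C ≤ p₀ * B / 8 := by
    intro x hx
    have h1 : p₀ / 16 * x ≤ p₀ / 16 * B := mul_le_mul_of_nonneg_left hx (by positivity)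
    have h2 : C ≤ p₀ * B / 16 := by linarith
    linarith
  obtain ⟨k, hk, hD, hP, hQ, hO⟩ := blk_avg (T := m ^ 2) (M := (m : ℝ)) hp0 hB0 hc0 hM
    (D := fun k => ((rp (m ^ 2) k b).1 : ℝ) - (rp (m ^ 2) k a).1 ≤ W - c₀ * m)
    (fun k => pot_nonneg (1 / (m : ℝ)) (rt (m ^ 2) k θ) 1 (cl k) (runF (m ^ 2) k F))
    (fun k => pot_nonneg (1 / (m : ℝ)) (rt (m ^ 2) k θ) (-1) (cr k) (runF (m ^ 2) k F))
    (fun k => sum_nonneg fun s _ =>
      le_max_left 0 (1 * (((rp (m ^ 2) k a).1 : ℝ) - (rp (m ^ 2) k s).1)))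
    (fun k => sum_nonneg fun s _ =>
      le_max_left 0 (-1 * (((rp (m ^ 2) k b).1 : ℝ) - (rp (m ^ 2) k s).1)))
    e5 (e1.trans (hbd _ hpl)) (e2.trans (hbd _ hpr)) e3 e4
  have hle : cl k ≤ cr k := (hcl k).le (hcr k)
  refine ⟨rt (m ^ 2) k θ, runF (m ^ 2) k F, cr k - cl k, ⟨k, hk, rfl, rfl⟩,
    ⟨Pos_run hPos _ _, cl k, hcl k, ?_, hP, ?_⟩, ?_⟩
  · rw [Nat.add_sub_cancel' hle]
    exact hcr k
  · rw [Nat.add_sub_cancel' hle]
    exact hQ
  · obtain ⟨x, hx, hxl⟩ := (hcl k).2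
    obtain ⟨y, hy, hyr⟩ := (hcr k).2
    obtain ⟨s, hs, rfl⟩ := mem_runF.1 hx
    obtain ⟨s', hs', rfl⟩ := mem_runF.1 hy
    have f1 : 1 * (((rp (m ^ 2) k a).1 : ℝ) - (rp (m ^ 2) k s).1) ≤
        ∑ s ∈ F, max 0 (1 * (((rp (m ^ 2) k a).1 : ℝ) - (rp (m ^ 2) k s).1)) :=
      (le_max_right _ _).trans (single_le_sum
        (f := fun s => max 0 (1 * (((rp (m ^ 2) k a).1 : ℝ) - (rp (m ^ 2) k s).1)))
        (fun s _ => le_max_left 0 _) hs)
    have f2 : -1 * (((rp (m ^ 2) k b).1 : ℝ) - (rp (m ^ 2) k s').1) ≤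
        ∑ s ∈ F, max 0 (-1 * (((rp (m ^ 2) k b).1 : ℝ) - (rp (m ^ 2) k s).1)) :=
      (le_max_right _ _).trans (single_le_sum
        (f := fun s => max 0 (-1 * (((rp (m ^ 2) k b).1 : ℝ) - (rp (m ^ 2) k s).1)))
        (fun s _ => le_max_left 0 _) hs')
    rw [Nat.cast_sub hle, ← hxl, ← hyr]
    linarith

end LIV
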