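import Mathlib
import Pool.Agent.CMG.EarN

/-!
# Extremal merging: definitions and basic facts

A form `3 ^ e * k + a` is a pair `(e, a)`; `rp t k` follows one form, `runF t k` a finite set of
forms along `t` steps of the shortcut map with the binary digits of `k`; `rt t k θ` is the
reference point after these digits.
-/

set_option autoImplicit false

namespace LIV

open Pool.Agent.LibHelper3 CMG Finset

/-- `t` steps of one form with the binary digits of `k` -/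
abbrev rp : ℕ → ℕ → ℕ × ℕ → ℕ × ℕ := winn_wr

theorem rp_zero (k : ℕ) (s : ℕ × ℕ) : rp 0 k s = s := rfl
theorem rp_succ (t k : ℕ) (s : ℕ × ℕ) : rp (t + 1) k s = rp t (k / 2) (ps (k % 2) s) := rfl

/-- the reference point after the `t` last digits of `k` -/
noncomputable def rt : ℕ → ℕ → ℝ → ℝ
  | 0, _, θ => θ
  | t + 1, k, θ => rt t (k / 2) ((((k % 2 : ℕ) : ℝ) + θ) / 2)

theorem rt_zero (k : ℕ) (θ : ℝ) : rt 0 k θ = θ := rfl
theorem rt_succ (t k : ℕ) (θ : ℝ) :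
    rt (t + 1) k θ = rt t (k / 2) ((((k % 2 : ℕ) : ℝ) + θ) / 2) := rfl

/-- average over all digit strings of length `t` -/
noncomputable def Ek (t : ℕ) (g : ℕ → ℝ) : ℝ := (∑ k ∈ range (2 ^ t), g k) / 2 ^ t

/-- weight of the position of a form -/
noncomputable def pw (θ : ℝ) (s : ℕ × ℕ) : ℝ := Real.sqrt (Real.sqrt (1 + up θ s))

/-- weight of the distance from the end -/
noncomputable def wt (t : ℝ) : ℝ := 1 / (1 + t) ^ 2

/-- the potential of a set of forms seen from the end `c` (`σ = 1`: left end, `σ = -1`: right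
end) at the scale `1 / lam` -/
noncomputable def pot (lam θ σ : ℝ) (c : ℕ) (F : Finset (ℕ × ℕ)) : ℝ :=
  ∑ s ∈ F, pw θ s * wt (lam * (σ * ((s.1 : ℝ) - c)))

/-- `c` is the smallest (`σ = 1`) or the largest (`σ = -1`) exponent of the forms in `F` -/
def End (σ : ℝ) (c : ℕ) (F : Finset (ℕ × ℕ)) : Prop :=
  (∀ s ∈ F, 0 ≤ σ * ((s.1 : ℝ) - c)) ∧ ∃ s ∈ F, s.1 = c

/-- all positions are nonnegative -/
def Pos (θ : ℝ) (F : Finset (ℕ × ℕ)) : Prop := ∀ s ∈ F, 0 ≤ up θ s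

/-- the exponents of `F` have width `W`, and at the scale `m` both potentials are at most `X` -/
def Stt (X : ℝ) (m : ℕ) (θ : ℝ) (F : Finset (ℕ × ℕ)) (W : ℕ) : Prop :=
  Pos θ F ∧ ∃ l : ℕ, End 1 l F ∧ End (-1) (l + W) F ∧
    pot (1 / (m : ℝ)) θ 1 l F ≤ X ∧ pot (1 / (m : ℝ)) θ (-1) (l + W) F ≤ X

/-- some string of `n` digits leads from `(θ, F)` to `(θ', F')` -/
def Goes (n : ℕ) (θ : ℝ) (F : Finset (ℕ × ℕ)) (θ' : ℝ) (F' : Finset (ℕ × ℕ)) : Prop :=
  ∃ k < 2 ^ n, F' = runF n k F ∧ θ' = rt n k θ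

/-! ## averages -/

theorem Ek_zero (g : ℕ → ℝ) : Ek 0 g = g 0 := by unfold Ek; simp

theorem Ek_succ (t : ℕ) (g : ℕ → ℝ) :
    Ek (t + 1) g = (Ek t (fun k => g (2 * k)) + Ek t (fun k => g (2 * k + 1))) / 2 := by
  unfold Ek
  have e : 2 ^ (t + 1) = 2 * 2 ^ t := by ring
  rw [e, sum_range_two_mul, sum_add_distrib, pow_succ]
  field_simp

theorem Ek_run (t : ℕ) (G : St → ℝ) (s : St) : Ek t (fun k => G (run t k s)) = av t G s := by
  unfold Ek
  rw [sum_run]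
  field_simp

/-- averages over pairs of forms are averages of the chain of pairs -/
theorem Ek_pair (t : ℕ) (G : St → ℝ) (s s' : ℕ × ℕ) :
    Ek t (fun k => G (pr (rp t k s) (rp t k s'))) = av t G (pr s s') := by
  rw [← Ek_run]
  congr 1
  funext k
  rw [winn_run]

theorem Ek_congr {t : ℕ} {f g : ℕ → ℝ} (h : ∀ k < 2 ^ t, f k = g k) : Ek t f = Ek t g := by
  unfold Ek
  rw [sum_congr rfl fun k hk => h k (mem_range.1 hk)]

theorem Ek_mono {t : ℕ} {f g : ℕ → ℝ} (h : ∀ k < 2 ^ t, f k ≤ g k) : Ek t f ≤ Ek t g := by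
  unfold Ek
  exact div_le_div_of_nonneg_right (sum_le_sum fun k hk => h k (mem_range.1 hk)) (by positivity)

theorem Ek_nonneg {t : ℕ} {g : ℕ → ℝ} (h : ∀ k < 2 ^ t, 0 ≤ g k) : 0 ≤ Ek t g := by
  unfold Ek
  exact div_nonneg (sum_nonneg fun k hk => h k (mem_range.1 hk)) (by positivity)

theorem Ek_add (t : ℕ) (f g : ℕ → ℝ) : Ek t (fun k => f k + g k) = Ek t f + Ek t g := by
  unfold Ek
  rw [sum_add_distrib, add_div]

theorem Ek_sub (t : ℕ) (f g : ℕ → ℝ) : Ek t (fun k => f k - g k) = Ek t f - Ek t g := by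
  unfold Ek
  rw [sum_sub_distrib, sub_div]

theorem Ek_mul (t : ℕ) (c : ℝ) (g : ℕ → ℝ) : Ek t (fun k => c * g k) = c * Ek t g := by
  unfold Ek
  rw [← mul_sum, mul_div_assoc]

theorem Ek_div (t : ℕ) (c : ℝ) (g : ℕ → ℝ) : Ek t (fun k => g k / c) = Ek t g / c := by
  unfold Ek
  rw [← sum_div, div_right_comm]

theorem Ek_const (t : ℕ) (c : ℝ) : Ek t (fun _ => c) = c := by
  unfold Ek
  rw [sum_const, card_range, nsmul_eq_mul]
  push_cast
  field_simp

theorem Ek_sum {ι : Type*} (t : ℕ) (S : Finset ι) (g : ι → ℕ → ℝ) :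
    Ek t (fun k => ∑ i ∈ S, g i k) = ∑ i ∈ S, Ek t (g i) := by
  unfold Ek
  rw [sum_comm, sum_div]

/-- Cauchy-Schwarz -/
theorem Ek_cs (t : ℕ) (f g : ℕ → ℝ) :
    Ek t (fun k => f k * g k) ≤
      Real.sqrt (Ek t (fun k => f k ^ 2)) * Real.sqrt (Ek t (fun k => g k ^ 2)) := by
  have h := sum_mul_sq_le_sq_mul_sq (range (2 ^ t)) f g
  have h2 : (0 : ℝ) < 2 ^ t := by positivity
  have h3 : 0 ≤ Ek t (fun k => f k ^ 2) := Ek_nonneg fun k _ => by positivity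
  rw [← Real.sqrt_mul h3]
  apply Real.le_sqrt_of_sq_le
  unfold Ek
  rw [div_pow, div_mul_div_comm, div_le_div_iff₀ (by positivity) (by positivity)]
  calc (∑ k ∈ range (2 ^ t), f k * g k) ^ 2 * (2 ^ t * 2 ^ t) ≤
      ((∑ i ∈ range (2 ^ t), f i ^ 2) * ∑ i ∈ range (2 ^ t), g i ^ 2) * (2 ^ t * 2 ^ t) :=
        mul_le_mul_of_nonneg_right h (by positivity)
    _ = _ := by ring

/-- a value smaller than `X` occurs if the average is smaller than `X` -/
theorem exists_lt_of_Ek {t : ℕ} {g : ℕ → ℝ} {X : ℝ} (h : Ek t g < X) : ∃ k < 2 ^ t, g k < X := by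
  by_contra hc
  push Not at hc
  have h1 : Ek t (fun _ => X) ≤ Ek t g := Ek_mono hc
  rw [Ek_const] at h1
  linarith

theorem exists_le_of_Ek {t : ℕ} {g : ℕ → ℝ} {X : ℝ} (h : Ek t g ≤ X) : ∃ k < 2 ^ t, g k ≤ X := by
  by_contra hc
  push Not at hc
  have h0 : ∃ k ∈ range (2 ^ t), X < g k := ⟨0, mem_range.2 (by positivity), hc 0 (by positivity)⟩
  have h1 : ∑ k ∈ range (2 ^ t), X < ∑ k ∈ range (2 ^ t), g k :=
    sum_lt_sum (fun k hk => (hc k (mem_range.1 hk)).le) h0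
  have h2 : Ek t (fun _ => X) < Ek t g := by
    unfold Ek
    exact div_lt_div_of_pos_right h1 (by positivity)
  rw [Ek_const] at h2
  linarith

/-- the average over `t + 1` digits for a function of the reference point and one form -/
theorem Ek_step (t : ℕ) (θ : ℝ) (s : ℕ × ℕ) (G : ℝ → ℕ × ℕ → ℝ) :
    Ek (t + 1) (fun k => G (rt (t + 1) k θ) (rp (t + 1) k s)) =
      (Ek t (fun k => G (rt t k (θ / 2)) (rp t k (ps 0 s))) +
        Ek t (fun k => G (rt t k ((1 + θ) / 2)) (rp t k (ps 1 s)))) / 2 := by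
  rw [Ek_succ]
  have h1 : (fun k : ℕ => G (rt (t + 1) (2 * k) θ) (rp (t + 1) (2 * k) s)) =
      fun k => G (rt t k (θ / 2)) (rp t k (ps 0 s)) := by
    funext k
    rw [rt_succ, rp_succ]
    have a1 : 2 * k % 2 = 0 := by omega
    have a2 : 2 * k / 2 = k := by omega
    rw [a1, a2, Nat.cast_zero, zero_add]
  have h2 : (fun k : ℕ => G (rt (t + 1) (2 * k + 1) θ) (rp (t + 1) (2 * k + 1) s)) =
      fun k => G (rt t k ((1 + θ) / 2)) (rp t k (ps 1 s)) := by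
    funext k
    rw [rt_succ, rp_succ]
    have a1 : (2 * k + 1) % 2 = 1 := by omega
    have a2 : (2 * k + 1) / 2 = k := by omega
    rw [a1, a2, Nat.cast_one]
  rw [h1, h2]

/-- the averages of Part 2 of CMG are averages over digit strings -/
theorem avF_Ek (t : ℕ) (Ψ : ℝ → Finset (ℕ × ℕ) → ℝ) : ∀ (θ : ℝ) (F : Finset (ℕ × ℕ)),
    avF t Ψ θ F = Ek t (fun k => Ψ (rt t k θ) (runF t k F)) := by
  induction t with
  | zero => intro θ F; rw [avF_zero, Ek_zero, rt_zero, runF_zero]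
  | succ t ih =>
    intro θ F
    rw [avF_succ, Ek_succ, ih, ih]
    have h1 : (fun k : ℕ => Ψ (rt (t + 1) (2 * k) θ) (runF (t + 1) (2 * k) F)) =
        fun k => Ψ (rt t k (θ / 2)) (runF t k (F.image (ps 0))) := by
      funext k
      rw [rt_succ, runF_succ]
      have a1 : 2 * k % 2 = 0 := by omega
      have a2 : 2 * k / 2 = k := by omega
      rw [a1, a2, Nat.cast_zero, zero_add]
    have h2 : (fun k : ℕ => Ψ (rt (t + 1) (2 * k + 1) θ) (runF (t + 1) (2 * k + 1) F)) =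
        fun k => Ψ (rt t k ((1 + θ) / 2)) (runF t k (F.image (ps 1))) := by
      funext k
      rw [rt_succ, runF_succ]
      have a1 : (2 * k + 1) % 2 = 1 := by omega
      have a2 : (2 * k + 1) / 2 = k := by omega
      rw [a1, a2, Nat.cast_one]
    rw [h1, h2]

/-! ## positions, exponents, ends -/

theorem up_ps_nonneg {θ : ℝ} {s : ℕ × ℕ} (h : 0 ≤ up θ s) (c : ℕ) :
    0 ≤ up (((c : ℝ) + θ) / 2) (ps c s) := by
  have h3 := two_up_ps c θ s
  have h4 : (0 : ℝ) ≤ 3 ^ ((3 ^ s.1 * c + s.2) % 2) * up θ s +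
      (((3 ^ s.1 * c + s.2) % 2 : ℕ) : ℝ) := by positivity
  linarith

theorem up_rp_nonneg (t : ℕ) : ∀ (k : ℕ) {θ : ℝ} {s : ℕ × ℕ}, 0 ≤ up θ s →
    0 ≤ up (rt t k θ) (rp t k s) := by
  induction t with
  | zero => intro k θ s h; exact h
  | succ t ih =>
    intro k θ s h
    rw [rt_succ, rp_succ]
    exact ih _ (up_ps_nonneg h _)

theorem mem_runF {t k : ℕ} {F : Finset (ℕ × ℕ)} {x : ℕ × ℕ} :
    x ∈ runF t k F ↔ ∃ s ∈ F, rp t k s = x := by
  rw [winn_runF, mem_image]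

theorem Pos_run {θ : ℝ} {F : Finset (ℕ × ℕ)} (h : Pos θ F) (t k : ℕ) :
    Pos (rt t k θ) (runF t k F) := by
  intro x hx
  obtain ⟨s, hs, rfl⟩ := mem_runF.1 hx
  exact up_rp_nonneg t k (h s hs)

theorem rp_fst (t : ℕ) : ∀ (k : ℕ) (s : ℕ × ℕ), s.1 ≤ (rp t k s).1 ∧ (rp t k s).1 ≤ s.1 + t := by
  induction t with
  | zero => intro k s; exact ⟨le_rfl, le_rfl⟩
  | succ t ih =>
    intro k s
    rw [rp_succ]
    obtain ⟨h1, h2⟩ := ih (k / 2) (ps (k % 2) s)
    have h3 : (ps (k % 2) s).1 = s.1 + (3 ^ s.1 * (k % 2) + s.2) % 2 := rfl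
    omega

theorem runF_nonempty {t k : ℕ} {F : Finset (ℕ × ℕ)} (h : F.Nonempty) : (runF t k F).Nonempty := by
  rw [winn_runF]
  exact h.image _

theorem exists_end_left {F : Finset (ℕ × ℕ)} (h : F.Nonempty) : ∃ c, End 1 c F := by
  obtain ⟨s, hs, h1⟩ := F.exists_min_image Prod.fst h
  refine ⟨s.1, fun x hx => ?_, s, hs, rfl⟩
  have h2 : (s.1 : ℝ) ≤ x.1 := by exact_mod_cast h1 x hx
  linarith

theorem exists_end_right {F : Finset (ℕ × ℕ)} (h : F.Nonempty) : ∃ c, End (-1) c F := by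
  obtain ⟨s, hs, h1⟩ := F.exists_max_image Prod.fst h
  refine ⟨s.1, fun x hx => ?_, s, hs, rfl⟩
  have h2 : (x.1 : ℝ) ≤ s.1 := by exact_mod_cast h1 x hx
  linarith

theorem End.nonempty {σ : ℝ} {c : ℕ} {F : Finset (ℕ × ℕ)} (h : End σ c F) : F.Nonempty := by
  obtain ⟨s, hs, _⟩ := h.2
  exact ⟨s, hs⟩

/-- the left end lies to the left of the right end -/
theorem End.le {l r : ℕ} {F : Finset (ℕ × ℕ)} (h : End 1 l F) (h' : End (-1) r F) : l ≤ r := by
  obtain ⟨s, hs, h1⟩ := h.2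
  have h2 := h'.1 s hs
  rw [h1] at h2
  have : (l : ℝ) ≤ r := by linarith
  exact_mod_cast this

theorem wt_nonneg (t : ℝ) : 0 ≤ wt t := by unfold wt; positivity

theorem wt_zero : wt 0 = 1 := by unfold wt; norm_num

theorem wt_anti {s t : ℝ} (hs : 0 ≤ s) (h : s ≤ t) : wt t ≤ wt s := by
  unfold wt
  apply one_div_le_one_div_of_le (by positivity)
  exact pow_le_pow_left₀ (by linarith) (by linarith) 2

theorem wt_le_one {t : ℝ} (h : 0 ≤ t) : wt t ≤ 1 := by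
  have := wt_anti le_rfl h
  rwa [wt_zero] at this

theorem one_le_pw {θ : ℝ} {s : ℕ × ℕ} (h : 0 ≤ up θ s) : 1 ≤ pw θ s := by
  unfold pw
  rw [Real.one_le_sqrt, Real.one_le_sqrt]
  linarith

theorem pw_nonneg (θ : ℝ) (s : ℕ × ℕ) : 0 ≤ pw θ s := Real.sqrt_nonneg _

theorem pw_sq (θ : ℝ) (s : ℕ × ℕ) : pw θ s ^ 2 = Real.sqrt (1 + up θ s) := by
  unfold pw
  exact Real.sq_sqrt (Real.sqrt_nonneg _)

theorem pot_nonneg (lam θ σ : ℝ) (c : ℕ) (F : Finset (ℕ × ℕ)) : 0 ≤ pot lam θ σ c F := by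
  unfold pot
  exact sum_nonneg fun s _ => mul_nonneg (pw_nonneg _ _) (wt_nonneg _)

/-! ## strings -/

theorem run_cat (n : ℕ) : ∀ (n' k k' : ℕ), k < 2 ^ n → ∀ (s : ℕ × ℕ),
    rp (n + n') (k + 2 ^ n * k') s = rp n' k' (rp n k s) := by
  induction n with
  | zero =>
    intro n' k k' hk s
    have hk0 : k = 0 := by simpa using hk
    rw [hk0, rp_zero, pow_zero, one_mul, zero_add, zero_add]
  | succ n ih =>
    intro n' k k' hk s
    have e1 : n + 1 + n' = (n + n') + 1 := by ring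
    have e2 : (k + 2 ^ (n + 1) * k') % 2 = k % 2 := by
      have : 2 ^ (n + 1) * k' = 2 * (2 ^ n * k') := by ring
      omega
    have e3 : (k + 2 ^ (n + 1) * k') / 2 = k / 2 + 2 ^ n * k' := by
      have : 2 ^ (n + 1) * k' = 2 * (2 ^ n * k') := by ring
      omega
    have e4 : k / 2 < 2 ^ n := by
      rw [pow_succ] at hk
      omega
    rw [e1, rp_succ, e2, e3, ih n' (k / 2) k' e4, rp_succ]

theorem rt_cat (n : ℕ) : ∀ (n' k k' : ℕ), k < 2 ^ n → ∀ (θ : ℝ),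
    rt (n + n') (k + 2 ^ n * k') θ = rt n' k' (rt n k θ) := by
  induction n with
  | zero =>
    intro n' k k' hk θ
    have hk0 : k = 0 := by simpa using hk
    rw [hk0, rt_zero, pow_zero, one_mul, zero_add, zero_add]
  | succ n ih =>
    intro n' k k' hk θ
    have e1 : n + 1 + n' = (n + n') + 1 := by ring
    have e2 : (k + 2 ^ (n + 1) * k') % 2 = k % 2 := by
      have : 2 ^ (n + 1) * k' = 2 * (2 ^ n * k') := by ring
      omega
    have e3 : (k + 2 ^ (n + 1) * k') / 2 = k / 2 + 2 ^ n * k' := by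
      have : 2 ^ (n + 1) * k' = 2 * (2 ^ n * k') := by ring
      omega
    have e4 : k / 2 < 2 ^ n := by
      rw [pow_succ] at hk
      omega
    rw [e1, rt_succ, e2, e3, ih n' (k / 2) k' e4, rt_succ]

theorem Goes.refl (θ : ℝ) (F : Finset (ℕ × ℕ)) : Goes 0 θ F θ F :=
  ⟨0, by norm_num, rfl, rfl⟩

theorem Goes.trans {n n' : ℕ} {θ θ' θ'' : ℝ} {F F' F'' : Finset (ℕ × ℕ)}
    (h : Goes n θ F θ' F') (h' : Goes n' θ' F' θ'' F'') : Goes (n + n') θ F θ'' F'' := by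
  obtain ⟨k, hk, rfl, rfl⟩ := h
  obtain ⟨k', hk', rfl, rfl⟩ := h'
  refine ⟨k + 2 ^ n * k', ?_, ?_, ?_⟩
  · rw [pow_add]
    have : 2 ^ n * k' + 2 ^ n ≤ 2 ^ n * 2 ^ n' := by
      rw [← Nat.mul_succ]
      exact Nat.mul_le_mul_left _ hk'
    omega
  · rw [winn_runF, winn_runF, winn_runF, image_image]
    apply image_congr
    intro s _
    exact (run_cat n n' k k' hk s).symm
  · exact (rt_cat n n' k k' hk θ).symm

theorem Stt.mono {X Y : ℝ} {m : ℕ} {θ : ℝ} {F : Finset (ℕ × ℕ)} {W : ℕ} (h : Stt X m θ F W)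
    (hXY : X ≤ Y) : Stt Y m θ F W := by
  obtain ⟨h1, l, h2, h3, h4, h5⟩ := h
  exact ⟨h1, l, h2, h3, h4.trans hXY, h5.trans hXY⟩

end LIV
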