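import Mathlib
import Pool.Agent.LIV.Defs
import Pool.Agent.CMG.ShG
import Pool.Agent.CMG.ShA
import Pool.Agent.CMG.ShC
import Pool.Agent.CMG.ShF
import Pool.Agent.CMG.WinC

/-!
# EXTREMAL MERGING (architect helper17), statements of the modules with complete proofs

GOAL. There is `C` such that for every `a` with `3 ∤ a`, all `x ≥ x₀(a)` and all `M ≤ (log x) / C` at
least `(c / a) x exp (-C (M + 1))` of the `n ≤ x` lie in `P(a)` and satisfy: for some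
`k ≤ C (M + 1)`, `T ^ (k + u - v) m = T ^ k n` for all `|u|, |v| ≤ M`, `|m - 2 ^ u 3 ^ v n| ≤ 2 ^ M`.
So `P(a)` contains intervals `[n - n ^ c, n + n ^ c]`.

OVERVIEW. We follow the set `F` of the forms `3 ^ e k + a` (pairs `(e, a)`), starting with
`F0 M (2 ^ M)`, and CHOOSE the digits. `T = m ^ 2` digits form a block at the scale `m`. Write
`X_s = s.1` for the exponent. `pot` = `Σ (1+u)^(1/4) / (1 + (distance from the end)/m)^2`, from the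
left end (`σ = 1`) and from the right end (`σ = -1`). `Stt X m θ F W`: width `W`, both potentials
`≤ X`. In one block (m large absolute constant) the expected potential becomes `≤ η pot + C_η` (LB: many
walkers merge with their neighbours), the difference of the exponents of the two extreme walkers is
a martingale with quadratic variation `≥ m²/8`, if no multiple of `2 ^ (i+1)`, `i ≤ m/16 - 1`, is
within `m²` of `W` (MV), the others overtake them only by `ε m` on average (OVS). So some string gives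
`W' ≤ W - c₀ m`, potentials still `≤ B`. Near multiples of `2 ^ i` the scale is `K₀ (i+1)` (LVL, RND);
the total cost is `O(W)`.

Work: every module proves ONE `theorem` named as the statement without `St`, in lower case (for
instance `theorem LIV.mom1 : StMom1`), in its own file `Pool/Agent/LIV/Mom1.lean`, importing
`Pool.Agent.LIV.St` (or smaller imports). Basic facts (`Ek_*`, `Goes.*`, `rp_*`, `up_rp_nonneg`, ...) are in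
`Pool/Agent/LIV/Defs.lean`. The chain of pairs (`St`, `step`, `run`, `av`, `p`, `dd`, `sq`, `nh`, `hq`, `mu`) is in
`Pool/Agent/CMG` (Defs, Chain, ShD; theorems `av_d2`, `av_sq`, `mu_le`, `hq_le`, `nh_sharp`, `zero_sharp`, `sharp`,
`sq_pr`, `wina_pt`, `card_le_Phi`, `avF_Phi`, `wine_decay`).
-/

set_option autoImplicit false

namespace LIV

open Pool.Agent.LibHelper3 CMG Finset

/-! ## A. one form -/

/-- **MOM1** (60 lines). `pw² = √(1+u) ≤ 1 + √u`. By induction on `t` (generalizing `θ`, `s`), with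
`Ek_step` for `G θ s = √(up θ s)` and `wina_pt` (average of the two children `≤ 97/100 √u + 3/4`;
`up_ps_nonneg` for the children): `Ek t (√u) ≤ (97/100)^t √u + 25` (`.97 * 25 + .75 = 25`).
Finally `√u ≤ √(1+u) = pw²`. -/
def StMom1 : Prop := ∀ (t : ℕ) (θ : ℝ) (s : ℕ × ℕ), 0 ≤ up θ s →
  Ek t (fun k => pw (rt t k θ) (rp t k s) ^ 2) ≤ (97 / 100) ^ t * pw θ s ^ 2 + 26

/-- **MOM2** (80 lines). By induction on `t`: `Ek t (fun k => exp (μ ((rp t k s).1 - s.1))) =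
((1 + exp μ)/2)^t` (`Ek_succ` or `Ek_step`; `(ps c s).1 = s.1 + (c + s.2) % 2` by `ps_parity`, so the two
digits give the increments `0` and `1` in some order). Multiply by `exp (-μ t/2)`:
`(cosh (μ/2))^t ≤ exp (μ² t/8)` (`Real.cosh_le_exp_half_sq`). -/
def StMom2 : Prop := ∀ (t : ℕ) (μ : ℝ) (s : ℕ × ℕ),
  Ek t (fun k => Real.exp (μ * (((rp t k s).1 : ℝ) - s.1 - t / 2))) ≤ Real.exp (μ ^ 2 * t / 8)

/-- normalised deviation of the exponent after `m ^ 2` digits -/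
noncomputable def xi (m k : ℕ) (s : ℕ × ℕ) : ℝ :=
  |((rp (m ^ 2) k s).1 : ℝ) - s.1 - (m : ℝ) ^ 2 / 2| / m

/-- **MOM3** (50 lines, from MOM2). `x^8 ≤ 8! e^x ≤ 40320 (e^z + e^(-z))`, `x = |z|`
(`Real.pow_div_factorial_le_exp`), `z = (..)/m`; MOM2 with `μ = ± 1/m`, `t = m ^ 2`:
`≤ 40320 * 2 * exp (1/8) ≤ 100000`. -/
def StMom3 : Prop := ∀ (m : ℕ) (s : ℕ × ℕ), 1 ≤ m → Ek (m ^ 2) (fun k => xi m k s ^ 8) ≤ 100000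

/-- **HOL** (100 lines, from MOM1, MOM3). `P = pw (..)`, `Z = 1 + xi a + xi s`, `u² = u`. `Ek_cs` twice:
`E[u P Z²] = E[P (u Z²)] ≤ √(E P²) √(E u Z⁴)`, `E[u Z⁴] ≤ √(E u) √(E Z⁸)`. `Z⁸ ≤ 3⁸ (1 + xi a⁸ + xi s⁸)`
(maximum of the three terms), so `E Z⁸ ≤ 6561 * 200001 ≤ 200⁴`; `√(E P²) ≤ √(.97^T pw² + 26) ≤
√(.97^T) pw + 6`. -/
def StHol : Prop := ∀ (m : ℕ) (θ : ℝ) (a s : ℕ × ℕ) (u : ℕ → ℝ), 1 ≤ m → 0 ≤ up θ s →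
  (∀ k, u k = 0 ∨ u k = 1) →
  Ek (m ^ 2) (fun k => u k * (pw (rt (m ^ 2) k θ) (rp (m ^ 2) k s) *
      (1 + xi m k a + xi m k s) ^ 2)) ≤
    200 * Real.sqrt (Real.sqrt (Ek (m ^ 2) u)) *
      (Real.sqrt ((97 / 100) ^ (m ^ 2)) * pw θ s + 6)

/-! ## B. lists and the number of different forms -/

/-- sum over consecutive elements of a list -/
noncomputable def adj (g : ℕ × ℕ → ℕ × ℕ → ℝ) : List (ℕ × ℕ) → ℝ
  | [] => 0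
  | [_] => 0
  | s :: s' :: l => g s s' + adj g (s' :: l)

/-- **ADJ1** (60 lines). Induction on `l` generalizing `a`: `l = []`: one element. `l = s' :: l'`: the
image is `insert (f a) (image of (s' :: l'))`; if `f a = f s'` it is the image of the tail and
`φ (f s') = φ (f a)`; otherwise its sum is `≤ φ (f a) +` the sum of the image of the tail. -/
def StAdj1 : Prop := ∀ (f : ℕ × ℕ → ℕ × ℕ) (φ : ℕ × ℕ → ℝ) (a : ℕ × ℕ) (l : List (ℕ × ℕ)),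
  (∀ x, 0 ≤ φ x) →
  ∑ x ∈ (a :: l).toFinset.image f, φ x ≤
    φ (f a) + adj (fun s s' => (if f s = f s' then 0 else 1) * φ (f s')) (a :: l)

/-- **ADJ2** (120 lines, several easy facts by induction on the list).
(1) `adj` of a linear combination. (2) monotone for consecutive (pairwise related) elements.
(3) averages of `adj`. (4) `Σ (v' - v) wt v' ≤ 1` for `0 ≤ v` nondecreasing: for `0 ≤ x ≤ y`,
`(y - x)/(1+y)² ≤ 1/(1+x) - 1/(1+y)`; prove `adj .. (a :: l) ≤ 1 / (1 + v a)`. (5), (6): for a list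
without repetitions and `0 ≤ ψ` the sums of `ψ s'` and of `ψ s` over the consecutive pairs are at most
the sum over the set. -/
def StAdj2 : Prop :=
  (∀ (g h : ℕ × ℕ → ℕ × ℕ → ℝ) (c d : ℝ) (l : List (ℕ × ℕ)),
    adj (fun s s' => c * g s s' + d * h s s') l = c * adj g l + d * adj h l) ∧
  (∀ (g h : ℕ × ℕ → ℕ × ℕ → ℝ) (R : ℕ × ℕ → ℕ × ℕ → Prop) (l : List (ℕ × ℕ)), l.Pairwise R →
    (∀ s ∈ l, ∀ s' ∈ l, R s s' → g s s' ≤ h s s') → adj g l ≤ adj h l) ∧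
  (∀ (t : ℕ) (g : ℕ → ℕ × ℕ → ℕ × ℕ → ℝ) (l : List (ℕ × ℕ)),
    Ek t (fun k => adj (g k) l) = adj (fun s s' => Ek t (fun k => g k s s')) l) ∧
  (∀ (v : ℕ × ℕ → ℝ) (a : ℕ × ℕ) (l : List (ℕ × ℕ)), (∀ s ∈ a :: l, 0 ≤ v s) →
    (a :: l).Pairwise (fun s s' => v s ≤ v s') →
    adj (fun s s' => (v s' - v s) * wt (v s')) (a :: l) ≤ 1) ∧
  (∀ (ψ : ℕ × ℕ → ℝ) (l : List (ℕ × ℕ)), l.Nodup → (∀ s, 0 ≤ ψ s) →
    adj (fun _ s' => ψ s') l ≤ ∑ s ∈ l.toFinset, ψ s) ∧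
  (∀ (ψ : ℕ × ℕ → ℝ) (l : List (ℕ × ℕ)), l.Nodup → (∀ s, 0 ≤ ψ s) →
    adj (fun s _ => ψ s) l ≤ ∑ s ∈ l.toFinset, ψ s)

/-- **SRT** (60 lines). Sort `F.toList` by `r s s' : σ s.1 ≤ σ s'.1` (total, transitive;
`List.insertionSort`, `List.mergeSort`), a permutation of `F.toList`. It is not empty; for its head `a` we
have `σ a.1 ≤ σ c` (an element with exponent `c` is in `F`) and `0 ≤ σ (a.1 - c)`, so `a.1 = c`. -/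
def StSrt : Prop := ∀ (σ : ℝ) (c : ℕ) (F : Finset (ℕ × ℕ)), (σ = 1 ∨ σ = -1) → End σ c F →
  ∃ (a : ℕ × ℕ) (l : List (ℕ × ℕ)), (a :: l).Nodup ∧ (a :: l).toFinset = F ∧ a.1 = c ∧
    (a :: l).Pairwise (fun s s' => σ * (s.1 : ℝ) ≤ σ * s'.1)

/-- **LBP** (120 lines, from ADJ1, ADJ2 (2)). Fix `k`. `runF (m^2) k F = F.image (rp (m^2) k)`
(`winn_runF`). ADJ1 with `f = rp (m^2) k`, `φ x = pw (rt ..) x * wt (1/m * (σ * (x.1 - c')))`. For `s ∈ F` put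
`A = σ (s.1 - c)/m ≥ 0`, `A' = (1/m) σ ((rp s).1 - c') ≥ 0`, `y = xi m k a + xi m k s`. Then `A' ≥ A - y`, because
`σ ((rp a).1 - c') ≥ 0` (`rp a` is in the image) and `(rp s).1 - (rp a).1 = (s.1 - a.1) + (dev s - dev a)`,
`|dev s| = m xi m k s`, `a.1 = c`. Hence `1 + A ≤ (1 + A')(1 + y)` and `wt A' ≤ (1 + y)² wt A`. For the head
`A = 0`, `wt 0 = 1`. -/
def StLBP : Prop := ∀ (m k : ℕ) (σ θ : ℝ) (c c' : ℕ) (F : Finset (ℕ × ℕ)) (a : ℕ × ℕ)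
    (l : List (ℕ × ℕ)), 1 ≤ m → (σ = 1 ∨ σ = -1) → End σ c F →
  End σ c' (runF (m ^ 2) k F) → (a :: l).toFinset = F → a.1 = c →
  pot (1 / (m : ℝ)) (rt (m ^ 2) k θ) σ c' (runF (m ^ 2) k F) ≤
    pw (rt (m ^ 2) k θ) (rp (m ^ 2) k a) * (1 + xi m k a + xi m k a) ^ 2 +
    adj (fun s s' => (if rp (m ^ 2) k s = rp (m ^ 2) k s' then 0 else 1) *
      (pw (rt (m ^ 2) k θ) (rp (m ^ 2) k s') * (1 + xi m k a + xi m k s') ^ 2) *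
      wt (σ * ((s'.1 : ℝ) - c) / m)) (a :: l)

/-- conclusion of LB for given constants -/
def LBc (η C : ℝ) (m₀ : ℕ) : Prop := ∀ (m : ℕ) (σ θ : ℝ) (c : ℕ) (F : Finset (ℕ × ℕ))
    (c' : ℕ → ℕ), m₀ ≤ m → (σ = 1 ∨ σ = -1) → Pos θ F → End σ c F →
  (∀ k, End σ (c' k) (runF (m ^ 2) k F)) →
  Ek (m ^ 2) (fun k => pot (1 / (m : ℝ)) (rt (m ^ 2) k θ) σ (c' k) (runF (m ^ 2) k F)) ≤
    η * pot (1 / (m : ℝ)) θ σ c F + C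

/-- **LB** (200 lines, from SRT, LBP, ADJ2, HOL, `sharp`). `T = m²`, `Ψ = pot (1/m) θ σ c F`, list `a :: l` of SRT,
`v s = σ (s.1 - c)/m`, `w s = wt (v s)`, so `Ψ = Σ pw s w s` (`(1/m) (σ x) = σ x/m`). Take the average of LBP
(ADJ2 (3); `Ek_mul`).
Pair `(s, s')` consecutive: `U = Ek T [rp s ≠ rp s'] = p T (pr s s')` (`Ek_pair` with `G = un`, `Mg_pr`) `≤ 1` and
`≤ C_s (1 + g + q)/m` (`sharp`, `√(m²) = m`), `g = dd (pr s s') = m (v s' - v s)` (`dd_pr`, sorted),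
`q = sq (pr s s') ≤ √u + √u' ≤ (pw s)² + (pw s')²` (`sq_pr`, `pw_sq`). Since `min 1 z ≤ √z`:
`U ≤ C_s (1+g)/m + √(C_s/m) (pw s + pw s')`. For `L > 0`, `y ≥ 0`: `√√y ≤ L³ y + 1/L`. HOL, `√√U ≤ 1`,
`δ = √(.97^T)`: the term of the pair is at most
`200 w s' (δ pw s' + 6 √√U) ≤ 200 w s' (δ pw s' + 6 L³ C_s/m + 6 L³ C_s (v s' - v s) + 6 L³ √(C_s/m) (pw s + pw s')
+ 6/L)`. Sum with ADJ2: `Σ w s' ≤ Σ pw s' w s' ≤ Ψ` (`pw ≥ 1`), `Σ (v s' - v s) w s' ≤ 1`, `Σ pw s w s' ≤ Σ pw s w s ≤ Ψ`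
(`w s' ≤ w s`). Head: HOL with `u = 1`, `s = a`: `≤ 200 (δ pw a + 6) ≤ 200 (δ Ψ + 6)`. Total
`≤ 200 [2δ + 6L³C_s/m + 12 L³ √(C_s/m) + 6/L] Ψ + 200 (6 + 6 L³ C_s)`; choose `L` with `1200/L ≤ η/2`, then `m₀`
so large that the other terms in `[..]` are `≤ η/400` for `m ≥ m₀`. -/
def StLB : Prop := ∀ η : ℝ, 0 < η → ∃ (C : ℝ) (m₀ : ℕ), 0 < C ∧ 1 ≤ m₀ ∧ LBc η C m₀

/-! ## C. the extreme walkers are rarely overtaken -/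

/-- **NEAR** (150 lines, from `zero_sharp`, `hq_le`, `av_d2`, `sq_pr`). For a state `s` of pairs let
`ov s = max 0 (s.e - s.f)`. `T = m²`.
(1) If `dd s = 0`, `1 ≤ u ≤ T`: `ov ≤ dd * un` (`ov ≤ dd`, and `dd = 0` for merged states), so by `Ek_cs` (through
`Ek_run`) `av u ov s ≤ √(av u d2 s) √(av u un s) ≤ √(u * K (1 + l sq s)/√u) ≤ β √(1 + sq s)`, `β = √(K' √T)`,
`K' = K max(1,l)`. For `u = 0` it is `0`.
(2) For `L > 0`: `√(1+q) ≤ ((1+q)/L + L)/2`.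
(3) By induction on `t ≤ T`, for all `s` with `s.e ≤ s.f`:
`av t ov s ≤ (β/2) (1/L + L) + (β/(2L)) hq t s`. `t = 0`: `ov s = 0`, `hq ≥ 0`. `t+1`, `dd s = 0`: (1), (2),
`hq (t+1) s = sq s`. `t+1`, `s.e < s.f`: both children still have `e ≤ f` (exponents grow by at most `1`), average.
(4) `hq ≤ sq + C₂`, `L = √(1 + C₂ + sq s)`: `av T ov s ≤ β √(1 + C₂ + sq s) ≤ β √(1+C₂) √(1 + sq s)`.
(5) `s = pr s s'`: `sq ≤ √u + √u' ≤ pw s ^2 + pw s' ^2`, `1 + sq ≤ (pw s + pw s')²`; `β = √K' √m`. -/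
def StNear : Prop := ∃ C : ℝ, 0 < C ∧ ∀ (m : ℕ) (θ : ℝ) (s s' : ℕ × ℕ), 1 ≤ m → 0 ≤ up θ s →
  0 ≤ up θ s' → s.1 ≤ s'.1 →
  Ek (m ^ 2) (fun k => max 0 (((rp (m ^ 2) k s).1 : ℝ) - (rp (m ^ 2) k s').1)) ≤
    C * Real.sqrt m * (pw θ s + pw θ s')

/-- **FAR** (80 lines). `z = s.e - s.f` for a state of pairs: if `a + b` is even both children have the same
`z`, if it is odd they have `z + 1` and `z - 1` in some order (`vx_mod`, `vy_mod`), so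
`av t (exp (μ z)) s ≤ cosh μ ^ t exp (μ z) ≤ exp (μ² t/2 + μ z)`. `max 0 z ≤ (m/3) exp (3 z/m)`; `μ = 3/m`,
`t = m²`: `≤ (m/3) exp (4.5 + 3 z/m)`. `Ek_pair`. -/
def StFar : Prop := ∀ (m : ℕ) (s s' : ℕ × ℕ), 1 ≤ m →
  Ek (m ^ 2) (fun k => max 0 (((rp (m ^ 2) k s).1 : ℝ) - (rp (m ^ 2) k s').1)) ≤
    m * Real.exp (5 - 3 * ((s'.1 : ℝ) - s.1) / m)

/-- conclusion of OVS for given constants -/
def Ovc (B ε : ℝ) (m₀ : ℕ) : Prop := ∀ (m : ℕ) (σ θ : ℝ) (c : ℕ) (F : Finset (ℕ × ℕ))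
    (a : ℕ × ℕ), m₀ ≤ m → (σ = 1 ∨ σ = -1) → Pos θ F → End σ c F → a ∈ F → a.1 = c →
  pot (1 / (m : ℝ)) θ σ c F ≤ B →
  Ek (m ^ 2) (fun k => ∑ s ∈ F, max 0 (σ * (((rp (m ^ 2) k a).1 : ℝ) - (rp (m ^ 2) k s).1))) ≤
    ε * m

/-- **OVS** (120 lines, from NEAR, FAR). `Ek_sum`. For `σ = 1` the term of `s` is NEAR/FAR for `(a, s)`
(`a.1 ≤ s.1`), for `σ = -1` it is NEAR/FAR for `(s, a)` (`s.1 ≤ a.1`). `v = σ (s.1 - c)/m ≥ 0`. Let `R > 0` with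
`exp (5 - R) ≤ ε/(2B)`. `v ≤ R`: NEAR gives `≤ C √m (pw a + pw s) ≤ C √m (1+R)² (pw a + pw s) wt v`; with
`pw a ≤ B` (`wt 0 = 1`) and `Σ wt v ≤ Σ pw s wt v ≤ B` the sum is `≤ 2 C (1+R)² B² √m ≤ (ε/2) m` for `m ≥ m₀`.
`v > R`: FAR gives `≤ m exp (5 - 3v) ≤ m exp (5 - v) wt v ≤ m (ε/(2B)) pw s wt v` (`(1+v)² ≤ exp (2v)`), sum
`≤ (ε/2) m`. -/
def StOvs : Prop := ∀ B ε : ℝ, 1 ≤ B → 0 < ε → ∃ m₀ : ℕ, Ovc B ε m₀

/-! ## D. the extreme walkers move -/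

/-- expected number of moves of the difference of the exponents in `t` steps -/
noncomputable def mv : ℕ → St → ℝ
  | 0, _ => 0
  | t + 1, s => (if (s.a + s.b) % 2 = 1 then 1 else 0) + (mv t (step 0 s) + mv t (step 1 s)) / 2

/-- **MV1** (120 lines). `dd_even`, `dd_odd` (`dd ≥ 1` at all steps because `T ≤ dd s`; generalize: for all `t ≤ dd s`
and all `W`). With `z = dd - W`: `av t z s = z₀`; `av t z² s = z₀² + mv t s`; `av t z⁴ s ≤ z₀⁴ + 6 t z₀² + 3t²`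
(a move: average of `(z±1)⁴` is `z⁴ + 6z² + 1`); `mv t s ≤ t`. Put `W = dd s`. -/
def StMv1 : Prop := ∀ (t : ℕ) (s : St), t ≤ dd s →
  av t (fun x => (dd x : ℝ) - dd s) s = 0 ∧
  av t (fun x => ((dd x : ℝ) - dd s) ^ 2) s = mv t s ∧
  av t (fun x => ((dd x : ℝ) - dd s) ^ 4) s ≤ 3 * (t : ℝ) ^ 2 ∧ mv t s ≤ t

/-- **MV2** (200 lines, from `mu_le`, `mu_move`, `mu_stay`). `ψ k d = (d % 2^k) (2^k - d % 2^k)/2^k ∈ [0, 2^k/4]`; for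
`d ≥ 1`: `(ψ k (d+1) + ψ k (d-1))/2 - ψ k d = [2^k ∣ d] - 2^(-k)`. `J = Nat.clog 2 i`, so `i ≤ 2^J ≤ 2i`.
`Γ' d = -Σ_{1≤k≤J} ψ k d - i ψ (J+1) d`, `h d = 4 + v₂(d)`. If `2^(i+1) ∤ d`, `d ≥ 1`:
`(Γ'(d+1) + Γ'(d-1))/2 ≤ Γ' d - h d + 6`, since `v₂(d) ≤ Σ_{k≤J} [2^k ∣ d] + i [2^(J+1) ∣ d]`, `Σ 2^(-k) ≤ 1`,
`i/2^(J+1) ≤ 1/2`. `Γ = Γ' - h`. Claim, by induction on `t` generalizing `s` (`t < dd s`, no multiples of
`2^(i+1)` within `t` of `dd s`): `t ≤ mu t s + Γ (dd s) - av t (Γ ∘ dd) s + 6 mv t s`.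
`a+b` even: `mu_stay`, `dd_even`, `mv (t+1) s = av. of mv t`. `a+b` odd: `mu (t+1) s = 1`; the induction
hypothesis for the children `s_c`, `d_c = dd s ± 1`, averaged, with `mu t s_c ≤ h d_c` (`mu_le`) gives
`t ≤ av (h d_c + Γ d_c) - .. + 6 av mv`, `h + Γ = Γ'`, and `av Γ' d_c ≤ Γ(dd s) + 6`; `mv (t+1) s = 1 + av mv`.
Finally `mu T s ≤ h (dd s)`, so `T ≤ Γ'(dd s) - av Γ' + av h + 6 mv`, `Γ' ≤ 0`, `-Γ' ≤ 2^J (1+i)/2 ≤ i(i+1)`,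
`h ≤ 4 + i` within the range. -/
def StMv2 : Prop := ∀ (t i : ℕ) (s : St), 1 ≤ i → t < dd s →
  (∀ d : ℕ, d ≤ dd s + t → dd s ≤ d + t → ¬ 2 ^ (i + 1) ∣ d) →
  (t : ℝ) ≤ 6 * mv t s + ((i : ℝ) + 2) ^ 2

/-- conclusion of MV for given constants -/
def Mvc (p₀ c₀ : ℝ) : Prop := ∀ (m i W : ℕ) (a b : ℕ × ℕ), 1 ≤ m → 16 * (i + 1) ≤ m →
  a.1 + W = b.1 → (∀ d : ℕ, d ≤ W + m ^ 2 → W ≤ d + m ^ 2 → ¬ 2 ^ (i + 1) ∣ d) →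
  p₀ ≤ Ek (m ^ 2) (fun k =>
    if ((rp (m ^ 2) k b).1 : ℝ) - (rp (m ^ 2) k a).1 ≤ W - c₀ * m then 1 else 0)

/-- **MV** (150 lines, from MV1, MV2). `T = m²`, `s = pr a b`, `dd s = W`. `d = 0` shows `W > T`; so for all `k`
`(rp k b).1 - (rp k a).1 = dd (pr (rp k a) (rp k b)) ≥ 0` (`rp_fst`) and everything is an average over the chain
(`Ek_pair`). `i ≥ 1` since an even `d` is in the range. `z = dd - W`. MV2: `(i+2)² ≤ m²/64`, so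
`E z² = mv T s ≥ T/8`. `x² ≤ τ |x| + x⁴/τ²` for `τ > 0`; with `τ² = 48 T`: `T/8 ≤ τ E|z| + 3T²/(48T)`, so
`E|z| ≥ √T/(16 √48) ≥ m/111`. `E z = 0`: `E (−z)⁺ = E|z|/2 ≥ m/222`. `Y = (−z)⁺ ≤ η + Km [Y > η] + Y²/(Km)` with
`η = m/888`, `K = 888`, `E Y² ≤ E z² ≤ T`: `m/222 ≤ m/888 + 888 m P + m/888`, `P = P(W - dd > m/888) ≥ 2/888²`.
`p₀ = 2/888²`, `c₀ = 1/888`. -/
def StMv : Prop := ∃ p₀ c₀ : ℝ, 0 < p₀ ∧ p₀ ≤ 1 ∧ 0 < c₀ ∧ c₀ ≤ 1 ∧ Mvc p₀ c₀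

/-! ## E. blocks -/

/-- blocks which keep the potentials and reduce the width -/
def Blk (B c₀ : ℝ) (m₀ : ℕ) : Prop := ∀ (m i : ℕ) (θ : ℝ) (F : Finset (ℕ × ℕ)) (W : ℕ),
  m₀ ≤ m → 16 * (i + 1) ≤ m → Stt B m θ F W →
  (∀ d : ℕ, d ≤ W + m ^ 2 → W ≤ d + m ^ 2 → ¬ 2 ^ (i + 1) ∣ d) →
  ∃ (θ' : ℝ) (F' : Finset (ℕ × ℕ)) (W' : ℕ), Goes (m ^ 2) θ F θ' F' ∧ Stt B m θ' F' W' ∧
    (W' : ℝ) ≤ W - c₀ * m

/-- blocks which halve the potentials -/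
def Prp (B : ℝ) (m₀ : ℕ) : Prop := ∀ (m : ℕ) (X θ : ℝ) (F : Finset (ℕ × ℕ)) (W : ℕ),
  m₀ ≤ m → Stt X m θ F W →
  ∃ (θ' : ℝ) (F' : Finset (ℕ × ℕ)) (W' : ℕ), Goes (m ^ 2) θ F θ' F' ∧
    Stt (max B (X / 2)) m θ' F' W' ∧ W' ≤ W + m ^ 2

/-- **PRP** (90 lines). `c'`, `r'`: the ends of `runF (m^2) k F` (`exists_end_left`, `exists_end_right`, choose for all
`k`). Let `Y = max B (X/2) ≥ X/2`, `Y ≥ B`. If for every `k < 2^(m²)` one of the two new potentials is `> Y`, then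
`1 ≤ (pot_l + pot_r)/Y`, so `Y ≤ E(pot_l + pot_r) ≤ 2 (η X + C) ≤ 2 (2η Y + Y/16) ≤ (1/4 + 1/8) Y`: contradiction
(`Y ≥ 1`). The new width: the exponents grow by `0..m²` (`rp_fst`), `End.le`. -/
def StPrp : Prop := ∀ (η C B : ℝ) (m₀ : ℕ), 0 < η → η ≤ 1 / 16 → 0 < C → LBc η C m₀ → 1 ≤ B →
  16 * C ≤ B → Prp B m₀

/-- **BLK** (150 lines). `a`, `b ∈ F` with exponents `l`, `l + W` (the two ends), `D = (rp b).1 - (rp a).1`,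
`O_l = Σ_s max 0 ((rp a).1 - (rp s).1)`, `O_r = Σ_s max 0 (-((rp b).1 - (rp s).1))`. The new width satisfies
`W' ≤ D + O_l + O_r` (the leftmost new exponent is `(rp s).1` for some `s`, `≥ (rp a).1 - O_l`, etc.). Suppose no
`k < 2^(m²)` has `D ≤ W - c₀ m`, `O_l + O_r ≤ c₀ m/2` and both potentials `≤ B`. Then for all `k`:
`[D ≤ W - c₀ m] ≤ pot_l/B + pot_r/B + (O_l + O_r)/(c₀ m/2)`. Average: Mvc: `p₀ ≤`; LBc with `η = p₀/16`,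
`16 C ≤ p₀ B`: `E pot ≤ (p₀/16) B + (p₀/16) B`; Ovc with `ε = c₀ p₀/16`: `E(O_l+O_r) ≤ c₀ p₀ m/8`. So
`p₀ ≤ p₀/8 + p₀/8 + p₀/4`: contradiction. -/
def StBlk : Prop := ∀ (p₀ c₀ C B : ℝ) (m₀ : ℕ), 0 < p₀ → p₀ ≤ 1 → 0 < c₀ → 0 < C → 1 ≤ m₀ → 1 ≤ B →
  16 * C ≤ p₀ * B → Mvc p₀ c₀ → LBc (p₀ / 16) C m₀ → Ovc B (c₀ * p₀ / 16) m₀ →
  Blk B (c₀ / 2) m₀

/-- **SCL** (50 lines). `wt (v/m) ≤ wt (v/m')` and `wt (v/m') ≤ (m'/m)² wt (v/m)` for `v ≥ 0`, `m ≤ m'`: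
`1 + v/m ≤ (m'/m)(1 + v/m')`. -/
def StScl : Prop := ∀ (X θ : ℝ) (m m' : ℕ) (F : Finset (ℕ × ℕ)) (W : ℕ), 1 ≤ m → m ≤ m' →
  (Stt X m' θ F W → Stt X m θ F W) ∧
  (Stt X m θ F W → Stt (((m' : ℝ) / m) ^ 2 * X) m' θ F W)

/-! ## F. rounds and levels -/

/-- radius of the region without multiples of `2 ^ (i + 1)` needed for a round at the level `i` -/
def rho (K₀ i : ℕ) : ℕ := (i + 2) * (K₀ * (i + 1)) ^ 2

/-- rounds: at the level `i` the width decreases by `(K₀ (i+1))²` at the cost `K₁ (i+1)⁴` -/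
def Rnd (B : ℝ) (K₀ K₁ : ℕ) : Prop := ∀ (i : ℕ) (θ : ℝ) (F : Finset (ℕ × ℕ)) (W : ℕ), 6 ≤ i →
  Stt B K₀ θ F W → (∀ d : ℕ, d ≤ W + rho K₀ i → W ≤ d + rho K₀ i → ¬ 2 ^ (i + 1) ∣ d) →
  ∃ (n : ℕ) (θ' : ℝ) (F' : Finset (ℕ × ℕ)) (W' : ℕ), n ≤ K₁ * (i + 1) ^ 4 ∧ Goes n θ F θ' F' ∧
    Stt B K₀ θ' F' W' ∧ W' + (K₀ * (i + 1)) ^ 2 ≤ W

/-- **RND** (180 lines, from SCL). `m = K₀ (i+1)`, `T = m²`. (1) SCL: `Stt ((i+1)² B) m`, `(i+1)² ≤ 2^i` for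
`i ≥ 6`. (2) `i` times Prp (induction: after `j` blocks `Stt (max B (2^(i-j) B)) m`, width `≤ W + jT`): `Stt B m`,
width `≤ W + iT`. (3) Claim by induction on `N`: there are `n ≤ NT` and a state with `Stt B m`, and either
width `W₁ + T ≤ W` or `W₁ ≤ W + iT - N c₀ m`: if `W₁ + T > W` then no multiple of `2^(i+1)` is within `T` of `W₁`
(within `rho = (i+2)T` of `W`), and Blk applies (`16 (i+1) ≤ m` as `K₀ ≥ 16`). (4) `N = ⌈(i+1) m/c₀⌉ + 1`: then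
`N c₀ m > (i+1) T`, so the first alternative holds. Cost `iT + NT ≤ (i + 2 + (i+1)m/c₀) m² ≤ K₁ (i+1)⁴`,
for instance `K₁ = ⌈(3 + 1/c₀) K₀³⌉`. (5) SCL back to the scale `K₀`. -/
def StRnd : Prop := ∀ (B c₀ : ℝ) (m₀ K₀ : ℕ), 1 ≤ B → 0 < c₀ → Blk B c₀ m₀ → Prp B m₀ →
  m₀ ≤ K₀ → 16 ≤ K₀ → ∃ K₁ : ℕ, Rnd B K₀ K₁

/-- **LVL** (250 lines, elementary counting; may be split). `ρ i = rho K₀ i`, `T i = (K₀ (i+1))²`, `R i = ρ i + T i`.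
For `W ≥ W₀` the level `i = W` has no multiple of `2^(i+1)` within ... we need it only to see that the least
`i ≥ 6` without multiples of `2^(i+1)` (including `0`) within `ρ i` of `W` exists and satisfies `ρ i < W`: take the
least `j` with `2^(j+1) > W + ρ j`; for `W ≥ W₀`: `6 ≤ j ≤ W` and `ρ j < W`, so `j` has the property. `lev W` := the
least `i ≥ 6` with the property, `lev W ≤ j`. If `lev W = i ≥ 7`, then `i - 1` fails: there is a multiple `d` of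
`2^i` with `|d - W| ≤ ρ (i-1) ≤ ρ i < W`, so `d ≥ 1`.
Cost per unit: for `i ≤ N` let `S i = {d ≥ 1 : some multiple j 2^i, j ≥ 1, has |d - j 2^i| ≤ R i}`,
`κ d = 49 K₁ + Σ_{i ≤ N} K₁ (i+1)² [d ∈ S i]`, `Fc W = Σ_{1≤d≤W} κ d`.
Decrease: `W' + T i ≤ W`, `i = lev W`: the `T i` integers `d ∈ (W - T i, W]` have `κ d ≥ K₁ (i+1)²` (`i = 6`: the
first term; `i ≥ 7`: `|d - j 2^i| ≤ ρ i + T i = R i`), and `T i K₁ (i+1)² ≥ K₁ (i+1)⁴`.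
Bound: `#{d ≤ W : d ∈ S i} ≤ (2 R i + 1) (W + R i)/2^i` (`j 2^i ≤ W + R i`), so
`Fc W ≤ 49 K₁ W + Σ_i K₁ (i+1)² (2 R i + 1)(W + R i)/2^i ≤ K₂ (W+1)`: the series
`Σ (i+1)² (2 R i + 1)/2^i` and `Σ (i+1)² (2 R i + 1) R i/2^i` converge (`R i ≤ 3 K₀² (i+1)³`). -/
def StLvl : Prop := ∀ K₀ K₁ : ℕ, 1 ≤ K₀ → ∃ K₂ W₀ : ℕ, ∀ N : ℕ, ∃ lev Fc : ℕ → ℕ,
  (∀ W, Fc W ≤ K₂ * (W + 1)) ∧
  ∀ W, W₀ ≤ W → W ≤ N → 6 ≤ lev W ∧
    (∀ d : ℕ, d ≤ W + rho K₀ (lev W) → W ≤ d + rho K₀ (lev W) → ¬ 2 ^ (lev W + 1) ∣ d) ∧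
    ∀ W' : ℕ, W' + (K₀ * (lev W + 1)) ^ 2 ≤ W → Fc W' + K₁ * (lev W + 1) ^ 4 ≤ Fc W

/-- **PH1** (70 lines, from LVL, Rnd). `N = W`, strong induction on the width `W₁ ≤ W`: from `Stt B K₀ θ F W₁` one
reaches in at most `Fc W₁` digits a state of width `< W₀`: `W₁ < W₀`: nothing to do; otherwise one round at the
level `lev W₁`, `W₁' + T ≤ W₁`, then the induction hypothesis (`Goes.trans`). -/
def StPh1 : Prop := ∀ (B : ℝ) (K₀ K₁ : ℕ), 1 ≤ K₀ → Rnd B K₀ K₁ → ∃ K₂ W₀ : ℕ,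
  ∀ (θ : ℝ) (F : Finset (ℕ × ℕ)) (W : ℕ), Stt B K₀ θ F W →
  ∃ (n : ℕ) (θ' : ℝ) (F' : Finset (ℕ × ℕ)) (W' : ℕ), n ≤ K₂ * (W + 1) ∧ Goes n θ F θ' F' ∧
    Stt B K₀ θ' F' W' ∧ W' < W₀

/-- **PH2** (90 lines, from `sharp`). All `s ∈ F` have distance `≤ W₀` from the left end, so
`pw s * wt (W₀/K₀) ≤ B`: with `B₂ = B (1 + W₀/K₀)²` we get `|F| ≤ B₂` (`pw ≥ 1`) and `pw s ≤ B₂`, so
`√(up θ s) ≤ pw² ≤ B₂²`. Fix `a ∈ F`. `p n (pr a s) ≤ C (1 + W₀ + 2 B₂²)/√n`; choose `n` (depending on `B, K₀, W₀` only)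
with `B₂ C (1 + W₀ + 2B₂²)/√n < 1`. Then `Ek n (Σ_{s ∈ F} [rp a ≠ rp s]) < 1`, and a `k < 2^n` with the sum `< 1` has
all `rp s = rp a`. (If `B < 1` or so the hypothesis is contradictory; use `max`.) -/
def StPh2 : Prop := ∀ (B : ℝ) (K₀ W₀ : ℕ), 1 ≤ K₀ → ∃ n : ℕ,
  ∀ (θ : ℝ) (F : Finset (ℕ × ℕ)) (W : ℕ), Stt B K₀ θ F W → W < W₀ →
  ∃ (θ' : ℝ) (F' : Finset (ℕ × ℕ)), Goes n θ F θ' F' ∧ F'.card = 1

/-- **PH0** (150 lines, from `avF_Phi`, `card_le_Phi`, `wine_decay`, `wine_Ok`, `avF_Ek`). `F = F0 M (2^M)`, `θ = 0`,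
`t₀ = ⌈100 (1 + M + log (1 + 2^M))⌉ ≤ 300 (M+1)`: `avF t₀ Phi 0 F ≤ 1 + 211000 (M + t₀ + 1)`, so (`avF_Ek`,
`exists_le_of_Ek`) some `k < 2^(t₀)` has `Phi ≤` this number; `Ok (M + t₀)` for the new set, `card_le_Phi`;
`pw ≤ 1 + √u`, so `pot ≤ Σ pw ≤ card + Phi ≤ C₁ (M+1) ≤ 2^j B` with `j ≤ C₂ (M+1)`; exponents `≤ M + t₀`, so
`Stt (2^j B) K₀` with width `≤ M + t₀`. Then `j` times Prp at the scale `K₀` (`2^(j-1) B ≥ B`). -/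
def StPh0 : Prop := ∀ (B : ℝ) (m₀ K₀ : ℕ), 1 ≤ B → Prp B m₀ → m₀ ≤ K₀ → 1 ≤ K₀ → ∃ C : ℕ,
  ∀ M : ℕ, ∃ (n : ℕ) (θ' : ℝ) (F' : Finset (ℕ × ℕ)) (W' : ℕ), n ≤ C * (M + 1) ∧
    Goes n 0 (F0 M (2 ^ M)) θ' F' ∧ Stt B K₀ θ' F' W' ∧ W' ≤ C * (M + 1)

/-- **KEY** (60 lines): the window `F0 M (2^M)` can be merged by `n ≤ C (M+1)` digits. Compose MV, LB, OVS, PRP, BLK,
RND, PH0, PH1, PH2. (helper17) -/
def StKey : Prop := ∃ C : ℕ, ∀ M : ℕ, ∃ n ≤ C * (M + 1), ∃ k < 2 ^ n,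
  (runF n k (F0 M (2 ^ M))).card ≤ 1

/-! ## G. integers -/

/-- **NTA** (50 lines). `runF t b F = runF t r F` (`earn_period` or `runF_add_pow`), `earn_merged` for `b`, `V = 2M`,
`H = 4^M`; then as in `BadS2_subset` (EarS.lean). -/
def StNta : Prop := ∀ t r M q : ℕ, r < 2 ^ t →
  (runF t r (F0 (2 * M) (2 ^ (2 * M)))).card ≤ 1 →
  ∃ k : ℕ, 2 * M ≤ k ∧ k ≤ 2 * t ∧ ∀ u ≤ M, ∀ v ≤ M, ∀ h ≤ 2 ^ M,
    collatz^[k + u - v] (2 ^ u * 3 ^ v * (2 ^ t * q + r) + h) = collatz^[k] (2 ^ t * q + r)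

/-- **NTB** (60 lines). The proof of `base_good` (SyA.lean) with `n = 6^M (b + 2^M)`, `base M n = b`, `n / 6^M = b + 2^M`;
`sya_window`. -/
def StNtb : Prop := ∀ M b k : ℕ, 7 * M + 3 ≤ k → 1 ≤ b →
  (∀ u ≤ 7 * M + 3, ∀ v ≤ 7 * M + 3, ∀ h ≤ 2 ^ (7 * M + 3),
    collatz^[k + u - v] (2 ^ u * 3 ^ v * b + h) = collatz^[k] b) →
  collatz^[k] (6 ^ M * (b + 2 ^ M)) = collatz^[k] b ∧
  ∀ u v : ℤ, |u| ≤ M → |v| ≤ M → ∀ m : ℕ,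
    |(m : ℝ) - (2 : ℝ) ^ u * (3 : ℝ) ^ v * ((6 ^ M * (b + 2 ^ M) : ℕ) : ℝ)| ≤ 2 ^ M →
    collatz^[((k : ℤ) + u - v).toNat] m = collatz^[k] (6 ^ M * (b + 2 ^ M))

/-- **LOD** (200 lines, from `PR.level 1`, `UPD.uniform_density`; see RoughMinimum.lean for the imports). `B = P(a) =
{n | ∃ s, collatz^[s] n = a}`, `y = a`: for `n > a`: `n ∈ B ↔ collatz n ∈ B`. Let `δ ≥ c₁/a` be the natural density of
`P(a)` (`≥ (δ/2) x` elements `n`, `1 ≤ n ≤ x`, for `x ≥ x₁(a)`), `d = 3^e`, `x = 3^e Q + a₀`. Level with `A = 1`: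
`#{z ≤ x, z ∈ B, z ≡ a₀ mod 3^e} ≥ (δ/2) x/3^e - C x/(3^e log x) ≥ (δ/4) x/3^e ≥ (δ/4) Q` if `x ≥ x₂(a)`, `3^(eH) ≤ x`,
`(a+2)^H ≤ x`. The elements `z ≥ a₀` are `z = 3^e q + a₀`, `q ≤ Q`; those with `z < a₀` are at most `a₀ ≤ 4^t`; as
`16^t ≤ Q` (from `3^(3t) ≤ Q`; take `E = max H 3`) we have `4^t ≤ √Q ≤ (δ/8) Q` for `Q ≥ Q₀(a)`. So the number is
`≥ (δ/8) Q`, `c = c₁/8`. -/
def StLod : Prop := ∃ (E : ℕ) (c : ℝ), 0 < c ∧ ∀ a : ℕ, ¬ 3 ∣ a → ∃ Q₀ : ℕ, ∀ t e a₀ Q : ℕ,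
  e ≤ t → a₀ ≤ 4 ^ t → 3 ^ (t * E) ≤ Q → Q₀ ≤ Q →
  c / a * Q ≤ ({q : ℕ | q ≤ Q ∧ ∃ s, collatz^[s] (3 ^ e * q + a₀) = a}.ncard : ℝ)

/-- `n` lies in `P(a)`, and the whole window of size `M` merges within `C (M+1)` steps, before `a` is reached -/
def Good (C a M n : ℕ) : Prop := ∃ k : ℕ, 2 * M ≤ k ∧ k ≤ C * (M + 1) ∧
  (∃ s, collatz^[s] (collatz^[k] n) = a) ∧
  ∀ u v : ℤ, |u| ≤ M → |v| ≤ M → ∀ m : ℕ,
    |(m : ℝ) - (2 : ℝ) ^ u * (3 : ℝ) ^ v * n| ≤ 2 ^ M →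
    collatz^[((k : ℤ) + u - v).toNat] m = collatz^[k] n

/-- **CNT** (200 lines, from KEY, NTA, NTB, LOD). Given `M`, let `M' = 7M+3`; KEY for `2M'` gives `t ≤ C₁ (2M'+1)`,
`r < 2^t` with `runF t r (F0 (2M') (2^(2M')))` merged; `e = odds t r ≤ t`, `a₀ = short^[t] r ≤ 2^t r ≤ 4^t` (`wins_iter_le`).
`b = 2^t q + r`: `short^[t] b = 3^e q + a₀` (`short_iterate_add`), `collatz^[t + odds t b] b = short^[t] b`
(`short_eq_collatz`), so if `3^e q + a₀ ∈ P(a)` then `b ∈ P(a)`. By LOD at least `(c/a) Q` of the `q ≤ Q` have this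
property, at least `(c/a) Q - 1 ≥ (c/2a) Q` with `q ≥ 1`. `n = 6^M (b + 2^M)`; NTA, NTB: the windows merge at some
`k ≤ 2t`, with `collatz^[k] n = collatz^[k] b`. Is `a` reached from `collatz^[k] b`? `b ≥ 2^t q`, iterates:
`collatz^[j] b ≥ b/2^j`, so if `q > a 2^t`... then `b > a 2^k` (`k ≤ 2t`) and `a` is not among the first `k` iterates
of `b` (as in `syp_iff` in SyP.lean): the `q ≤ a 2^t` are at most `a 2^t + 1 ≤ (c/4a) Q` (`Q ≥ 3^(tE)`, `Q ≥ Q₀'(a)`;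
enlarge `E`). Different `q` give different `n ≤ x` if `6^M (2^t (Q+1) + 2^M) ≤ x`. Take
`Q = ⌊x/(6^M 2^(t+1) ..)⌋`: for `x ≥ x₀(a)` and `C (M+1) ≤ log x` (`C` large) we have `Q ≥ x exp (-C₂ (M+1))`,
`Q ≥ √x ≥ 3^(tE), Q₀`. -/
def StCnt : Prop := ∃ (C : ℕ) (c : ℝ), 0 < c ∧ ∀ a : ℕ, ¬ 3 ∣ a → ∃ x₀ : ℝ, ∀ (x : ℝ) (M : ℕ),
  x₀ ≤ x → (C : ℝ) * (M + 1) ≤ Real.log x →
  c / a * x * Real.exp (-(C * (M + 1))) ≤
    ({n : ℕ | 1 ≤ n ∧ (n : ℝ) ≤ x ∧ Good C a M n}.ncard : ℝ)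

end LIV
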