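import Mathlib
import Pool.Agent.LIV.St
import Pool.Agent.CMG.SyQ
import Pool.Agent.CMG.WinS

/-!
# EXTREMAL MERGING: counting the good integers
-/

set_option autoImplicit false

namespace LIV

open Pool.Agent.LibHelper3 CMG Finset

/-- the integer with index `q` -/
def cntN (M t r q : ℕ) : ℕ := 6 ^ M * (2 ^ t * q + r + 2 ^ M)

theorem cntN_inj (M t r : ℕ) : Function.Injective (cntN M t r) := by
  intro q q' h
  unfold cntN at h
  have h6 : 0 < 6 ^ M := by positivity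
  have h1 := Nat.eq_of_mul_eq_mul_left h6 h
  have h2 : 2 ^ t * q = 2 ^ t * q' := by omega
  exact Nat.eq_of_mul_eq_mul_left (by positivity) h2

theorem cntN_le (M t r q Q : ℕ) (hr : r < 2 ^ t) (hq : q ≤ Q) :
    cntN M t r q ≤ 12 ^ M * 2 ^ t * (Q + 2) := by
  unfold cntN
  have e1 : (12 : ℕ) ^ M = 6 ^ M * 2 ^ M := by
    rw [← mul_pow]
    norm_num
  rw [e1]
  have h1 : 1 ≤ 2 ^ M := Nat.one_le_two_pow
  have h2 : 1 ≤ 2 ^ t := Nat.one_le_two_pow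
  have h3 : 2 ^ t * q ≤ 2 ^ t * Q := Nat.mul_le_mul_left _ hq
  have h4 : 2 ^ t * q + r + 2 ^ M ≤ 2 ^ M * (2 ^ t * (Q + 2)) := by
    have h5 : 2 ^ t * q + r ≤ 2 ^ t * (Q + 1) := by
      rw [mul_add, mul_one]
      omega
    have h6 : 2 ^ t * (Q + 1) ≤ 2 ^ M * (2 ^ t * (Q + 1)) := Nat.le_mul_of_pos_left _ h1
    have h7 : 2 ^ M ≤ 2 ^ M * 2 ^ t := Nat.le_mul_of_pos_right _ h2
    have h8 : 2 ^ M * (2 ^ t * (Q + 2)) = 2 ^ M * (2 ^ t * (Q + 1)) + 2 ^ M * 2 ^ t := by ring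
    omega
  calc 6 ^ M * (2 ^ t * q + r + 2 ^ M) ≤ 6 ^ M * (2 ^ M * (2 ^ t * (Q + 2))) :=
        Nat.mul_le_mul_left _ h4
    _ = 6 ^ M * 2 ^ M * 2 ^ t * (Q + 2) := by ring

theorem cnt_good (hA : StNta) (hB : StNtb) {a M t r q C : ℕ} (hr : r < 2 ^ t)
    (hc : (runF t r (F0 (2 * (7 * M + 3)) (2 ^ (2 * (7 * M + 3))))).card ≤ 1)
    (hC : 2 * t ≤ C * (M + 1)) (hq : a * 2 ^ t < q)
    (hP : ∃ s, collatz^[s] (3 ^ odds t r * q + short^[t] r) = a) :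
    Good C a M (cntN M t r q) := by
  obtain ⟨k, hk1, hk2, hk3⟩ := hA t r (7 * M + 3) q hr hc
  obtain ⟨e1, e2⟩ := short_iterate_add t q r
  obtain ⟨b, hb⟩ : ∃ b, b = 2 ^ t * q + r := ⟨_, rfl⟩
  rw [← hb] at hk3 e1 e2
  have hbq : 2 ^ t * q ≤ b := by omega
  have hbk : a * 2 ^ k < b := by
    have h1 : a * 2 ^ k ≤ a * (2 ^ t * 2 ^ t) := by
      apply Nat.mul_le_mul_left
      rw [← pow_add]
      exact Nat.pow_le_pow_right (by norm_num) (by omega)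
    have h2 : a * (2 ^ t * 2 ^ t) = 2 ^ t * (a * 2 ^ t) := by ring
    have h3 : 2 ^ t * (a * 2 ^ t) < 2 ^ t * q :=
      Nat.mul_lt_mul_of_pos_left hq (by positivity)
    omega
  have hb1 : 1 ≤ b := by omega
  obtain ⟨f1, f2⟩ := hB M b k (by omega) hb1 hk3
  have hn : cntN M t r q = 6 ^ M * (b + 2 ^ M) := by
    unfold cntN
    rw [hb]
  rw [hn]
  obtain ⟨s, hs⟩ := hP
  have hs' : collatz^[s + (t + odds t b)] b = a := by
    rw [Function.iterate_add_apply, ← short_eq_collatz, e1, hs]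
  have hlt := shp_later hbk hs'
  refine ⟨k, by omega, by omega, ⟨s + (t + odds t b) - k, ?_⟩, f2⟩
  rw [f1, ← Function.iterate_add_apply, Nat.sub_add_cancel hlt.le, hs']

/-- the real inequalities -/
theorem cnt_real {C₂ C₃ y L : ℝ} (hy : 1 ≤ y) (hL : 2 * (C₂ + 2 + C₃) * y ≤ L) :
    L / 2 + C₃ * y ≤ L - C₂ * y - 2 := by
  nlinarith

theorem cnt_real2 {C₂ C₃ y : ℝ} (hy : 1 ≤ y) (hC₂ : 0 ≤ C₂) (hC₃ : 0 ≤ C₃) :
    C₂ * y + 4 ≤ 2 * (C₂ + 2 + C₃) * y := by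
  have h1 : 0 ≤ C₂ * y := by positivity
  have h2 : 0 ≤ C₃ * y := by positivity
  nlinarith

theorem cnt_real3 {M t C₁ y l : ℝ} (hM : 0 ≤ M) (hMy : M ≤ y) (ht0 : 0 ≤ t)
    (ht : t ≤ 14 * C₁ * y) (hl : l ≤ 3) {l' : ℝ} (hl' : l' ≤ 1) :
    M * l + t * l' ≤ (14 * C₁ + 3) * y := by
  have e1 : M * l ≤ M * 3 := mul_le_mul_of_nonneg_left hl hM
  have e2 : t * l' ≤ t * 1 := mul_le_mul_of_nonneg_left hl' ht0
  linarith

theorem cnt_real4 {t E C₁ y l : ℝ} (ht0 : 0 ≤ t) (hE : 0 ≤ E) (hCy : 0 ≤ C₁ * y)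
    (ht : t ≤ 14 * C₁ * y) (hl : l ≤ 2) : t * E * l ≤ 28 * C₁ * (E + 1) * y := by
  have e1 : t * E * l ≤ t * E * 2 := mul_le_mul_of_nonneg_left hl (by positivity)
  have e2 : t * E ≤ 14 * C₁ * y * E := mul_le_mul_of_nonneg_right ht hE
  linarith

theorem cnt_real5 {t E C₁ y l : ℝ} (ht0 : 0 ≤ t) (hE : 0 ≤ E) (hCy : 0 ≤ C₁ * y)
    (ht : t ≤ 14 * C₁ * y) (hl : l ≤ 1) : t * l ≤ 28 * C₁ * (E + 1) * y := by
  have e1 : t * l ≤ t * 1 := mul_le_mul_of_nonneg_left hl ht0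
  have e2 : 0 ≤ C₁ * y * E := mul_nonneg hCy hE
  linarith

theorem cnt_logs : Real.log 2 ≤ 1 ∧ Real.log 3 ≤ 2 ∧ Real.log 12 ≤ 3 ∧
    (16 : ℝ) ≤ Real.exp 4 := by
  have e1 := Real.exp_one_gt_d9
  refine ⟨by have := Real.log_two_lt_d9; linarith, ?_, ?_, ?_⟩
  · rw [Real.log_le_iff_le_exp (by norm_num)]
    have e2 : Real.exp 2 = Real.exp 1 * Real.exp 1 := by
      rw [← Real.exp_add]
      norm_num
    rw [e2]
    nlinarith
  · rw [Real.log_le_iff_le_exp (by norm_num)]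
    have e2 : Real.exp 3 = Real.exp 1 * Real.exp 1 * Real.exp 1 := by
      rw [← Real.exp_add, ← Real.exp_add]
      norm_num
    rw [e2]
    have e3 : (7 : ℝ) ≤ Real.exp 1 * Real.exp 1 := by nlinarith
    nlinarith
  · have e2 : Real.exp 4 = (Real.exp 1 * Real.exp 1) * (Real.exp 1 * Real.exp 1) := by
      rw [← Real.exp_add, ← Real.exp_add]
      norm_num
    have e3 : (4 : ℝ) ≤ Real.exp 1 * Real.exp 1 := by nlinarith
    rw [e2]
    nlinarith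

theorem cnt_real6 {a e z : ℝ} (ha : 0 ≤ a) (hz : z ≤ e) (he : 1 ≤ e) :
    a * z + 1 ≤ (a + 1) * e := by
  have := mul_le_mul_of_nonneg_left hz ha
  linarith

theorem cnt (hK : StKey) (hA : StNta) (hB : StNtb) (hL : StLod) : StCnt := by
  obtain ⟨C₁, hK⟩ := hK
  obtain ⟨E, c₀, hc₀, hL⟩ := hL
  obtain ⟨C, hC⟩ : ∃ C : ℕ, C = 2 * ((14 * C₁ + 3) + 2 + 28 * C₁ * (E + 1)) := ⟨_, rfl⟩
  refine ⟨C, c₀ / 4, by positivity, fun a ha => ?_⟩
  obtain ⟨Q₀, hL⟩ := hL a ha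
  have ha1 : 1 ≤ a := by
    by_contra hc
    exact ha (by rw [show a = 0 by omega]; exact dvd_zero 3)
  have ha0 : (0 : ℝ) < a := by exact_mod_cast ha1
  obtain ⟨x₀, hx₀⟩ : ∃ x₀ : ℝ, x₀ = 1 + (Q₀ : ℝ) ^ 2 + (2 * a * (a + 1) / c₀) ^ 2 := ⟨_, rfl⟩
  refine ⟨x₀, fun x M hx hCM => ?_⟩
  have hx1 : 1 ≤ x := by
    have h1 : 0 ≤ (Q₀ : ℝ) ^ 2 := by positivity
    have h2 : 0 ≤ (2 * a * (a + 1) / c₀) ^ 2 := by positivity
    linarith
  have hx0 : 0 < x := by linarith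
  have hsx1 : (Q₀ : ℝ) ≤ Real.sqrt x := by
    apply Real.le_sqrt_of_sq_le
    have h2 : 0 ≤ (2 * a * (a + 1) / c₀) ^ 2 := by positivity
    linarith
  have hsx2 : 2 * a * (a + 1) / c₀ ≤ Real.sqrt x := by
    apply Real.le_sqrt_of_sq_le
    have h2 : 0 ≤ (Q₀ : ℝ) ^ 2 := by positivity
    linarith
  obtain ⟨t, ht, r, hr, hcard⟩ := hK (2 * (7 * M + 3))
  obtain ⟨y, hy⟩ : ∃ y : ℝ, y = (M : ℝ) + 1 := ⟨_, rfl⟩
  have hM0 : (0 : ℝ) ≤ M := Nat.cast_nonneg M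
  have hy1 : 1 ≤ y := by rw [hy]; linarith
  have htM : t ≤ 14 * C₁ * (M + 1) := by
    refine ht.trans ?_
    have : 2 * (7 * M + 3) + 1 ≤ 14 * (M + 1) := by omega
    calc C₁ * (2 * (7 * M + 3) + 1) ≤ C₁ * (14 * (M + 1)) := Nat.mul_le_mul_left _ this
      _ = 14 * C₁ * (M + 1) := by ring
  have hty : (t : ℝ) ≤ 14 * C₁ * y := by
    rw [hy]
    exact_mod_cast htM
  obtain ⟨C₂, hC₂⟩ : ∃ C₂ : ℝ, C₂ = 14 * (C₁ : ℝ) + 3 := ⟨_, rfl⟩
  obtain ⟨C₃, hC₃⟩ : ∃ C₃ : ℝ, C₃ = 28 * (C₁ : ℝ) * (E + 1) := ⟨_, rfl⟩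
  have hC₁0 : (0 : ℝ) ≤ C₁ := Nat.cast_nonneg C₁
  have hE0 : (0 : ℝ) ≤ E := Nat.cast_nonneg E
  have hC₂0 : 0 ≤ C₂ := by rw [hC₂]; positivity
  have hC₃0 : 0 ≤ C₃ := by rw [hC₃]; positivity
  have hCr : (C : ℝ) = 2 * (C₂ + 2 + C₃) := by rw [hC, hC₂, hC₃]; push_cast; ring
  have hLy : 2 * (C₂ + 2 + C₃) * y ≤ Real.log x := by rw [← hCr, hy]; exact hCM
  -- the modulus
  obtain ⟨D, hD⟩ : ∃ D : ℕ, D = 12 ^ M * 2 ^ t := ⟨_, rfl⟩
  have hD0 : 0 < D := by rw [hD]; positivity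
  have hD1 : (1 : ℝ) ≤ D := by exact_mod_cast hD0
  obtain ⟨hlog2, hlog3, hlog12, hexp4⟩ := cnt_logs
  have hDexp : (D : ℝ) ≤ Real.exp (C₂ * y) := by
    rw [← Real.log_le_iff_le_exp (by positivity), hD]
    push_cast
    rw [Real.log_mul (by positivity) (by positivity), Real.log_pow, Real.log_pow, hC₂]
    exact cnt_real3 hM0 (by rw [hy]; linarith) (Nat.cast_nonneg t) hty hlog12 hlog2
  obtain ⟨Q, hQ⟩ : ∃ Q : ℕ, Q = ⌊x / D⌋₊ - 2 := ⟨_, rfl⟩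
  have hreal := cnt_real hy1 hLy
  have hxexp : x = Real.exp (Real.log x) := (Real.exp_log hx0).symm
  have hxD : Real.exp (Real.log x - C₂ * y) ≤ x / D := by
    rw [le_div_iff₀ (by positivity)]
    calc Real.exp (Real.log x - C₂ * y) * D ≤
        Real.exp (Real.log x - C₂ * y) * Real.exp (C₂ * y) :=
          mul_le_mul_of_nonneg_left hDexp (Real.exp_pos _).le
      _ = x := by rw [← Real.exp_add, sub_add_cancel, Real.exp_log hx0]
  have hxD4 : Real.exp 4 ≤ x / D := by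
    refine le_trans (Real.exp_le_exp.mpr ?_) hxD
    have h1 := cnt_real2 hy1 hC₂0 hC₃0
    linarith
  have hQfl : (Q : ℝ) = (⌊x / D⌋₊ : ℝ) - 2 := by
    have h1 : 2 ≤ ⌊x / D⌋₊ := Nat.le_floor (by push_cast; linarith)
    rw [hQ, Nat.cast_sub h1]
    push_cast
    ring
  have hQ1 : x / D / 2 ≤ Q := by
    have h1 := Nat.lt_floor_add_one (x / D)
    rw [hQfl]
    linarith
  have hQ2 : (D : ℝ) * (Q + 2) ≤ x := by
    have h1 : ((⌊x / D⌋₊ : ℕ) : ℝ) ≤ x / D := Nat.floor_le (by positivity)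
    rw [hQfl]
    calc (D : ℝ) * ((⌊x / D⌋₊ : ℝ) - 2 + 2) = D * (⌊x / D⌋₊ : ℝ) := by ring
      _ ≤ D * (x / D) := mul_le_mul_of_nonneg_left h1 (by positivity)
      _ = x := by field_simp
  -- `Q ≥ √x exp (C₃ y)`
  have hQ3 : Real.sqrt x * Real.exp (C₃ * y) ≤ Q := by
    refine le_trans ?_ hQ1
    have h1 : Real.sqrt x = Real.exp (Real.log x / 2) := by
      rw [Real.sqrt_eq_rpow, Real.rpow_def_of_pos hx0]
      congr 1
      ring
    rw [h1, ← Real.exp_add, le_div_iff₀ (by norm_num : (0 : ℝ) < 2)]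
    have h2 : Real.exp (Real.log x / 2 + C₃ * y) ≤ Real.exp (Real.log x - C₂ * y - 2) :=
      Real.exp_le_exp.mpr hreal
    have h3 : Real.exp (Real.log x - C₂ * y - 2) * 2 ≤ Real.exp (Real.log x - C₂ * y) := by
      rw [Real.exp_sub _ 2]
      have h4 : (2 : ℝ) ≤ Real.exp 2 := by
        have := Real.add_one_le_exp (2 : ℝ)
        linarith
      rw [div_mul_eq_mul_div, div_le_iff₀ (Real.exp_pos 2)]
      exact mul_le_mul_of_nonneg_left h4 (Real.exp_pos _).le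
    calc Real.exp (Real.log x / 2 + C₃ * y) * 2 ≤ Real.exp (Real.log x - C₂ * y - 2) * 2 :=
          mul_le_mul_of_nonneg_right h2 (by norm_num)
      _ ≤ x / D := h3.trans hxD
  have hs1 : 1 ≤ Real.sqrt x := by rw [Real.one_le_sqrt]; exact hx1
  have he1 : 1 ≤ Real.exp (C₃ * y) := Real.one_le_exp (by positivity)
  have hQ0' : Q₀ ≤ Q := by
    have : (Q₀ : ℝ) ≤ Q :=
      (hsx1.trans (le_mul_of_one_le_right (Real.sqrt_nonneg x) he1)).trans hQ3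
    exact_mod_cast this
  have h3E : ((3 ^ (t * E) : ℕ) : ℝ) ≤ Real.exp (C₃ * y) := by
    rw [← Real.log_le_iff_le_exp (by positivity)]
    push_cast
    rw [Real.log_pow, hC₃]
    push_cast
    exact cnt_real4 (Nat.cast_nonneg t) hE0 (by positivity) hty hlog3
  have h2t : ((2 ^ t : ℕ) : ℝ) ≤ Real.exp (C₃ * y) := by
    rw [← Real.log_le_iff_le_exp (by positivity)]
    push_cast
    rw [Real.log_pow, hC₃]
    exact cnt_real5 (Nat.cast_nonneg t) hE0 (by positivity) hty hlog2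
  have h3Q : 3 ^ (t * E) ≤ Q := by
    have : ((3 ^ (t * E) : ℕ) : ℝ) ≤ Q := by
      exact h3E.trans ((le_mul_of_one_le_left (Real.exp_pos _).le hs1).trans hQ3)
    exact_mod_cast this
  have ha₀ : short^[t] r ≤ 4 ^ t := by
    calc short^[t] r ≤ 2 ^ t * r := wins_iter_le t r
      _ ≤ 2 ^ t * 2 ^ t := Nat.mul_le_mul_left _ hr.le
      _ = 4 ^ t := by rw [← mul_pow]; norm_num
  have hlod := hL t (odds t r) (short^[t] r) Q (odds_le t r) ha₀ h3Q hQ0'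
  set S : Set ℕ := {q : ℕ | q ≤ Q ∧ ∃ s, collatz^[s] (3 ^ odds t r * q + short^[t] r) = a}
    with hS
  set S' : Set ℕ := {q : ℕ | q ∈ S ∧ a * 2 ^ t < q} with hS'
  set G : Set ℕ := {n : ℕ | 1 ≤ n ∧ (n : ℝ) ≤ x ∧ Good C a M n} with hG
  have hSfin : S.Finite := (Set.finite_Iic Q).subset fun q hq => hq.1
  have hGfin : G.Finite := (Set.finite_Iic ⌊x⌋₊).subset fun n hn => Nat.le_floor hn.2.1
  have hsplit : S ⊆ S' ∪ (range (a * 2 ^ t + 1) : Set ℕ) := by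
    intro q hq
    by_cases h : a * 2 ^ t < q
    · exact Or.inl ⟨hq, h⟩
    · right
      rw [coe_range, Set.mem_Iio]
      omega
  have hS'fin : S'.Finite := hSfin.subset fun q hq => hq.1
  have hcS : S.ncard ≤ S'.ncard + (a * 2 ^ t + 1) := by
    refine (Set.ncard_le_ncard hsplit (hS'fin.union (finite_toSet _))).trans ?_
    refine (Set.ncard_union_le _ _).trans ?_
    rw [Set.ncard_coe_finset, card_range]
  have hmap : ∀ q ∈ S', cntN M t r q ∈ G := by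
    rintro q ⟨⟨q1, q2⟩, q3⟩
    refine ⟨?_, ?_, ?_⟩
    · unfold cntN
      have h1 : 0 < 6 ^ M * (2 ^ t * q + r + 2 ^ M) := by positivity
      exact h1
    · have h1 := cntN_le M t r q Q hr q1
      rw [← hD] at h1
      have h2 : (cntN M t r q : ℝ) ≤ D * (Q + 2) := by exact_mod_cast h1
      exact h2.trans hQ2
    · refine cnt_good hA hB hr hcard ?_ q3 q2
      rw [hC]
      calc 2 * t ≤ 2 * (14 * C₁ * (M + 1)) := Nat.mul_le_mul_left _ htM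
        _ = 2 * (14 * C₁) * (M + 1) := by ring
        _ ≤ 2 * ((14 * C₁ + 3) + 2 + 28 * C₁ * (E + 1)) * (M + 1) := by
          apply Nat.mul_le_mul_right
          apply Nat.mul_le_mul_left
          omega
  have hcG : S'.ncard ≤ G.ncard :=
    Set.ncard_le_ncard_of_injOn (cntN M t r) hmap ((cntN_inj M t r).injOn) hGfin
  have hfin1 : c₀ / a * Q - ((a : ℝ) * ((2 ^ t : ℕ) : ℝ) + 1) ≤ G.ncard := by
    have h1 : (S.ncard : ℝ) ≤ G.ncard + ((a : ℝ) * ((2 ^ t : ℕ) : ℝ) + 1) := by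
      have : S.ncard ≤ G.ncard + (a * 2 ^ t + 1) := by omega
      exact_mod_cast this
    linarith
  have hfin2 : (a : ℝ) * ((2 ^ t : ℕ) : ℝ) + 1 ≤ c₀ / (2 * a) * Q := by
    have h1 : (a : ℝ) * ((2 ^ t : ℕ) : ℝ) + 1 ≤ (a + 1) * Real.exp (C₃ * y) :=
      cnt_real6 ha0.le h2t he1
    have h2 : (a + 1 : ℝ) ≤ c₀ / (2 * a) * Real.sqrt x := by
      rw [div_le_iff₀ hc₀] at hsx2
      rw [div_mul_eq_mul_div, le_div_iff₀ (by positivity)]
      linarith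
    calc (a : ℝ) * ((2 ^ t : ℕ) : ℝ) + 1 ≤ (a + 1) * Real.exp (C₃ * y) := h1
      _ ≤ c₀ / (2 * a) * Real.sqrt x * Real.exp (C₃ * y) :=
        mul_le_mul_of_nonneg_right h2 (Real.exp_pos _).le
      _ = c₀ / (2 * a) * (Real.sqrt x * Real.exp (C₃ * y)) := by ring
      _ ≤ c₀ / (2 * a) * Q := mul_le_mul_of_nonneg_left hQ3 (by positivity)
  have hfin3 : c₀ / (2 * a) * Q ≤ G.ncard := by
    have h1 : c₀ / a * (Q : ℝ) = 2 * (c₀ / (2 * a) * Q) := by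
      field_simp
    linarith
  refine le_trans ?_ hfin3
  have h1 : x * Real.exp (-((C : ℝ) * ((M : ℝ) + 1))) ≤ x / D := by
    rw [le_div_iff₀ (by positivity)]
    have h2 : Real.exp (-((C : ℝ) * ((M : ℝ) + 1))) * D ≤ 1 := by
      calc Real.exp (-((C : ℝ) * ((M : ℝ) + 1))) * D ≤
          Real.exp (-((C : ℝ) * ((M : ℝ) + 1))) * Real.exp (C₂ * y) :=
            mul_le_mul_of_nonneg_left hDexp (Real.exp_pos _).le
        _ = Real.exp (-((C : ℝ) * ((M : ℝ) + 1)) + C₂ * y) := (Real.exp_add _ _).symm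
        _ ≤ 1 := by
          rw [Real.exp_le_one_iff, ← hy, hCr]
          have := cnt_real2 hy1 hC₂0 hC₃0
          linarith
    calc x * Real.exp (-((C : ℝ) * ((M : ℝ) + 1))) * D =
        x * (Real.exp (-((C : ℝ) * ((M : ℝ) + 1))) * D) := by ring
      _ ≤ x * 1 := mul_le_mul_of_nonneg_left h2 hx0.le
      _ = x := mul_one x
  calc c₀ / 4 / a * x * Real.exp (-((C : ℝ) * ((M : ℝ) + 1))) =
      c₀ / (2 * a) * (x * Real.exp (-((C : ℝ) * ((M : ℝ) + 1))) / 2) := by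
        field_simp
        ring
    _ ≤ c₀ / (2 * a) * (x / D / 2) := by
        apply mul_le_mul_of_nonneg_left _ (by positivity)
        linarith
    _ ≤ c₀ / (2 * a) * Q := mul_le_mul_of_nonneg_left hQ1 (by positivity)

end LIV
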