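import Pool.Agent.LIV.St

/-!
# FAR: far walkers are not overtaken   (helper96)
-/

set_option autoImplicit false

namespace LIV

open Pool.Agent.LibHelper3 CMG Finset

/-- exponential weight of the difference of the exponents -/
noncomputable def far_E (μ : ℝ) (s : St) : ℝ := Real.exp (μ * ((s.e : ℝ) - s.f))

theorem far_step (μ : ℝ) (s : St) :
    (far_E μ (step 0 s) + far_E μ (step 1 s)) / 2 ≤ Real.exp (μ ^ 2 / 2) * far_E μ s := by
  have h1 := vx_mod s 0
  have h2 := vy_mod s 0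
  have h3 := vx_mod s 1
  have h4 := vy_mod s 1
  have hE : 0 < far_E μ s := Real.exp_pos _
  have hc := Real.cosh_le_exp_half_sq μ
  have hc1 : 1 ≤ Real.exp (μ ^ 2 / 2) := Real.one_le_exp (by positivity)
  have e0 : far_E μ (step 0 s) = Real.exp (μ * (((s.e + vx s 0 % 2 : ℕ) : ℝ) -
      ((s.f + vy s 0 % 2 : ℕ) : ℝ))) := rfl
  have e1 : far_E μ (step 1 s) = Real.exp (μ * (((s.e + vx s 1 % 2 : ℕ) : ℝ) -
      ((s.f + vy s 1 % 2 : ℕ) : ℝ))) := rfl
  have hs : far_E μ s = Real.exp (μ * ((s.e : ℝ) - s.f)) := rfl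
  have hcosh : Real.exp (μ * ((s.e : ℝ) - s.f + 1)) + Real.exp (μ * ((s.e : ℝ) - s.f - 1)) ≤
      2 * (Real.exp (μ ^ 2 / 2) * far_E μ s) := by
    rw [hs]
    have a1 : Real.exp (μ * ((s.e : ℝ) - s.f + 1)) =
        Real.exp (μ * ((s.e : ℝ) - s.f)) * Real.exp μ := by
      rw [← Real.exp_add]; ring_nf
    have a2 : Real.exp (μ * ((s.e : ℝ) - s.f - 1)) =
        Real.exp (μ * ((s.e : ℝ) - s.f)) * Real.exp (-μ) := by
      rw [← Real.exp_add]; ring_nf
    rw [a1, a2, ← mul_add]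
    rw [Real.cosh_eq] at hc
    have a3 : Real.exp μ + Real.exp (-μ) ≤ 2 * Real.exp (μ ^ 2 / 2) := by linarith
    have a4 := mul_le_mul_of_nonneg_left a3 (Real.exp_pos (μ * ((s.e : ℝ) - s.f))).le
    linarith
  rcases Nat.mod_two_eq_zero_or_one s.a with ha | ha <;>
    rcases Nat.mod_two_eq_zero_or_one s.b with hb | hb
  · have b1 : vx s 0 % 2 = 0 := by omega
    have b2 : vy s 0 % 2 = 0 := by omega
    have b3 : vx s 1 % 2 = 1 := by omega
    have b4 : vy s 1 % 2 = 1 := by omega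
    rw [b1, b2] at e0
    rw [b3, b4] at e1
    have c0 : far_E μ (step 0 s) = far_E μ s := by
      rw [e0, hs]; congr 1
    have c1 : far_E μ (step 1 s) = far_E μ s := by
      rw [e1, hs]; congr 1; push_cast; ring
    rw [c0, c1]
    nlinarith
  · have b1 : vx s 0 % 2 = 0 := by omega
    have b2 : vy s 0 % 2 = 1 := by omega
    have b3 : vx s 1 % 2 = 1 := by omega
    have b4 : vy s 1 % 2 = 0 := by omega
    rw [b1, b2] at e0
    rw [b3, b4] at e1
    have c0 : far_E μ (step 0 s) = Real.exp (μ * ((s.e : ℝ) - s.f - 1)) := by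
      rw [e0]; congr 1; push_cast; ring
    have c1 : far_E μ (step 1 s) = Real.exp (μ * ((s.e : ℝ) - s.f + 1)) := by
      rw [e1]; congr 1; push_cast; ring
    rw [c0, c1]
    linarith
  · have b1 : vx s 0 % 2 = 1 := by omega
    have b2 : vy s 0 % 2 = 0 := by omega
    have b3 : vx s 1 % 2 = 0 := by omega
    have b4 : vy s 1 % 2 = 1 := by omega
    rw [b1, b2] at e0
    rw [b3, b4] at e1
    have c0 : far_E μ (step 0 s) = Real.exp (μ * ((s.e : ℝ) - s.f + 1)) := by
      rw [e0]; congr 1; push_cast; ring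
    have c1 : far_E μ (step 1 s) = Real.exp (μ * ((s.e : ℝ) - s.f - 1)) := by
      rw [e1]; congr 1; push_cast; ring
    rw [c0, c1]
    linarith
  · have b1 : vx s 0 % 2 = 1 := by omega
    have b2 : vy s 0 % 2 = 1 := by omega
    have b3 : vx s 1 % 2 = 0 := by omega
    have b4 : vy s 1 % 2 = 0 := by omega
    rw [b1, b2] at e0
    rw [b3, b4] at e1
    have c0 : far_E μ (step 0 s) = far_E μ s := by
      rw [e0, hs]; congr 1; push_cast; ring
    have c1 : far_E μ (step 1 s) = far_E μ s := by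
      rw [e1, hs]; congr 1
    rw [c0, c1]
    nlinarith

theorem far_av (μ : ℝ) (t : ℕ) : ∀ s : St,
    av t (far_E μ) s ≤ Real.exp (μ ^ 2 / 2) ^ t * far_E μ s := by
  induction t with
  | zero => intro s; rw [av_zero, pow_zero, one_mul]
  | succ t ih =>
    intro s
    rw [av_succ, pow_succ]
    have h0 := ih (step 0 s)
    have h1 := ih (step 1 s)
    have h2 := mul_le_mul_of_nonneg_left (far_step μ s)
      (pow_nonneg (Real.exp_pos (μ ^ 2 / 2)).le t)
    nlinarith

theorem far_max {m : ℝ} (hm : 0 < m) (z : ℝ) :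
    max 0 z ≤ m / 3 * Real.exp (3 / m * z) := by
  apply max_le
  · positivity
  · have h1 := Real.add_one_le_exp (3 / m * z)
    have h2 : m / 3 * (3 / m * z) = z := by field_simp
    have h3 : m / 3 * (3 / m * z) ≤ m / 3 * Real.exp (3 / m * z) :=
      mul_le_mul_of_nonneg_left (by linarith) (by positivity)
    linarith

theorem far : StFar := by
  intro m s s' hm
  have hm0 : (0 : ℝ) < m := by exact_mod_cast hm
  have h1 : Ek (m ^ 2) (fun k => max 0 (((rp (m ^ 2) k s).1 : ℝ) - (rp (m ^ 2) k s').1)) ≤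
      Ek (m ^ 2) (fun k => (m : ℝ) / 3 *
        far_E (3 / m) (pr (rp (m ^ 2) k s) (rp (m ^ 2) k s'))) :=
    Ek_mono fun k _ => far_max hm0 _
  rw [Ek_mul, Ek_pair] at h1
  have h2 := far_av (3 / m) (m ^ 2) (pr s s')
  have h3 : Real.exp ((3 / (m : ℝ)) ^ 2 / 2) ^ (m ^ 2) = Real.exp (9 / 2) := by
    rw [← Real.exp_nat_mul]
    congr 1
    push_cast
    field_simp
    ring
  rw [h3] at h2
  have h4 : far_E (3 / m) (pr s s') = Real.exp (3 / m * ((s.1 : ℝ) - s'.1)) := rfl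
  rw [h4, ← Real.exp_add] at h2
  have h5 : Real.exp (9 / 2 + 3 / m * ((s.1 : ℝ) - s'.1)) ≤
      Real.exp (5 - 3 * ((s'.1 : ℝ) - s.1) / m) := by
    apply Real.exp_le_exp.2
    have : 3 / (m : ℝ) * ((s.1 : ℝ) - s'.1) = - (3 * ((s'.1 : ℝ) - s.1) / m) := by
      field_simp
      ring
    rw [this]
    linarith
  have h6 : 0 < Real.exp (5 - 3 * ((s'.1 : ℝ) - s.1) / m) := Real.exp_pos _
  calc _ ≤ (m : ℝ) / 3 * av (m ^ 2) (far_E (3 / m)) (pr s s') := h1
    _ ≤ (m : ℝ) / 3 * Real.exp (5 - 3 * ((s'.1 : ℝ) - s.1) / m) :=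
        mul_le_mul_of_nonneg_left (h2.trans h5) (by positivity)
    _ ≤ m * Real.exp (5 - 3 * ((s'.1 : ℝ) - s.1) / m) :=
        mul_le_mul_of_nonneg_right (by linarith) h6.le

end LIV
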