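import Mathlib
import Pool.Agent.LIV.St
import Pool.Agent.CMG.SyA
import Pool.Agent.CMG.SyQ

/-!
# EXTREMAL MERGING: the final form
-/

set_option autoImplicit false

namespace LIV

open Pool.Agent.LibHelper3 CMG Finset Filter Topology

/-- **FIN** (200 lines, from CNT; `BadT` in SyA.lean, `WindowZ` in SyP.lean). Given `ε` (WLOG `ε ≤ 1/2`: replace `ε` by
`min ε (1/2)`; `BadT x ε' M ⊇ BadT x ε M` for `ε' ≤ ε`). `C`, `c₁` from CNT, `C ≥ 1`. `c = ε/(16 C)`.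
`L = log x`, `M = ⌈2 c L⌉₊`, so `C (M + 1) ≤ C (2cL + 2) ≤ (ε/2) L` for `x` large, and `exp (-C (M+1)) ≥ x^(-ε/2)`,
`(c₁/a) x^(1-ε/2) ≥ x^(1-ε)`. Let `1 ≤ n ≤ x`, `Good C a M n` with `k`.
`n ∉ BadT x ε ⌊cL⌋₊`: `⌊cL⌋₊ ≤ M`, same `k`: `2 ⌊cL⌋₊ ≤ 2M ≤ k ≤ C (M+1) ≤ ε L`; the windows are smaller.
`m ∈ WindowZ (c log n) n`: `|u|, |v| ≤ c log n ≤ M`, `exp (c log n) ≤ 2^M` (`syp_exp`), so
`collatz^[(k+u-v).toNat] m = collatz^[k] n`, which lies in `P(a)`.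
Equivalence: `→`: `m = n` (`syp_self`). `←`: by contradiction `cons_root` gives `a`, `3 ∤ a`, which does not reach `1`;
by the first part (`x^(1-ε) → ∞`) there are arbitrarily large `n` with `WindowZ (c log n) n ⊆ P(a)`, whose elements do
not reach `1` (`cons_pred`). -/
def StFin : Prop := ∀ ε : ℝ, 0 < ε → ∃ c : ℝ, 0 < c ∧
  (∀ a : ℕ, ¬ 3 ∣ a → ∀ᶠ x : ℕ in atTop, (x : ℝ) ^ (1 - ε) ≤
    ({n : ℕ | 1 ≤ n ∧ n ≤ x ∧ n ∉ BadT x ε ⌊c * Real.log x⌋₊ ∧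
      ∀ m ∈ WindowZ (c * Real.log n) n, ∃ s, collatz^[s] m = a}.ncard : ℝ)) ∧
  ((∀ n : ℕ, 1 ≤ n → ∃ k, collatz^[k] n = 1) ↔
    ∀ᶠ n : ℕ in atTop, ∃ m ∈ WindowZ (c * Real.log n) n, ∃ k, collatz^[k] m = 1)

end LIV
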