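import Mathlib
import Pool.Agent.LIV.StF
import Pool.Agent.CMG.Cons

/-!
# EXTREMAL MERGING: the final form
-/

set_option autoImplicit false

namespace LIV

open Pool.Agent.LibHelper3 CMG Finset Filter Topology

theorem fin_real {ε C L : ℝ} (hε : 0 < ε) (hC : 1 ≤ C) (hL : 16 * C / ε ≤ L) :
    C * (2 * (ε / (16 * C)) * L + 2) ≤ ε / 2 * L := by
  rw [div_le_iff₀ hε] at hL
  have e1 : C * (2 * (ε / (16 * C)) * L + 2) = ε / 8 * L + 2 * C := by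
    field_simp
    ring
  rw [e1]
  nlinarith

/-- elements with good windows are not exceptional -/
theorem fin_good {C a M n N : ℕ} {x ε : ℝ} (hg : Good C a M n) (hN : N ≤ M)
    (hk : (C : ℝ) * (M + 1) ≤ ε * Real.log x) : n ∉ BadT x ε N := by
  obtain ⟨k, h1, h2, -, h4⟩ := hg
  rintro ⟨-, -, hbad⟩
  refine hbad ⟨k, by omega, ?_, ?_⟩
  · have h3 : (k : ℝ) ≤ C * (M + 1) := by exact_mod_cast h2
    have h5 : (0 : ℝ) ≤ 20 * ((N : ℝ) + 1) := by positivity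
    linarith
  · intro u v hu hv m hm
    have hNM : (N : ℤ) ≤ M := by exact_mod_cast hN
    refine h4 u v (hu.trans hNM) (hv.trans hNM) m (hm.trans ?_)
    exact pow_le_pow_right₀ (by norm_num) hN

theorem fin_window {C a M n : ℕ} {y : ℝ} (hg : Good C a M n) (hy : 0 ≤ y) (hM : 2 * y ≤ M) :
    ∀ m ∈ WindowZ y n, ∃ s, collatz^[s] m = a := by
  obtain ⟨k, -, -, ⟨s, hs⟩, h4⟩ := hg
  rintro m ⟨u, v, hu, hv, hm⟩
  have hu' : |u| ≤ (M : ℤ) := by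
    have : (|(u : ℝ)|) ≤ M := hu.trans (by linarith)
    exact_mod_cast this
  have hv' : |v| ≤ (M : ℤ) := by
    have : (|(v : ℝ)|) ≤ M := hv.trans (by linarith)
    exact_mod_cast this
  have h5 := h4 u v hu' hv' m (hm.trans (syp_exp hy hM))
  refine ⟨s + ((k : ℤ) + u - v).toNat, ?_⟩
  rw [Function.iterate_add_apply, h5, hs]

theorem fin_main (C : ℕ) (c₁ ε : ℝ) (hc₁ : 0 < c₁) (hε : 0 < ε) (a : ℕ) (ha : 1 ≤ a)
    (x₀ : ℝ) (hcnt : ∀ (x : ℝ) (M : ℕ), x₀ ≤ x → (C : ℝ) * (M + 1) ≤ Real.log x →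
      c₁ / a * x * Real.exp (-(C * (M + 1))) ≤
        ({n : ℕ | 1 ≤ n ∧ (n : ℝ) ≤ x ∧ Good C a M n}.ncard : ℝ)) (hε1 : ε ≤ 1) :
    ∀ᶠ x : ℕ in atTop, (x : ℝ) ^ (1 - ε) ≤
      ({n : ℕ | 1 ≤ n ∧ n ≤ x ∧
        n ∉ BadT x ε ⌊ε / (16 * ((C : ℝ) + 1)) * Real.log x⌋₊ ∧
        ∀ m ∈ WindowZ (ε / (16 * ((C : ℝ) + 1)) * Real.log n) n,
          ∃ s, collatz^[s] m = a}.ncard : ℝ) := by
  have hC1 : (1 : ℝ) ≤ (C : ℝ) + 1 := by
    have : (0 : ℝ) ≤ C := Nat.cast_nonneg C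
    linarith
  set c : ℝ := ε / (16 * ((C : ℝ) + 1)) with hc
  have hc0 : 0 < c := by positivity
  have ha0 : (0 : ℝ) < a := by exact_mod_cast ha
  have t1 : Tendsto (fun x : ℕ => (x : ℝ)) atTop atTop := tendsto_natCast_atTop_atTop
  have t2 : Tendsto (fun x : ℕ => Real.log (x : ℝ)) atTop atTop :=
    Real.tendsto_log_atTop.comp t1
  have t3 : Tendsto (fun x : ℕ => (x : ℝ) ^ (ε / 2)) atTop atTop :=
    (tendsto_rpow_atTop (by linarith)).comp t1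
  filter_upwards [t1.eventually_ge_atTop x₀, t2.eventually_ge_atTop (16 * ((C : ℝ) + 1) / ε),
    t3.eventually_ge_atTop (a / c₁), eventually_ge_atTop 1] with x h1 h2 h3 h4
  have hx1 : (1 : ℝ) ≤ x := by exact_mod_cast h4
  have hx0 : (0 : ℝ) < x := by linarith
  set L := Real.log (x : ℝ) with hL
  have hL0 : 0 ≤ L := Real.log_nonneg hx1
  obtain ⟨M, hM⟩ : ∃ M : ℕ, M = ⌈2 * c * L⌉₊ := ⟨_, rfl⟩
  have hM1 : 2 * c * L ≤ M := by rw [hM]; exact Nat.le_ceil _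
  have hM2 : (M : ℝ) ≤ 2 * c * L + 1 := by
    rw [hM]
    exact (Nat.ceil_lt_add_one (by positivity)).le
  have hreal := fin_real hε hC1 h2
  rw [← hc] at hreal
  have hCM : (C : ℝ) * (M + 1) ≤ ε / 2 * L := by
    refine le_trans ?_ hreal
    have : (0 : ℝ) ≤ C := Nat.cast_nonneg C
    have e1 : (M : ℝ) + 1 ≤ 2 * c * L + 2 := by linarith
    have e2 : (C : ℝ) * (M + 1) ≤ C * (2 * c * L + 2) := mul_le_mul_of_nonneg_left e1 this
    have e3 : 0 ≤ 2 * c * L := by positivity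
    nlinarith
  have hcount := hcnt x M h1 (by nlinarith)
  have hsub : {n : ℕ | 1 ≤ n ∧ (n : ℝ) ≤ x ∧ Good C a M n} ⊆
      {n : ℕ | 1 ≤ n ∧ n ≤ x ∧ n ∉ BadT x ε ⌊c * L⌋₊ ∧
        ∀ m ∈ WindowZ (c * Real.log n) n, ∃ s, collatz^[s] m = a} := by
    rintro n ⟨n1, n2, hg⟩
    have n3 : n ≤ x := by exact_mod_cast n2
    refine ⟨n1, n3, ?_, ?_⟩
    · refine fin_good hg ?_ (by rw [← hL]; nlinarith)
      have e1 : ((⌊c * L⌋₊ : ℕ) : ℝ) ≤ M := by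
        have e2 : ((⌊c * L⌋₊ : ℕ) : ℝ) ≤ c * L := Nat.floor_le (by positivity)
        have e3 : 0 ≤ c * L := by positivity
        linarith
      exact_mod_cast e1
    · have n4 : (1 : ℝ) ≤ n := by exact_mod_cast n1
      have hlog : Real.log n ≤ L := Real.log_le_log (by linarith) n2
      have hlog0 : 0 ≤ Real.log n := Real.log_nonneg n4
      refine fin_window hg (by positivity) ?_
      have := mul_le_mul_of_nonneg_left hlog hc0.le
      linarith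
  have hfin : {n : ℕ | 1 ≤ n ∧ n ≤ x ∧ n ∉ BadT x ε ⌊c * L⌋₊ ∧
        ∀ m ∈ WindowZ (c * Real.log n) n, ∃ s, collatz^[s] m = a}.Finite :=
    (Set.finite_Iic x).subset fun n hn => hn.2.1
  have hcard : (({n : ℕ | 1 ≤ n ∧ (n : ℝ) ≤ x ∧ Good C a M n}.ncard : ℕ) : ℝ) ≤
      ({n : ℕ | 1 ≤ n ∧ n ≤ x ∧ n ∉ BadT x ε ⌊c * L⌋₊ ∧
        ∀ m ∈ WindowZ (c * Real.log n) n, ∃ s, collatz^[s] m = a}.ncard : ℝ) := by
    exact_mod_cast Set.ncard_le_ncard hsub hfin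
  refine le_trans ?_ (hcount.trans hcard)
  have e1 : Real.exp (-(ε / 2 * L)) ≤ Real.exp (-((C : ℝ) * (M + 1))) := by
    apply Real.exp_le_exp.mpr
    linarith
  have e2 : Real.exp (-(ε / 2 * L)) = (x : ℝ) ^ (-(ε / 2)) := by
    rw [Real.rpow_def_of_pos hx0, ← hL]
    congr 1
    ring
  have e3 : (x : ℝ) ^ (1 - ε) * (a / c₁) ≤ x * (x : ℝ) ^ (-(ε / 2)) := by
    calc (x : ℝ) ^ (1 - ε) * (a / c₁) ≤ (x : ℝ) ^ (1 - ε) * (x : ℝ) ^ (ε / 2) :=
          mul_le_mul_of_nonneg_left h3 (Real.rpow_nonneg hx0.le _)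
      _ = (x : ℝ) ^ (1 : ℝ) * (x : ℝ) ^ (-(ε / 2)) := by
          rw [← Real.rpow_add hx0, ← Real.rpow_add hx0]
          congr 1
          ring
      _ = x * (x : ℝ) ^ (-(ε / 2)) := by rw [Real.rpow_one]
  have e4 : (x : ℝ) ^ (1 - ε) ≤ c₁ / a * x * (x : ℝ) ^ (-(ε / 2)) := by
    have e5 : c₁ / a * x * (x : ℝ) ^ (-(ε / 2)) = (x * (x : ℝ) ^ (-(ε / 2))) / (a / c₁) := by
      field_simp
    rw [e5, le_div_iff₀ (by positivity)]
    exact e3
  refine e4.trans ?_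
  rw [← e2]
  exact mul_le_mul_of_nonneg_left e1 (by positivity)

theorem fin (h : StCnt) : StFin := by
  obtain ⟨C, c₁, hc₁, hcnt⟩ := h
  intro ε₀ hε₀
  obtain ⟨ε, hε⟩ : ∃ ε : ℝ, ε = min ε₀ (1 / 2) := ⟨_, rfl⟩
  have hεp : 0 < ε := by rw [hε]; exact lt_min hε₀ (by norm_num)
  have hε1 : ε ≤ 1 / 2 := by rw [hε]; exact min_le_right _ _
  have hε2 : ε ≤ ε₀ := by rw [hε]; exact min_le_left _ _
  have hC1 : (1 : ℝ) ≤ (C : ℝ) + 1 := by
    have : (0 : ℝ) ≤ C := Nat.cast_nonneg C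
    linarith
  have hc0 : 0 < ε / (16 * ((C : ℝ) + 1)) := by positivity
  have ha1 : ∀ a : ℕ, ¬ 3 ∣ a → 1 ≤ a := by
    intro a h3
    by_contra hc
    exact h3 (by rw [show a = 0 by omega]; exact dvd_zero 3)
  refine ⟨ε / (16 * ((C : ℝ) + 1)), hc0, ?_, ?_⟩
  · intro a h3
    obtain ⟨x₀, hx₀⟩ := hcnt a h3
    have hm := fin_main C c₁ ε hc₁ hεp a (ha1 a h3) x₀ hx₀ (by linarith)
    filter_upwards [hm, eventually_ge_atTop 1] with x h1 h2
    have hx1 : (1 : ℝ) ≤ x := by exact_mod_cast h2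
    have e1 : (x : ℝ) ^ (1 - ε₀) ≤ (x : ℝ) ^ (1 - ε) :=
      Real.rpow_le_rpow_of_exponent_le hx1 (by linarith)
    refine e1.trans (h1.trans ?_)
    have hsub : {n : ℕ | 1 ≤ n ∧ n ≤ x ∧
        n ∉ BadT x ε ⌊ε / (16 * ((C : ℝ) + 1)) * Real.log x⌋₊ ∧
        ∀ m ∈ WindowZ (ε / (16 * ((C : ℝ) + 1)) * Real.log n) n, ∃ s, collatz^[s] m = a} ⊆
        {n : ℕ | 1 ≤ n ∧ n ≤ x ∧
        n ∉ BadT x ε₀ ⌊ε / (16 * ((C : ℝ) + 1)) * Real.log x⌋₊ ∧
        ∀ m ∈ WindowZ (ε / (16 * ((C : ℝ) + 1)) * Real.log n) n, ∃ s, collatz^[s] m = a} := by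
      rintro n ⟨n1, n2, n3, n4⟩
      refine ⟨n1, n2, ?_, n4⟩
      rintro ⟨b1, b2, b3⟩
      refine n3 ⟨b1, b2, ?_⟩
      rintro ⟨k, k1, k2, k3⟩
      refine b3 ⟨k, k1, k2.trans ?_, k3⟩
      have := mul_le_mul_of_nonneg_right hε2 (Real.log_nonneg hx1)
      linarith
    exact_mod_cast Set.ncard_le_ncard hsub ((Set.finite_Iic x).subset fun n hn => hn.2.1)
  · constructor
    · intro h
      filter_upwards [eventually_ge_atTop 1] with n hn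
      have hn1 : (1 : ℝ) ≤ n := by exact_mod_cast hn
      exact ⟨n, syp_self _ (mul_nonneg hc0.le (Real.log_nonneg hn1)) n, h n hn⟩
    · intro hS
      by_contra hcon
      push Not at hcon
      obtain ⟨n, hn1, hn⟩ := hcon
      obtain ⟨a, -, ha3, ha⟩ := cons_root n hn1 hn
      obtain ⟨x₀, hx₀⟩ := hcnt a ha3
      have hm := fin_main C c₁ ε hc₁ hεp a (ha1 a ha3) x₀ hx₀ (by linarith)
      obtain ⟨N, hN⟩ := eventually_atTop.1 hS
      have t1 : Tendsto (fun x : ℕ => (x : ℝ) ^ (1 - ε)) atTop atTop :=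
        (tendsto_rpow_atTop (by linarith)).comp tendsto_natCast_atTop_atTop
      obtain ⟨x, hx1, hx2⟩ := (hm.and (t1.eventually_gt_atTop (N : ℝ))).exists
      set S : Set ℕ := {n : ℕ | 1 ≤ n ∧ n ≤ x ∧
        n ∉ BadT x ε ⌊ε / (16 * ((C : ℝ) + 1)) * Real.log x⌋₊ ∧
        ∀ m ∈ WindowZ (ε / (16 * ((C : ℝ) + 1)) * Real.log n) n, ∃ s, collatz^[s] m = a}
        with hSd
      have hlt : N < S.ncard := by
        have : (N : ℝ) < S.ncard := lt_of_lt_of_le hx2 hx1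
        exact_mod_cast this
      have hex : ∃ n ∈ S, N ≤ n := by
        by_contra hc
        push Not at hc
        have h1 : S ⊆ (Finset.range N : Set ℕ) := by
          intro n hn
          rw [Finset.coe_range]
          exact hc n hn
        have h2 := Set.ncard_le_ncard h1 (Finset.finite_toSet _)
        rw [Set.ncard_coe_finset, Finset.card_range] at h2
        omega
      obtain ⟨n', hn', hNn⟩ := hex
      obtain ⟨m, hm1, hm2⟩ := hN n' hNn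
      obtain ⟨s, hs⟩ := hn'.2.2.2 m hm1
      obtain ⟨r, hr⟩ := cons_pred hs hm2
      exact ha r hr

end LIV
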