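import Mathlib
import Pool.Agent.LIV.St

/-!
# LIV, HOL: Hölder's inequality for the weights of one form
-/

set_option autoImplicit false

namespace LIV

open Pool.Agent.LibHelper3 CMG Finset

theorem hol_xi_nonneg (m k : ℕ) (s : ℕ × ℕ) : 0 ≤ xi m k s := by
  unfold xi
  positivity

/-- the eighth power of a sum of three terms -/
theorem hol_pow {x y : ℝ} (hx : 0 ≤ x) (hy : 0 ≤ y) :
    (1 + x + y) ^ 8 ≤ 6561 * (1 + x ^ 8 + y ^ 8) := by
  have key : ∀ M : ℝ, 0 ≤ M → 1 ≤ M → x ≤ M → y ≤ M → M ^ 8 ≤ 1 + x ^ 8 + y ^ 8 →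
      (1 + x + y) ^ 8 ≤ 6561 * (1 + x ^ 8 + y ^ 8) := by
    intro M h0 h1 h2 h3 h4
    have h5 : (1 + x + y) ^ 8 ≤ (3 * M) ^ 8 := pow_le_pow_left₀ (by positivity) (by linarith) 8
    have h6 : (3 * M) ^ 8 = 6561 * M ^ 8 := by ring
    linarith
  have hx8 : 0 ≤ x ^ 8 := by positivity
  have hy8 : 0 ≤ y ^ 8 := by positivity
  rcases le_total x y with hxy | hxy
  · rcases le_total 1 y with h1 | h1
    · exact key y hy h1 hxy le_rfl (by linarith)
    · exact key 1 zero_le_one le_rfl (hxy.trans h1) h1 (by linarith)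
  · rcases le_total 1 x with h1 | h1
    · exact key x hx h1 le_rfl hxy (by linarith)
    · exact key 1 zero_le_one le_rfl h1 (hxy.trans h1) (by linarith)

theorem hol (h1 : StMom1) (h3 : StMom3) : StHol := by
  intro m θ a s u hm hup hu
  have hP0 : ∀ k, 0 ≤ pw (rt (m ^ 2) k θ) (rp (m ^ 2) k s) := fun k => pw_nonneg _ _
  have hpw0 : 0 ≤ pw θ s := pw_nonneg _ _
  have hq0 : (0 : ℝ) ≤ (97 / 100) ^ (m ^ 2) := by positivity
  have hu0 : ∀ k, 0 ≤ u k := by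
    intro k
    rcases hu k with h | h <;> rw [h]
    exact zero_le_one
  have hEu0 : 0 ≤ Ek (m ^ 2) u := Ek_nonneg fun k _ => hu0 k
  -- the first factor
  have hA : Real.sqrt (Ek (m ^ 2) (fun k => pw (rt (m ^ 2) k θ) (rp (m ^ 2) k s) ^ 2)) ≤
      Real.sqrt ((97 / 100) ^ (m ^ 2)) * pw θ s + 6 := by
    apply Real.sqrt_le_iff.2
    refine ⟨by positivity, ?_⟩
    have e1 := h1 (m ^ 2) θ s hup
    have e2 : (Real.sqrt ((97 / 100 : ℝ) ^ (m ^ 2)) * pw θ s + 6) ^ 2 =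
        Real.sqrt ((97 / 100 : ℝ) ^ (m ^ 2)) ^ 2 * pw θ s ^ 2 +
          12 * (Real.sqrt ((97 / 100 : ℝ) ^ (m ^ 2)) * pw θ s) + 36 := by ring
    rw [e2, Real.sq_sqrt hq0]
    have e3 : 0 ≤ Real.sqrt ((97 / 100 : ℝ) ^ (m ^ 2)) * pw θ s := by positivity
    linarith
  -- the eighth moment
  have hZ8 : Ek (m ^ 2) (fun k => ((1 + xi m k a + xi m k s) ^ 4) ^ 2) ≤ 200 ^ 4 := by
    have e1 : Ek (m ^ 2) (fun k => ((1 + xi m k a + xi m k s) ^ 4) ^ 2) ≤
        Ek (m ^ 2) (fun k => 6561 * ((1 + xi m k a ^ 8) + xi m k s ^ 8)) := by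
      apply Ek_mono
      intro k _
      rw [← pow_mul]
      exact hol_pow (hol_xi_nonneg m k a) (hol_xi_nonneg m k s)
    rw [Ek_mul, Ek_add, Ek_add, Ek_const] at e1
    have e2 := h3 m a hm
    have e3 := h3 m s hm
    refine e1.trans ?_
    nlinarith
  -- the second factor
  have hB1 : Ek (m ^ 2) (fun k => (u k * (1 + xi m k a + xi m k s) ^ 2) ^ 2) ≤
      Real.sqrt (Ek (m ^ 2) u) * 200 ^ 2 := by
    have e0 : ∀ k, (u k * (1 + xi m k a + xi m k s) ^ 2) ^ 2 =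
        u k * (1 + xi m k a + xi m k s) ^ 4 := by
      intro k
      rcases hu k with h | h <;> rw [h] <;> ring
    have e1 := Ek_cs (m ^ 2) u (fun k => (1 + xi m k a + xi m k s) ^ 4)
    have e2 : (fun k => u k ^ 2) = u := by
      funext k
      rcases hu k with h | h <;> rw [h] <;> ring
    rw [e2] at e1
    have e3 : Real.sqrt (Ek (m ^ 2) (fun k => ((1 + xi m k a + xi m k s) ^ 4) ^ 2)) ≤ 200 ^ 2 := by
      apply Real.sqrt_le_iff.2
      refine ⟨by positivity, hZ8.trans (by norm_num)⟩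
    calc Ek (m ^ 2) (fun k => (u k * (1 + xi m k a + xi m k s) ^ 2) ^ 2)
        = Ek (m ^ 2) (fun k => u k * (1 + xi m k a + xi m k s) ^ 4) := by
          congr 1
          funext k
          exact e0 k
      _ ≤ _ := e1
      _ ≤ Real.sqrt (Ek (m ^ 2) u) * 200 ^ 2 :=
          mul_le_mul_of_nonneg_left e3 (Real.sqrt_nonneg _)
  have hB : Real.sqrt (Ek (m ^ 2) (fun k => (u k * (1 + xi m k a + xi m k s) ^ 2) ^ 2)) ≤
      200 * Real.sqrt (Real.sqrt (Ek (m ^ 2) u)) := by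
    have e1 := Real.sqrt_le_sqrt hB1
    rw [Real.sqrt_mul (Real.sqrt_nonneg _), Real.sqrt_sq (by norm_num)] at e1
    linarith
  have hC := Ek_cs (m ^ 2) (fun k => pw (rt (m ^ 2) k θ) (rp (m ^ 2) k s))
    (fun k => u k * (1 + xi m k a + xi m k s) ^ 2)
  have hD : Ek (m ^ 2) (fun k => u k * (pw (rt (m ^ 2) k θ) (rp (m ^ 2) k s) *
      (1 + xi m k a + xi m k s) ^ 2)) =
      Ek (m ^ 2) (fun k => pw (rt (m ^ 2) k θ) (rp (m ^ 2) k s) *
        (u k * (1 + xi m k a + xi m k s) ^ 2)) := by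
    congr 1
    funext k
    ring
  rw [hD]
  refine hC.trans ?_
  calc Real.sqrt (Ek (m ^ 2) (fun k => pw (rt (m ^ 2) k θ) (rp (m ^ 2) k s) ^ 2)) *
      Real.sqrt (Ek (m ^ 2) (fun k => (u k * (1 + xi m k a + xi m k s) ^ 2) ^ 2))
      ≤ (Real.sqrt ((97 / 100) ^ (m ^ 2)) * pw θ s + 6) *
        (200 * Real.sqrt (Real.sqrt (Ek (m ^ 2) u))) :=
        mul_le_mul hA hB (Real.sqrt_nonneg _) (by positivity)
    _ = _ := by ring

end LIV
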