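import Mathlib
import Pool.Agent.LIV.St

/-!
# EXTREMAL MERGING: composition of the blocks
-/

set_option autoImplicit false

namespace LIV

open Pool.Agent.LibHelper3 CMG Finset

theorem LBc.mono {η C : ℝ} {m₀ m₁ : ℕ} (h : LBc η C m₀) (h01 : m₀ ≤ m₁) : LBc η C m₁ :=
  fun m σ θ c F c' hm => h m σ θ c F c' (h01.trans hm)

theorem Ovc.mono {B ε : ℝ} {m₀ m₁ : ℕ} (h : Ovc B ε m₀) (h01 : m₀ ≤ m₁) : Ovc B ε m₁ :=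
  fun m σ θ c F a hm => h m σ θ c F a (h01.trans hm)

theorem Prp.mono {B : ℝ} {m₀ m₁ : ℕ} (h : Prp B m₀) (h01 : m₀ ≤ m₁) : Prp B m₁ :=
  fun m X θ F W hm => h m X θ F W (h01.trans hm)

/-- the window can be merged by `C (M + 1)` digits -/
theorem key (hLB : StLB) (hOvs : StOvs) (hMv : StMv) (hPrp : StPrp) (hBlk : StBlk)
    (hRnd : StRnd) (hPh0 : StPh0) (hPh1 : StPh1) (hPh2 : StPh2) : StKey := by
  obtain ⟨p₀, c₀, hp₀, hp1, hc₀, hc1, hmv⟩ := hMv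
  obtain ⟨C, m₁, hC, hm₁, hlb⟩ := hLB (p₀ / 16) (by positivity)
  obtain ⟨B, hB⟩ : ∃ B : ℝ, B = max 1 (16 * C / p₀) := ⟨_, rfl⟩
  have hB1 : 1 ≤ B := by rw [hB]; exact le_max_left _ _
  have hB2 : 16 * C ≤ p₀ * B := by
    have h1 : 16 * C / p₀ ≤ B := by rw [hB]; exact le_max_right _ _
    rw [div_le_iff₀ hp₀] at h1
    linarith
  have hB3 : 16 * C ≤ B := by nlinarith
  obtain ⟨m₂, hov⟩ := hOvs B (c₀ * p₀ / 16) hB1 (by positivity)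
  have hprp := hPrp (p₀ / 16) C B m₁ (by positivity) (by linarith) hC hlb hB1 hB3
  obtain ⟨m₀, hm₀⟩ : ∃ m₀ : ℕ, m₀ = max m₁ m₂ := ⟨_, rfl⟩
  have h1 : m₁ ≤ m₀ := by rw [hm₀]; exact le_max_left _ _
  have h2 : m₂ ≤ m₀ := by rw [hm₀]; exact le_max_right _ _
  have hblk := hBlk p₀ c₀ C B m₀ hp₀ hp1 hc₀ hC (hm₁.trans h1) hB1 hB2 hmv (hlb.mono h1)
    (hov.mono h2)
  obtain ⟨K₀, hK₀⟩ : ∃ K₀ : ℕ, K₀ = max m₀ 16 := ⟨_, rfl⟩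
  have hK1 : m₀ ≤ K₀ := by rw [hK₀]; exact le_max_left _ _
  have hK2 : 16 ≤ K₀ := by rw [hK₀]; exact le_max_right _ _
  have hprp' := hprp.mono h1
  obtain ⟨K₁, hrnd⟩ := hRnd B (c₀ / 2) m₀ K₀ hB1 (by positivity) hblk hprp' hK1 hK2
  obtain ⟨K₂, W₀, hph1⟩ := hPh1 B K₀ K₁ (by omega) hrnd
  obtain ⟨n₂, hph2⟩ := hPh2 B K₀ W₀ (by omega)
  obtain ⟨C₀, hph0⟩ := hPh0 B m₀ K₀ hB1 hprp' hK1 (by omega)
  refine ⟨C₀ + K₂ * (C₀ + 1) + n₂, fun M => ?_⟩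
  obtain ⟨n, θ', F', W', hn, hg, hs, hW⟩ := hph0 M
  obtain ⟨n', θ'', F'', W'', hn', hg', hs', hW'⟩ := hph1 θ' F' W' hs
  obtain ⟨θ₃, F₃, hg'', hcard⟩ := hph2 θ'' F'' W'' hs' hW'
  obtain ⟨k, hk, hF, -⟩ := (hg.trans hg').trans hg''
  refine ⟨n + n' + n₂, ?_, k, hk, ?_⟩
  · have e1 : K₂ * (W' + 1) ≤ K₂ * ((C₀ + 1) * (M + 1)) := by
      apply Nat.mul_le_mul_left
      have : (C₀ + 1) * (M + 1) = C₀ * (M + 1) + (M + 1) := by ring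
      omega
    have e2 : (C₀ + K₂ * (C₀ + 1) + n₂) * (M + 1) =
        C₀ * (M + 1) + K₂ * ((C₀ + 1) * (M + 1)) + n₂ * (M + 1) := by ring
    have e3 : n₂ ≤ n₂ * (M + 1) := Nat.le_mul_of_pos_right _ (Nat.succ_pos M)
    rw [e2]
    omega
  · rw [← hF, hcard]

end LIV
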