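import Mathlib
import Pool.Agent.LIV.St

/-!
# Extremal merging: the expected potential after one block
-/

set_option autoImplicit false

namespace LIV

open Pool.Agent.LibHelper3 CMG Finset

theorem lb_root {L y : ℝ} (hL : 0 < L) (hy : 0 ≤ y) :
    Real.sqrt (Real.sqrt y) ≤ L ^ 3 * y + 1 / L := by
  set x := Real.sqrt (Real.sqrt y) with hx
  have hx0 : 0 ≤ x := Real.sqrt_nonneg _
  have hx4 : x ^ 4 = y := by
    have h1 : x ^ 2 = Real.sqrt y := Real.sq_sqrt (Real.sqrt_nonneg _)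
    have h2 : (Real.sqrt y) ^ 2 = y := Real.sq_sqrt hy
    calc x ^ 4 = (x ^ 2) ^ 2 := by ring
      _ = y := by rw [h1, h2]
  rw [← hx4]
  by_cases h : x ≤ 1 / L
  · have : 0 ≤ L ^ 3 * x ^ 4 := by positivity
    linarith
  · have h0 : 1 / L < x := lt_of_not_ge h
    have h1 : 1 < L * x := by
      rw [div_lt_iff₀ hL] at h0
      linarith
    have h2 : 1 ≤ (L * x) ^ 3 := one_le_pow₀ h1.le
    have h3 : x * 1 ≤ x * (L * x) ^ 3 := mul_le_mul_of_nonneg_left h2 hx0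
    have h4 : 0 ≤ 1 / L := by positivity
    have h5 : x * (L * x) ^ 3 = L ^ 3 * x ^ 4 := by ring
    linarith

theorem lb_U {Cs : ℝ} (hCs : 0 < Cs) (hs : ∀ (t : ℕ) (s : St), 1 ≤ t →
    p t s ≤ Cs * (1 + dd s + sq s) / Real.sqrt t) (m : ℕ) (hm : 1 ≤ m) (θ : ℝ) (s s' : ℕ × ℕ)
    (h : 0 ≤ up θ s) (h' : 0 ≤ up θ s') :
    p (m ^ 2) (pr s s') ≤
      Cs * (1 + dd (pr s s')) / m + Real.sqrt (Cs / m) * (pw θ s + pw θ s') := by
  have h1 := hs (m ^ 2) (pr s s') (Nat.one_le_pow _ _ hm)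
  have hm0 : (0 : ℝ) < m := by exact_mod_cast hm
  have e1 : Real.sqrt ((m ^ 2 : ℕ) : ℝ) = m := by
    rw [Nat.cast_pow, Real.sqrt_sq hm0.le]
  rw [e1] at h1
  have h2 := p_le_one (m ^ 2) (pr s s')
  have h3 := sq_pr θ s s' h h'
  have h4 : Real.sqrt (up θ s) ≤ pw θ s ^ 2 := by
    rw [pw_sq]
    exact Real.sqrt_le_sqrt (by linarith)
  have h5 : Real.sqrt (up θ s') ≤ pw θ s' ^ 2 := by
    rw [pw_sq]
    exact Real.sqrt_le_sqrt (by linarith)
  have hp := pw_nonneg θ s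
  have hp' := pw_nonneg θ s'
  set r := Real.sqrt (Cs / m) with hr
  have hr0 : 0 ≤ r := Real.sqrt_nonneg _
  have hr2 : r ^ 2 = Cs / m := Real.sq_sqrt (by positivity)
  have hB : Cs * sq (pr s s') / m ≤ (r * (pw θ s + pw θ s')) ^ 2 := by
    calc Cs * sq (pr s s') / m = (Cs / m) * sq (pr s s') := by ring
      _ ≤ (Cs / m) * (pw θ s + pw θ s') ^ 2 := by
          apply mul_le_mul_of_nonneg_left _ (by positivity)
          nlinarith [mul_nonneg hp hp']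
      _ = _ := by rw [mul_pow, hr2]
  have hA : 0 ≤ Cs * (1 + (dd (pr s s') : ℝ)) / m := by positivity
  have hsum : Cs * (1 + (dd (pr s s') : ℝ) + sq (pr s s')) / m =
      Cs * (1 + (dd (pr s s') : ℝ)) / m + Cs * sq (pr s s') / m := by ring
  have hz : 0 ≤ r * (pw θ s + pw θ s') := by positivity
  by_cases hz1 : r * (pw θ s + pw θ s') ≤ 1
  · nlinarith
  · linarith

theorem lb_ind (t : ℕ) (s s' : ℕ × ℕ) :
    Ek t (fun k => if rp t k s = rp t k s' then (0 : ℝ) else 1) = p t (pr s s') := by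
  have h := Ek_pair t un s s'
  have e : (fun k => un (pr (rp t k s) (rp t k s'))) =
      fun k => if rp t k s = rp t k s' then (0 : ℝ) else 1 := by
    funext k
    unfold un
    by_cases hk : rp t k s = rp t k s'
    · rw [if_pos hk, if_pos (Mg_pr.2 hk)]
    · rw [if_neg hk, if_neg fun hh => hk (Mg_pr.1 hh)]
  rw [e] at h
  rw [h]
  rfl

/-- the term of one pair -/
theorem lb_pair {Cs L : ℝ} (hCs : 0 < Cs) (hL : 0 < L) (hs : ∀ (t : ℕ) (s : St), 1 ≤ t →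
    p t s ≤ Cs * (1 + dd s + sq s) / Real.sqrt t) (hH : StHol) (m : ℕ) (hm : 1 ≤ m)
    (θ : ℝ) (a s s' : ℕ × ℕ) (h : 0 ≤ up θ s) (h' : 0 ≤ up θ s') :
    Ek (m ^ 2) (fun k => (if rp (m ^ 2) k s = rp (m ^ 2) k s' then 0 else 1) *
      (pw (rt (m ^ 2) k θ) (rp (m ^ 2) k s') * (1 + xi m k a + xi m k s') ^ 2)) ≤
    200 * (Real.sqrt ((97 / 100) ^ (m ^ 2)) * pw θ s' + 6 * (L ^ 3 *
      (Cs * (1 + dd (pr s s')) / m + Real.sqrt (Cs / m) * (pw θ s + pw θ s')) + 1 / L)) := by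
  have h1 := hH m θ a s' (fun k => if rp (m ^ 2) k s = rp (m ^ 2) k s' then 0 else 1) hm h'
    (fun k => by
      by_cases hk : rp (m ^ 2) k s = rp (m ^ 2) k s'
      · left; exact if_pos hk
      · right; exact if_neg hk)
  rw [lb_ind] at h1
  refine h1.trans ?_
  have hp := pw_nonneg θ s'
  have hU1 := p_le_one (m ^ 2) (pr s s')
  have hU0 := p_nonneg (m ^ 2) (pr s s')
  have hUb := lb_U hCs hs m hm θ s s' h h'
  set U := p (m ^ 2) (pr s s') with hUdef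
  set δ := Real.sqrt ((97 / 100) ^ (m ^ 2)) with hδ
  have hδ0 : 0 ≤ δ := Real.sqrt_nonneg _
  have hR0 : 0 ≤ Real.sqrt (Real.sqrt U) := Real.sqrt_nonneg _
  have hR1 : Real.sqrt (Real.sqrt U) ≤ 1 := by
    rw [Real.sqrt_le_iff]
    refine ⟨zero_le_one, ?_⟩
    rw [Real.sqrt_le_iff]
    refine ⟨by norm_num, ?_⟩
    linarith
  have hR := lb_root hL hU0
  have hR' : Real.sqrt (Real.sqrt U) ≤ L ^ 3 *
      (Cs * (1 + dd (pr s s')) / m + Real.sqrt (Cs / m) * (pw θ s + pw θ s')) + 1 / L := by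
    refine hR.trans ?_
    have : L ^ 3 * U ≤ L ^ 3 *
      (Cs * (1 + dd (pr s s')) / m + Real.sqrt (Cs / m) * (pw θ s + pw θ s')) :=
      mul_le_mul_of_nonneg_left hUb (by positivity)
    linarith
  have h2 : Real.sqrt (Real.sqrt U) * (δ * pw θ s') ≤ δ * pw θ s' := by
    have : 0 ≤ δ * pw θ s' := by positivity
    nlinarith
  calc 200 * Real.sqrt (Real.sqrt U) * (δ * pw θ s' + 6)
      = 200 * (Real.sqrt (Real.sqrt U) * (δ * pw θ s') + 6 * Real.sqrt (Real.sqrt U)) := by ring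
    _ ≤ _ := by linarith

theorem lb_lim (Cs L η : ℝ) (hη : 0 < η) :
    ∃ m₀ : ℕ, 1 ≤ m₀ ∧ ∀ m : ℕ, m₀ ≤ m →
      400 * Real.sqrt ((97 / 100) ^ (m ^ 2)) + 1200 * L ^ 3 * (Cs / m) +
        2400 * L ^ 3 * Real.sqrt (Cs / m) ≤ η := by
  have h1 : Filter.Tendsto (fun m : ℕ => Cs / (m : ℝ)) Filter.atTop (nhds 0) :=
    tendsto_const_div_atTop_nhds_zero_nat Cs
  have h2 : Filter.Tendsto (fun m : ℕ => Real.sqrt (Cs / (m : ℝ))) Filter.atTop (nhds 0) := by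
    have := (Real.continuous_sqrt.tendsto 0).comp h1
    rwa [Real.sqrt_zero] at this
  have h3 : Filter.Tendsto (fun m : ℕ => ((97 : ℝ) / 100) ^ (m ^ 2)) Filter.atTop (nhds 0) :=
    (tendsto_pow_atTop_nhds_zero_of_lt_one (by norm_num) (by norm_num)).comp
      (Filter.tendsto_pow_atTop (by norm_num))
  have h4 : Filter.Tendsto (fun m : ℕ => Real.sqrt (((97 : ℝ) / 100) ^ (m ^ 2)))
      Filter.atTop (nhds 0) := by
    have := (Real.continuous_sqrt.tendsto 0).comp h3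
    rwa [Real.sqrt_zero] at this
  have h5 := ((h4.const_mul 400).add (h1.const_mul (1200 * L ^ 3))).add
    (h2.const_mul (2400 * L ^ 3))
  have e : (400 : ℝ) * 0 + 1200 * L ^ 3 * 0 + 2400 * L ^ 3 * 0 = 0 := by ring
  rw [e] at h5
  have h6 := h5.eventually (gt_mem_nhds hη)
  obtain ⟨N, hN⟩ := Filter.eventually_atTop.1 h6
  refine ⟨max 1 N, le_max_left _ _, fun m hm => ?_⟩
  exact (hN m ((le_max_right _ _).trans hm)).le

theorem lb_dd {σ : ℝ} (hσ : σ = 1 ∨ σ = -1) {s s' : ℕ × ℕ} (h : σ * (s.1 : ℝ) ≤ σ * s'.1) :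
    (dd (pr s s') : ℝ) = σ * ((s'.1 : ℝ) - s.1) := by
  rw [dd_pr]
  rcases hσ with rfl | rfl
  · have h1 : s.1 ≤ s'.1 := by
      have : (s.1 : ℝ) ≤ s'.1 := by linarith
      exact_mod_cast this
    have h2 : s.1 - s'.1 = 0 := by omega
    rw [h2, add_zero, Nat.cast_sub h1]
    ring
  · have h1 : s'.1 ≤ s.1 := by
      have : (s'.1 : ℝ) ≤ s.1 := by linarith
      exact_mod_cast this
    have h2 : s'.1 - s.1 = 0 := by omega
    rw [h2, zero_add, Nat.cast_sub h1]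
    ring

theorem lb (hS : StSrt) (hP : StLBP) (hA : StAdj2) (hH : StHol) : StLB := by
  intro η hη
  obtain ⟨Cs, hCs, hs⟩ := sharp
  obtain ⟨hA1, hA2, hA3, hA4, hA5, hA6⟩ := hA
  obtain ⟨L, hL, hL2⟩ : ∃ L : ℝ, 0 < L ∧ 1200 * (1 / L) = η / 2 := by
    refine ⟨2400 / η, by positivity, ?_⟩
    field_simp
    norm_num
  obtain ⟨m₀, hm₀, hlim⟩ := lb_lim Cs L (η / 2) (by positivity)
  refine ⟨1200 + 1200 * L ^ 3 * Cs, m₀, by positivity, hm₀, ?_⟩
  intro m σ θ c F c' hm hσ hpos hend hends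
  have hm1 : 1 ≤ m := hm₀.trans hm
  have hmr : (0 : ℝ) < m := by exact_mod_cast hm1
  have hlim' := hlim m hm
  obtain ⟨a, l, hnd, htF, hac, hpw⟩ := hS σ c F hσ hend
  have hmem : ∀ s, s ∈ a :: l ↔ s ∈ F := fun s => by rw [← htF, List.mem_toFinset]
  have haF : a ∈ F := (hmem a).1 List.mem_cons_self
  obtain ⟨v, hv⟩ : ∃ v : ℕ × ℕ → ℝ, ∀ s, v s = σ * ((s.1 : ℝ) - c) / m := ⟨_, fun _ => rfl⟩
  obtain ⟨ψ, hψ⟩ : ∃ ψ : ℕ × ℕ → ℝ, ∀ s, ψ s = pw θ s * wt (v s) := ⟨_, fun _ => rfl⟩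
  have hψ0 : ∀ s, 0 ≤ ψ s := fun s => by
    rw [hψ]
    exact mul_nonneg (pw_nonneg _ _) (wt_nonneg _)
  have hv0 : ∀ s ∈ a :: l, 0 ≤ v s := fun s hs => by
    rw [hv]
    exact div_nonneg (hend.1 s ((hmem s).1 hs)) hmr.le
  have hΨ : pot (1 / (m : ℝ)) θ σ c F = ∑ s ∈ F, ψ s := by
    unfold pot
    apply sum_congr rfl
    intro s _
    have : 1 / (m : ℝ) * (σ * ((s.1 : ℝ) - c)) = σ * ((s.1 : ℝ) - c) / m := by ring
    rw [this, hψ, hv]
  rw [hΨ]
  have hΨ0 : 0 ≤ ∑ s ∈ F, ψ s := sum_nonneg fun s _ => hψ0 s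
  have step1 := Ek_mono (t := m ^ 2) fun k _ =>
    hP m k σ θ c (c' k) F a l hm1 hσ hend (hends k) htF hac
  refine step1.trans ?_
  rw [Ek_add, hA3]
  have hδ0 : 0 ≤ Real.sqrt ((97 / 100 : ℝ) ^ (m ^ 2)) := Real.sqrt_nonneg _
  have hr0 : 0 ≤ Real.sqrt (Cs / m) := Real.sqrt_nonneg _
  have hhead : Ek (m ^ 2) (fun k => pw (rt (m ^ 2) k θ) (rp (m ^ 2) k a) *
      (1 + xi m k a + xi m k a) ^ 2) ≤
      200 * (Real.sqrt ((97 / 100) ^ (m ^ 2)) * (∑ s ∈ F, ψ s) + 6) := by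
    have h1 := hH m θ a a (fun _ => 1) hm1 (hpos a haF) (fun _ => Or.inr rfl)
    rw [Ek_const, Real.sqrt_one, Real.sqrt_one, mul_one] at h1
    simp only [one_mul] at h1
    refine h1.trans ?_
    have h2 : pw θ a ≤ ∑ s ∈ F, ψ s := by
      have h3 : ψ a ≤ ∑ s ∈ F, ψ s := single_le_sum (fun s _ => hψ0 s) haF
      have h4 : ψ a = pw θ a := by
        rw [hψ, hv, hac, sub_self, mul_zero, zero_div, wt_zero, mul_one]
      linarith
    have h5 := mul_le_mul_of_nonneg_left h2 hδ0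
    linarith
  have htail : adj (fun s s' => Ek (m ^ 2) (fun k =>
      (if rp (m ^ 2) k s = rp (m ^ 2) k s' then 0 else 1) *
      (pw (rt (m ^ 2) k θ) (rp (m ^ 2) k s') * (1 + xi m k a + xi m k s') ^ 2) *
      wt (σ * ((s'.1 : ℝ) - c) / m))) (a :: l) ≤
      adj (fun s s' => (200 * Real.sqrt ((97 / 100) ^ (m ^ 2)) +
          1200 * L ^ 3 * Real.sqrt (Cs / m) + 1200 * L ^ 3 * (Cs / m) + 1200 * (1 / L)) * ψ s' +
        1 * ((1200 * L ^ 3 * Real.sqrt (Cs / m)) * ψ s +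
          (1200 * L ^ 3 * Cs) * ((v s' - v s) * wt (v s')))) (a :: l) := by
    apply hA2 _ _ (fun s s' => σ * (s.1 : ℝ) ≤ σ * s'.1) (a :: l) hpw
    intro s hs1 s' hs' hR
    have hus := hpos s ((hmem s).1 hs1)
    have hus' := hpos s' ((hmem s').1 hs')
    have hw0 : 0 ≤ wt (v s') := wt_nonneg _
    have hpair := lb_pair hCs hL hs hH m hm1 θ a s s' hus hus'
    have e1 : Ek (m ^ 2) (fun k => (if rp (m ^ 2) k s = rp (m ^ 2) k s' then 0 else 1) *
        (pw (rt (m ^ 2) k θ) (rp (m ^ 2) k s') * (1 + xi m k a + xi m k s') ^ 2) *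
        wt (σ * ((s'.1 : ℝ) - c) / m)) =
        wt (v s') * Ek (m ^ 2) (fun k =>
          (if rp (m ^ 2) k s = rp (m ^ 2) k s' then 0 else 1) *
          (pw (rt (m ^ 2) k θ) (rp (m ^ 2) k s') * (1 + xi m k a + xi m k s') ^ 2)) := by
      rw [← Ek_mul]
      congr 1
      funext k
      rw [hv]
      ring
    rw [e1]
    refine (mul_le_mul_of_nonneg_left hpair hw0).trans ?_
    have hdd := lb_dd hσ hR
    have hdd2 : Cs * (1 + (dd (pr s s') : ℝ)) / m = Cs / m + Cs * (v s' - v s) := by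
      rw [hdd, hv, hv]
      field_simp
      ring
    rw [hdd2]
    have hvle : v s ≤ v s' := by
      rw [hv, hv]
      apply div_le_div_of_nonneg_right _ hmr.le
      linarith
    have hwle : wt (v s') ≤ wt (v s) := wt_anti (hv0 s hs1) hvle
    have hp1 := one_le_pw hus'
    have hp0 := pw_nonneg θ s
    have hψs : ψ s = pw θ s * wt (v s) := hψ s
    have hψs' : ψ s' = pw θ s' * wt (v s') := hψ s'
    have f1 : wt (v s') ≤ ψ s' := by
      rw [hψs']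
      nlinarith
    have f2 : pw θ s * wt (v s') ≤ ψ s := by
      rw [hψs]
      exact mul_le_mul_of_nonneg_left hwle hp0
    have hL3 : 0 ≤ L ^ 3 := by positivity
    have g1 : 1200 * L ^ 3 * (Cs / m) * wt (v s') ≤ 1200 * L ^ 3 * (Cs / m) * ψ s' :=
      mul_le_mul_of_nonneg_left f1 (by positivity)
    have g2 : 1200 * (1 / L) * wt (v s') ≤ 1200 * (1 / L) * ψ s' :=
      mul_le_mul_of_nonneg_left f1 (by positivity)
    have g3 : 1200 * L ^ 3 * Real.sqrt (Cs / m) * (pw θ s * wt (v s')) ≤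
        1200 * L ^ 3 * Real.sqrt (Cs / m) * ψ s :=
      mul_le_mul_of_nonneg_left f2 (by positivity)
    calc wt (v s') * (200 * (Real.sqrt ((97 / 100) ^ (m ^ 2)) * pw θ s' + 6 * (L ^ 3 *
          (Cs / m + Cs * (v s' - v s) + Real.sqrt (Cs / m) * (pw θ s + pw θ s')) + 1 / L)))
        = 200 * Real.sqrt ((97 / 100) ^ (m ^ 2)) * (pw θ s' * wt (v s')) +
          1200 * L ^ 3 * (Cs / m) * wt (v s') +
          1200 * L ^ 3 * Cs * ((v s' - v s) * wt (v s')) +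
          1200 * L ^ 3 * Real.sqrt (Cs / m) * (pw θ s * wt (v s')) +
          1200 * L ^ 3 * Real.sqrt (Cs / m) * (pw θ s' * wt (v s')) +
          1200 * (1 / L) * wt (v s') := by ring
      _ ≤ _ := by
        rw [← hψs']
        linarith
  rw [hA1 (fun _ s' => ψ s') (fun s s' => (1200 * L ^ 3 * Real.sqrt (Cs / m)) * ψ s +
      (1200 * L ^ 3 * Cs) * ((v s' - v s) * wt (v s'))),
    hA1 (fun s _ => ψ s) (fun s s' => (v s' - v s) * wt (v s'))] at htail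
  have k5 := hA5 ψ (a :: l) hnd hψ0
  have k6 := hA6 ψ (a :: l) hnd hψ0
  have k4 := hA4 v a l hv0 (hpw.imp fun {s s'} hR => by
    rw [hv, hv]
    apply div_le_div_of_nonneg_right _ hmr.le
    linarith)
  rw [htF] at k5 k6
  have hL3 : 0 ≤ L ^ 3 := by positivity
  have m5 := mul_le_mul_of_nonneg_left k5
    (show 0 ≤ 200 * Real.sqrt ((97 / 100) ^ (m ^ 2)) +
      1200 * L ^ 3 * Real.sqrt (Cs / m) + 1200 * L ^ 3 * (Cs / m) + 1200 * (1 / L) by positivity)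
  have m6 := mul_le_mul_of_nonneg_left k6
    (show 0 ≤ 1200 * L ^ 3 * Real.sqrt (Cs / m) by positivity)
  have m4 := mul_le_mul_of_nonneg_left k4 (show 0 ≤ 1200 * L ^ 3 * Cs by positivity)
  have mfin : (400 * Real.sqrt ((97 / 100) ^ (m ^ 2)) + 1200 * L ^ 3 * (Cs / m) +
      2400 * L ^ 3 * Real.sqrt (Cs / m) + 1200 * (1 / L)) * (∑ s ∈ F, ψ s) ≤
      η * ∑ s ∈ F, ψ s := by
    apply mul_le_mul_of_nonneg_right _ hΨ0
    rw [hL2]
    linarith
  linarith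

end LIV
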