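import Pool.Agent.LIV.St

/-!
# LBP: the potential after a block, for one string of digits
-/

set_option autoImplicit false

namespace LIV

open Pool.Agent.LibHelper3 CMG Finset

theorem lbp_wt {A A' y : ℝ} (hA : 0 ≤ A) (hA' : 0 ≤ A') (hy : 0 ≤ y) (h : A ≤ A' + y) :
    wt A' ≤ (1 + y) ^ 2 * wt A := by
  unfold wt
  rw [mul_one_div, div_le_div_iff₀ (by positivity) (by positivity), one_mul, ← mul_pow]
  refine pow_le_pow_left₀ (by positivity) ?_ 2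
  nlinarith [mul_nonneg hA' hy]

theorem lbp_xi (m k : ℕ) (s : ℕ × ℕ) : 0 ≤ xi m k s := by
  unfold xi
  positivity

theorem lbp_key {m k : ℕ} (hm : 1 ≤ m) {σ : ℝ} (hσ : σ = 1 ∨ σ = -1) {c c' : ℕ} {a s : ℕ × ℕ}
    (ha : a.1 = c) (h0 : 0 ≤ σ * (((rp (m ^ 2) k a).1 : ℝ) - c'))
    (hs : 0 ≤ σ * (((rp (m ^ 2) k s).1 : ℝ) - c')) (hsc : 0 ≤ σ * ((s.1 : ℝ) - c)) :
    wt (1 / (m : ℝ) * (σ * (((rp (m ^ 2) k s).1 : ℝ) - c'))) ≤
      (1 + xi m k a + xi m k s) ^ 2 * wt (σ * ((s.1 : ℝ) - c) / m) := by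
  have hmr : (0 : ℝ) < m := by exact_mod_cast hm
  have e : 1 + xi m k a + xi m k s = 1 + (xi m k a + xi m k s) := by ring
  rw [e]
  refine lbp_wt (by positivity) (by positivity) (add_nonneg (lbp_xi _ _ _) (lbp_xi _ _ _)) ?_
  unfold xi
  rw [← add_div, one_div_mul_eq_div, ← add_div]
  refine div_le_div_of_nonneg_right ?_ hmr.le
  have h1 := abs_le.1 (le_refl |((rp (m ^ 2) k a).1 : ℝ) - a.1 - (m : ℝ) ^ 2 / 2|)
  have h2 := abs_le.1 (le_refl |((rp (m ^ 2) k s).1 : ℝ) - s.1 - (m : ℝ) ^ 2 / 2|)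
  rw [ha] at h1
  rw [ha]
  rcases hσ with rfl | rfl
  · linarith [h1.1, h1.2, h2.1, h2.2]
  · linarith [h1.1, h1.2, h2.1, h2.2]

theorem lbp (h1 : StAdj1) (h2 : StAdj2) : StLBP := by
  intro m k σ θ c c' F a l hm hσ hE hE' hl ha
  set φ : ℕ × ℕ → ℝ := fun x => pw (rt (m ^ 2) k θ) x * wt (1 / (m : ℝ) * (σ * ((x.1 : ℝ) - c'))) with hφ
  have hφ0 : ∀ x, 0 ≤ φ x := fun x => mul_nonneg (pw_nonneg _ _) (wt_nonneg _)
  have hpot : pot (1 / (m : ℝ)) (rt (m ^ 2) k θ) σ c' (runF (m ^ 2) k F) =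
      ∑ x ∈ (a :: l).toFinset.image (rp (m ^ 2) k), φ x := by
    rw [pot, winn_runF, hl]
  have himg : ∀ s ∈ F, 0 ≤ σ * (((rp (m ^ 2) k s).1 : ℝ) - c') := fun s hs =>
    hE'.1 _ (mem_runF.2 ⟨s, hs, rfl⟩)
  have hmem : ∀ s ∈ a :: l, s ∈ F := fun s hs => by
    rw [← hl]
    exact List.mem_toFinset.2 hs
  have haF : a ∈ F := hmem a List.mem_cons_self
  have hpt : ∀ s ∈ a :: l, φ (rp (m ^ 2) k s) ≤
      (pw (rt (m ^ 2) k θ) (rp (m ^ 2) k s) * (1 + xi m k a + xi m k s) ^ 2) *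
        wt (σ * ((s.1 : ℝ) - c) / m) := by
    intro s hs
    have hk := lbp_key (k := k) hm hσ ha (himg a haF) (himg s (hmem s hs)) (hE.1 s (hmem s hs))
    calc φ (rp (m ^ 2) k s) ≤ pw (rt (m ^ 2) k θ) (rp (m ^ 2) k s) *
          ((1 + xi m k a + xi m k s) ^ 2 * wt (σ * ((s.1 : ℝ) - c) / m)) :=
          mul_le_mul_of_nonneg_left hk (pw_nonneg _ _)
      _ = _ := by ring
  rw [hpot]
  refine (h1 (rp (m ^ 2) k) φ a l hφ0).trans (add_le_add ?_ ?_)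
  · refine (hpt a List.mem_cons_self).trans (le_of_eq ?_)
    rw [ha, sub_self, mul_zero, zero_div, wt_zero, mul_one]
  · refine h2.2.1 _ _ (fun _ _ => True) (a :: l) (List.pairwise_of_forall fun _ _ => trivial) ?_
    intro s _ s' hs' _
    rw [mul_assoc]
    refine mul_le_mul_of_nonneg_left (hpt s' hs') ?_
    split_ifs <;> norm_num

end LIV
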