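import Pool.Agent.LIV.St
import Pool.Agent.Lib_helper3.PR.Final
import Pool.Agent.Lib_helper3.UPD.Final

/-!
# LOD: predecessors of `a` in the progressions `3 ^ e * q + a₀`
-/

set_option autoImplicit false

namespace LIV

open Pool.Agent.LibHelper3 CMG Finset Filter Topology

theorem lod_inv (a : ℕ) : ∀ n, a < n → (n ∈ {n : ℕ | ∃ s, collatz^[s] n = a} ↔
    collatz n ∈ {n : ℕ | ∃ s, collatz^[s] n = a}) := by
  intro n hn
  constructor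
  · rintro ⟨k, hk⟩
    rcases Nat.eq_zero_or_pos k with rfl | hk0
    · rw [Function.iterate_zero, id] at hk
      omega
    · obtain ⟨k', rfl⟩ : ∃ k', k = k' + 1 := ⟨k - 1, by omega⟩
      exact ⟨k', by rwa [Function.iterate_succ_apply] at hk⟩
  · rintro ⟨k, hk⟩
    exact ⟨k + 1, by rwa [Function.iterate_succ_apply]⟩

/-- the elements of the class are counted by `q` -/
theorem lod_count (P : ℕ → Prop) (d a₀ Q : ℕ) :
    ({n : ℕ | 1 ≤ n ∧ n ≤ d * Q + a₀ ∧ n ∈ {n : ℕ | P n} ∧ n ≡ a₀ [MOD d]}.ncard : ℝ) ≤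
      ({q : ℕ | q ≤ Q ∧ P (d * q + a₀)}.ncard : ℝ) + a₀ := by
  have hfin : {q : ℕ | q ≤ Q ∧ P (d * q + a₀)}.Finite :=
    (Set.finite_Iic Q).subset fun q hq => hq.1
  have hsub : {n : ℕ | 1 ≤ n ∧ n ≤ d * Q + a₀ ∧ n ∈ {n : ℕ | P n} ∧ n ≡ a₀ [MOD d]} ⊆
      (fun q => d * q + a₀) '' {q : ℕ | q ≤ Q ∧ P (d * q + a₀)} ∪ ((Finset.range a₀ : Finset ℕ) : Set ℕ) := by
    rintro n ⟨h1, h2, h3, h4⟩
    by_cases hn : n < a₀
    · right
      exact Finset.mem_coe.2 (Finset.mem_range.2 hn)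
    · left
      push Not at hn
      obtain ⟨q, hq⟩ := (Nat.modEq_iff_dvd' hn).1 h4.symm
      have hn2 : n = d * q + a₀ := by omega
      by_cases hqQ : q ≤ Q
      · refine ⟨q, ⟨hqQ, ?_⟩, hn2.symm⟩
        rw [← hn2]
        exact h3
      · refine ⟨Q, ⟨le_rfl, ?_⟩, ?_⟩
        · have h5 : d * Q + a₀ = n := by
            have h6 : d * Q ≤ d * q := Nat.mul_le_mul_left _ (by omega)
            omega
          rw [h5]
          exact h3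
        · show d * Q + a₀ = n
          have h6 : d * Q ≤ d * q := Nat.mul_le_mul_left _ (by omega)
          omega
  have h1 : ({n : ℕ | 1 ≤ n ∧ n ≤ d * Q + a₀ ∧ n ∈ {n : ℕ | P n} ∧ n ≡ a₀ [MOD d]}.ncard) ≤
      ({q : ℕ | q ≤ Q ∧ P (d * q + a₀)}.ncard) + a₀ := by
    refine (Set.ncard_le_ncard hsub ((hfin.image _).union (Finset.finite_toSet _))).trans ?_
    refine (Set.ncard_union_le _ _).trans ?_
    apply add_le_add
    · exact Set.ncard_image_le hfin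
    · rw [Set.ncard_coe_finset, Finset.card_range]
  exact_mod_cast h1

theorem lod : StLod := by
  obtain ⟨H, C, hC, hlev⟩ := PR.level 1
  obtain ⟨c₁, hc₁, hden⟩ := UPD.uniform_density
  refine ⟨H + 3, c₁ / 8, by positivity, fun a ha => ?_⟩
  obtain ⟨δ, -, hδ, hlim⟩ := hden a
  have hδ1 := hδ ha
  have ha0 : 0 < a := Nat.pos_of_ne_zero fun h => ha (h ▸ dvd_zero 3)
  have haR : (0 : ℝ) < a := by exact_mod_cast ha0
  have hδ0 : 0 < δ := lt_of_lt_of_le (by positivity) hδ1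
  -- the density
  have hev1 : ∀ᶠ x : ℕ in atTop, δ / 2 <
      ({n : ℕ | 1 ≤ n ∧ n ≤ x ∧ ∃ s, collatz^[s] n = a}.ncard : ℝ) / x :=
    hlim.eventually_const_lt (by linarith)
  have hlog : Tendsto (fun x : ℕ => Real.log (x : ℝ)) atTop atTop :=
    Real.tendsto_log_atTop.comp tendsto_natCast_atTop_atTop
  have hev2 : ∀ᶠ x : ℕ in atTop, 4 * C / δ + 1 ≤ Real.log (x : ℝ) :=
    hlog.eventually_ge_atTop _
  have hev3 : ∀ᶠ x : ℕ in atTop, (8 / δ) ^ 2 ≤ (x : ℝ) :=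
    tendsto_natCast_atTop_atTop.eventually_ge_atTop _
  obtain ⟨X₀, hX₀⟩ := eventually_atTop.1 ((hev1.and hev2).and hev3)
  refine ⟨X₀ + (a + 2) ^ H + 2, ?_⟩
  intro t e a₀ Q het ha₀ hQ hQ₀
  set x : ℕ := 3 ^ e * Q + a₀ with hx
  have h3e : 1 ≤ 3 ^ e := Nat.one_le_pow _ _ (by norm_num)
  have hQx : Q ≤ x := by
    have : 1 * Q ≤ 3 ^ e * Q := Nat.mul_le_mul_right _ h3e
    omega
  have hQX : X₀ ≤ Q := by omega
  obtain ⟨⟨e1, e2⟩, -⟩ := hX₀ x (hQX.trans hQx)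
  obtain ⟨-, e3⟩ := hX₀ Q hQX
  have hx0 : 0 < x := by omega
  have hxR : (0 : ℝ) < x := by exact_mod_cast hx0
  have hlog0 : 0 < Real.log (x : ℝ) := by
    have : 0 ≤ 4 * C / δ := by positivity
    linarith
  have hQR : (0 : ℝ) < Q := by
    have : 0 < Q := by omega
    exact_mod_cast this
  -- level of distribution
  have hdH : (3 ^ e) ^ H ≤ x := by
    have h1 : (3 ^ e) ^ H ≤ 3 ^ (t * (H + 3)) := by
      rw [← pow_mul]
      apply Nat.pow_le_pow_right (by norm_num)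
      exact Nat.mul_le_mul het (by omega)
    exact h1.trans (hQ.trans hQx)
  have hlv := hlev {n : ℕ | ∃ s, collatz^[s] n = a} a (lod_inv a) x (3 ^ e) a₀ (by omega)
    (Odd.pow (by decide)) hdH (by omega)
  have hlv2 := (abs_le.1 hlv).1
  have hcnt := lod_count (fun n => ∃ s, collatz^[s] n = a) (3 ^ e) a₀ Q
  rw [← hx] at hcnt
  set N1 : ℝ := ({n : ℕ | 1 ≤ n ∧ n ≤ x ∧ n ∈ {n : ℕ | ∃ s, collatz^[s] n = a} ∧
    n ≡ a₀ [MOD 3 ^ e]}.ncard : ℝ) with hN1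
  set N2 : ℝ := ({n : ℕ | 1 ≤ n ∧ n ≤ x ∧ ∃ s, collatz^[s] n = a}.ncard : ℝ) with hN2
  have hlv3 : -(C * (x : ℝ) / (((3 ^ e : ℕ) : ℝ) * Real.log (x : ℝ) ^ 1)) ≤
      N1 - N2 / ((3 ^ e : ℕ) : ℝ) := hlv2
  have hd0 : (0 : ℝ) < ((3 ^ e : ℕ) : ℝ) := by
    have : 0 < 3 ^ e := h3e
    exact_mod_cast this
  have hN2x : δ / 2 * x ≤ N2 := by
    rw [lt_div_iff₀ hxR] at e1
    exact e1.le
  have hA : δ / 2 * x / ((3 ^ e : ℕ) : ℝ) ≤ N2 / ((3 ^ e : ℕ) : ℝ) :=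
    div_le_div_of_nonneg_right hN2x hd0.le
  have hB : C * (x : ℝ) / (((3 ^ e : ℕ) : ℝ) * Real.log (x : ℝ) ^ 1) ≤
      δ / 4 * x / ((3 ^ e : ℕ) : ℝ) := by
    rw [pow_one, div_le_div_iff₀ (by positivity) hd0]
    have h1 : 4 * C / δ ≤ Real.log (x : ℝ) := by linarith
    rw [div_le_iff₀ hδ0] at h1
    have h2 : C ≤ δ / 4 * Real.log (x : ℝ) := by linarith
    calc C * (x : ℝ) * ((3 ^ e : ℕ) : ℝ) = C * ((x : ℝ) * ((3 ^ e : ℕ) : ℝ)) := by ring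
      _ ≤ (δ / 4 * Real.log (x : ℝ)) * ((x : ℝ) * ((3 ^ e : ℕ) : ℝ)) :=
        mul_le_mul_of_nonneg_right h2 (by positivity)
      _ = δ / 4 * (x : ℝ) * (((3 ^ e : ℕ) : ℝ) * Real.log (x : ℝ)) := by ring
  have hD : δ / 4 * Q ≤ δ / 4 * x / ((3 ^ e : ℕ) : ℝ) := by
    rw [le_div_iff₀ hd0]
    have h1 : (Q : ℝ) * ((3 ^ e : ℕ) : ℝ) ≤ x := by
      have : Q * 3 ^ e ≤ x := by
        rw [mul_comm]
        omega
      exact_mod_cast this
    calc δ / 4 * (Q : ℝ) * ((3 ^ e : ℕ) : ℝ) = δ / 4 * ((Q : ℝ) * ((3 ^ e : ℕ) : ℝ)) := by ring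
      _ ≤ δ / 4 * x := mul_le_mul_of_nonneg_left h1 (by positivity)
  have hN1 : δ / 4 * Q ≤ N1 := by
    have h1 : δ / 2 * x / ((3 ^ e : ℕ) : ℝ) = δ / 4 * x / ((3 ^ e : ℕ) : ℝ) +
        δ / 4 * x / ((3 ^ e : ℕ) : ℝ) := by ring
    linarith
  -- the small elements
  have ha₀Q : (a₀ : ℝ) ≤ δ / 8 * Q := by
    have h1 : a₀ ^ 2 ≤ Q := by
      have h2 : a₀ ^ 2 ≤ (4 ^ t) ^ 2 := Nat.pow_le_pow_left ha₀ 2
      have h3 : (4 ^ t) ^ 2 ≤ 3 ^ (t * (H + 3)) := by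
        have h4 : (4 ^ t) ^ 2 = 16 ^ t := by
          rw [← pow_mul, mul_comm, pow_mul]
          norm_num
        have h5 : 3 ^ (t * 3) = 27 ^ t := by
          rw [mul_comm, pow_mul]
          norm_num
        have h6 : 16 ^ t ≤ 27 ^ t := Nat.pow_le_pow_left (by norm_num) t
        have h7 : 3 ^ (t * 3) ≤ 3 ^ (t * (H + 3)) := by
          apply Nat.pow_le_pow_right (by norm_num)
          exact Nat.mul_le_mul_left _ (by omega)
        omega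
      exact h2.trans (h3.trans hQ)
    have h2 : (a₀ : ℝ) ^ 2 ≤ Q := by exact_mod_cast h1
    have h3 : (a₀ * (8 / δ)) ^ 2 ≤ (Q : ℝ) ^ 2 := by
      rw [mul_pow]
      calc (a₀ : ℝ) ^ 2 * (8 / δ) ^ 2 ≤ (Q : ℝ) * Q :=
            mul_le_mul h2 e3 (by positivity) hQR.le
        _ = (Q : ℝ) ^ 2 := by ring
    have h4 : (a₀ : ℝ) * (8 / δ) ≤ Q := (sq_le_sq₀ (by positivity) hQR.le).1 h3
    have h6 : (a₀ : ℝ) = (a₀ * (8 / δ)) * (δ / 8) := by field_simp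
    rw [h6]
    calc (a₀ : ℝ) * (8 / δ) * (δ / 8) ≤ Q * (δ / 8) :=
          mul_le_mul_of_nonneg_right h4 (by positivity)
      _ = δ / 8 * Q := by ring
  have hfin : c₁ / 8 / a * Q ≤ δ / 8 * Q := by
    apply mul_le_mul_of_nonneg_right _ hQR.le
    calc c₁ / 8 / a = c₁ / a / 8 := by ring
      _ ≤ δ / 8 := by linarith
  linarith

end LIV
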