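import Pool.Agent.LIV.St

set_option autoImplicit false

namespace LIV

open Finset

/-- the radius of a neighbourhood of the multiples of `2 ^ i` -/
def lvl_R (K i : ℕ) : ℕ := rho K i + (K * (i + 1)) ^ 2

/-- the property of a level -/
def lvl_P (K W i : ℕ) : Prop :=
  6 ≤ i ∧ ∀ d : ℕ, d ≤ W + rho K i → W ≤ d + rho K i → ¬ 2 ^ (i + 1) ∣ d

/-- neighbourhoods of the positive multiples of `2 ^ i` -/
def lvl_S (K i d : ℕ) : Prop :=
  ∃ m, 1 ≤ m ∧ d ≤ m * 2 ^ i + lvl_R K i ∧ m * 2 ^ i ≤ d + lvl_R K i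

open Classical in
/-- cost per unit -/
noncomputable def lvl_kap (K K₁ N d : ℕ) : ℕ :=
  49 * K₁ + ∑ i ∈ range (N + 1), if lvl_S K i d then K₁ * (i + 1) ^ 2 else 0

/-- total cost -/
noncomputable def lvl_F (K K₁ N W : ℕ) : ℕ := ∑ d ∈ Icc 1 W, lvl_kap K K₁ N d

theorem lvl_rho_mono {K i j : ℕ} (h : i ≤ j) : rho K i ≤ rho K j := by
  unfold rho
  gcongr

open Classical in
theorem lvl_count (K i W : ℕ) :
    ((Icc 1 W).filter (fun d => lvl_S K i d)).card ≤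
      ((W + lvl_R K i) / 2 ^ i) * (2 * lvl_R K i + 1) := by
  have hsub : (Icc 1 W).filter (fun d => lvl_S K i d) ⊆
      (Icc 1 ((W + lvl_R K i) / 2 ^ i)).biUnion
        (fun m => Icc (m * 2 ^ i - lvl_R K i) (m * 2 ^ i + lvl_R K i)) := by
    intro d hd
    rw [mem_filter, mem_Icc] at hd
    obtain ⟨⟨h1, h2⟩, m, hm1, hm2, hm3⟩ := hd
    rw [mem_biUnion]
    refine ⟨m, ?_, ?_⟩
    · rw [mem_Icc]
      refine ⟨hm1, ?_⟩
      rw [Nat.le_div_iff_mul_le (by positivity)]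
      omega
    · rw [mem_Icc]
      omega
  refine (card_le_card hsub).trans ?_
  refine (card_biUnion_le_card_mul _ _ (2 * lvl_R K i + 1) ?_).trans ?_
  · intro m _
    rw [Nat.card_Icc]
    omega
  · rw [Nat.card_Icc]
    exact Nat.mul_le_mul_right _ (Nat.add_sub_cancel _ 1).le

theorem lvl_series : ∃ Q : ℕ, ∀ N : ℕ,
    ∑ i ∈ range N, ((i : ℝ) + 3) ^ 8 / 2 ^ i ≤ (Q : ℝ) := by
  have h1 : Summable (fun n : ℕ => (n : ℝ) ^ 8 * (1 / 2 : ℝ) ^ n) :=
    summable_pow_mul_geometric_of_norm_lt_one 8 (by norm_num)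
  have h2 : Summable (fun n : ℕ => (((n + 3 : ℕ) : ℝ)) ^ 8 * (1 / 2 : ℝ) ^ (n + 3)) :=
    (summable_nat_add_iff 3).2 h1
  have h3 : Summable (fun n : ℕ => ((n : ℝ) + 3) ^ 8 / 2 ^ n) := by
    refine (h2.mul_left 8).congr fun n => ?_
    push_cast
    rw [pow_add, one_div, inv_pow]
    field_simp
    norm_num
  obtain ⟨Q, hQ⟩ := exists_nat_ge (∑' n : ℕ, ((n : ℝ) + 3) ^ 8 / 2 ^ n)
  refine ⟨Q, fun N => ?_⟩
  exact (h3.sum_le_tsum _ fun i _ => by positivity).trans hQ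

theorem lvl_R_le (K i : ℕ) : (lvl_R K i : ℝ) ≤ K ^ 2 * ((i : ℝ) + 3) ^ 3 := by
  unfold lvl_R rho
  push_cast
  have h : ((i : ℝ) + 2) * (K * (i + 1)) ^ 2 + (K * ((i : ℝ) + 1)) ^ 2 =
      (K : ℝ) ^ 2 * (((i : ℝ) + 3) * ((i : ℝ) + 1) ^ 2) := by ring
  rw [h]
  apply mul_le_mul_of_nonneg_left _ (by positivity)
  have hi : (0 : ℝ) ≤ i := by positivity
  have : ((i : ℝ) + 1) ^ 2 ≤ ((i : ℝ) + 3) ^ 2 := pow_le_pow_left₀ (by linarith) (by linarith) 2
  calc ((i : ℝ) + 3) * ((i : ℝ) + 1) ^ 2 ≤ ((i : ℝ) + 3) * ((i : ℝ) + 3) ^ 2 :=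
        mul_le_mul_of_nonneg_left this (by linarith)
    _ = _ := by ring

theorem lvl_term (K i W : ℕ) (hK : 1 ≤ K) :
    ((((W + lvl_R K i) / 2 ^ i) * (2 * lvl_R K i + 1) * (i + 1) ^ 2 : ℕ) : ℝ) ≤
      6 * K ^ 4 * ((W : ℝ) + 1) * (((i : ℝ) + 3) ^ 8 / 2 ^ i) := by
  set r : ℝ := (lvl_R K i : ℝ) with hr
  have hr0 : 0 ≤ r := by positivity
  have hi : (0 : ℝ) ≤ i := by positivity
  have hW : (0 : ℝ) ≤ W := by positivity
  have hK' : (1 : ℝ) ≤ K := by exact_mod_cast hK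
  have hR := lvl_R_le K i
  rw [← hr] at hR
  set P : ℝ := (K : ℝ) ^ 2 * ((i : ℝ) + 3) ^ 3 with hP
  have hP1 : 1 ≤ P := by
    have a1 : (1 : ℝ) ≤ (K : ℝ) ^ 2 := one_le_pow₀ hK'
    have a2 : (1 : ℝ) ≤ ((i : ℝ) + 3) ^ 3 := one_le_pow₀ (by linarith)
    calc (1 : ℝ) = 1 * 1 := by ring
      _ ≤ P := mul_le_mul a1 a2 (by norm_num) (by positivity)
  have h1 : (((W + lvl_R K i) / 2 ^ i : ℕ) : ℝ) ≤ ((W : ℝ) + r) / 2 ^ i := by
    have := @Nat.cast_div_le ℝ _ _ _ (W + lvl_R K i) (2 ^ i)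
    push_cast at this
    exact this
  have h2 : ((W : ℝ) + r) / 2 ^ i ≤ ((W : ℝ) + 1) * (2 * P) / 2 ^ i := by
    apply div_le_div_of_nonneg_right _ (by positivity)
    nlinarith
  push_cast
  rw [← hr]
  have h3 : 2 * r + 1 ≤ 3 * P := by linarith
  have h4 : ((i : ℝ) + 1) ^ 2 ≤ ((i : ℝ) + 3) ^ 2 := pow_le_pow_left₀ (by linarith) (by linarith) 2
  have h5 : (((W + lvl_R K i) / 2 ^ i : ℕ) : ℝ) * (2 * r + 1) * ((i : ℝ) + 1) ^ 2 ≤
      (((W : ℝ) + 1) * (2 * P) / 2 ^ i) * (3 * P) * ((i : ℝ) + 3) ^ 2 := by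
    apply mul_le_mul _ h4 (by positivity) (by positivity)
    apply mul_le_mul (h1.trans h2) h3 (by positivity) (by positivity)
  refine h5.trans (le_of_eq ?_)
  rw [hP]
  ring

open Classical in
theorem lvl_F_le (K K₁ N W Q : ℕ) (hK : 1 ≤ K)
    (hQ : ∀ N : ℕ, ∑ i ∈ range N, ((i : ℝ) + 3) ^ 8 / 2 ^ i ≤ (Q : ℝ)) :
    lvl_F K K₁ N W ≤ (49 * K₁ + 6 * K₁ * K ^ 4 * Q) * (W + 1) := by
  have h1 : lvl_F K K₁ N W = 49 * K₁ * W + ∑ i ∈ range (N + 1),
      ((Icc 1 W).filter (fun d => lvl_S K i d)).card * (K₁ * (i + 1) ^ 2) := by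
    unfold lvl_F lvl_kap
    rw [sum_add_distrib, sum_const, Nat.card_Icc, smul_eq_mul, sum_comm]
    congr 1
    · rw [Nat.add_sub_cancel]
      ring
    · refine sum_congr rfl fun i _ => ?_
      rw [← sum_filter, sum_const, smul_eq_mul]
  have h2 : (∑ i ∈ range (N + 1),
      ((Icc 1 W).filter (fun d => lvl_S K i d)).card * (K₁ * (i + 1) ^ 2) : ℕ) ≤
      ∑ i ∈ range (N + 1), K₁ * (((W + lvl_R K i) / 2 ^ i) * (2 * lvl_R K i + 1) * (i + 1) ^ 2) := by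
    refine sum_le_sum fun i _ => ?_
    calc _ ≤ ((W + lvl_R K i) / 2 ^ i) * (2 * lvl_R K i + 1) * (K₁ * (i + 1) ^ 2) :=
          Nat.mul_le_mul_right _ (lvl_count K i W)
      _ = _ := by ring
  have h3 : ((∑ i ∈ range (N + 1),
      K₁ * (((W + lvl_R K i) / 2 ^ i) * (2 * lvl_R K i + 1) * (i + 1) ^ 2) : ℕ) : ℝ) ≤
      K₁ * (6 * K ^ 4 * ((W : ℝ) + 1) * Q) := by
    rw [← mul_sum, Nat.cast_mul, Nat.cast_sum]
    apply mul_le_mul_of_nonneg_left _ (by positivity)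
    calc _ ≤ ∑ i ∈ range (N + 1), 6 * (K : ℝ) ^ 4 * ((W : ℝ) + 1) * (((i : ℝ) + 3) ^ 8 / 2 ^ i) :=
          sum_le_sum fun i _ => lvl_term K i W hK
      _ = 6 * (K : ℝ) ^ 4 * ((W : ℝ) + 1) * ∑ i ∈ range (N + 1), (((i : ℝ) + 3) ^ 8 / 2 ^ i) := by
          rw [mul_sum]
      _ ≤ _ := mul_le_mul_of_nonneg_left (hQ _) (by positivity)
  have h4 : ((∑ i ∈ range (N + 1),
      K₁ * (((W + lvl_R K i) / 2 ^ i) * (2 * lvl_R K i + 1) * (i + 1) ^ 2) : ℕ)) ≤
      K₁ * (6 * K ^ 4 * (W + 1) * Q) := by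
    have : ((K₁ : ℝ) * (6 * K ^ 4 * ((W : ℝ) + 1) * Q)) =
        ((K₁ * (6 * K ^ 4 * (W + 1) * Q) : ℕ) : ℝ) := by push_cast; ring
    rw [this] at h3
    exact_mod_cast h3
  rw [h1]
  calc _ ≤ 49 * K₁ * (W + 1) + K₁ * (6 * K ^ 4 * (W + 1) * Q) := by
        apply Nat.add_le_add
        · exact Nat.mul_le_mul_left _ (Nat.le_succ W)
        · exact h2.trans h4
    _ = _ := by ring

theorem lvl_W₀ (K : ℕ) : ∃ W₀ : ℕ, 32 ≤ W₀ ∧ ∀ W : ℕ, W₀ ≤ W → rho K (Nat.log 2 W + 1) < W := by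
  have h1 : Filter.Tendsto (fun n : ℕ => (n : ℝ) ^ 3 / 2 ^ n) Filter.atTop (nhds 0) :=
    tendsto_pow_const_div_const_pow_of_one_lt 3 (by norm_num)
  have h2 : Filter.Tendsto (fun n : ℕ => ((n + 3 : ℕ) : ℝ) ^ 3 / 2 ^ (n + 3)) Filter.atTop
      (nhds 0) := (Filter.tendsto_add_atTop_iff_nat 3).2 h1
  have hpos : (0 : ℝ) < 1 / (8 * ((K : ℝ) ^ 2 + 1)) := by positivity
  have h3 := (h2.eventually (gt_mem_nhds hpos))
  rw [Filter.eventually_atTop] at h3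
  obtain ⟨l₀, hl⟩ := h3
  refine ⟨max 32 (2 ^ l₀), le_max_left _ _, fun W hW => ?_⟩
  have hW1 : 32 ≤ W := (le_max_left _ _).trans hW
  have hW2 : 2 ^ l₀ ≤ W := (le_max_right _ _).trans hW
  set l := Nat.log 2 W with hl'
  have hl0 : l₀ ≤ l := by
    rw [hl']
    exact Nat.le_log_of_pow_le (by norm_num) hW2
  have h4 := hl l hl0
  have h5 : 2 ^ l ≤ W := Nat.pow_log_le_self 2 (by omega)
  refine lt_of_lt_of_le ?_ h5
  have h6 : ((l : ℝ) + 3) ^ 3 * ((K : ℝ) ^ 2 + 1) < 2 ^ l := by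
    push_cast at h4
    rw [div_lt_div_iff₀ (by positivity) (by positivity), one_mul, pow_add] at h4
    have : (2 : ℝ) ^ 3 = 8 := by norm_num
    rw [this] at h4
    linarith
  have h7 : (rho K (l + 1) : ℝ) ≤ ((l : ℝ) + 3) ^ 3 * ((K : ℝ) ^ 2 + 1) := by
    unfold rho
    push_cast
    have hl1 : (0 : ℝ) ≤ l := by positivity
    have e1 : ((l : ℝ) + 1 + 2) * (K * ((l : ℝ) + 1 + 1)) ^ 2 =
        (((l : ℝ) + 3) * ((l : ℝ) + 2) ^ 2) * (K : ℝ) ^ 2 := by ring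
    rw [e1]
    have e2 : ((l : ℝ) + 3) * ((l : ℝ) + 2) ^ 2 ≤ ((l : ℝ) + 3) ^ 3 := by
      have : ((l : ℝ) + 2) ^ 2 ≤ ((l : ℝ) + 3) ^ 2 := pow_le_pow_left₀ (by linarith) (by linarith) 2
      calc _ ≤ ((l : ℝ) + 3) * ((l : ℝ) + 3) ^ 2 := mul_le_mul_of_nonneg_left this (by linarith)
        _ = _ := by ring
    exact mul_le_mul e2 (by linarith) (by positivity) (by positivity)
  have h8 : (rho K (l + 1) : ℝ) < ((2 ^ l : ℕ) : ℝ) := by
    push_cast
    exact h7.trans_lt h6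
  exact_mod_cast h8

theorem lvl_exists (K W : ℕ) (h32 : 32 ≤ W) (h : rho K (Nat.log 2 W + 1) < W) :
    lvl_P K W (Nat.log 2 W + 1) := by
  constructor
  · have : 5 ≤ Nat.log 2 W := Nat.le_log_of_pow_le (by norm_num) (by omega)
    omega
  · intro d hd1 hd2 hdvd
    have hd0 : 0 < d := by omega
    have h1 := Nat.le_of_dvd hd0 hdvd
    have h2 : W < 2 ^ (Nat.log 2 W + 1) := Nat.lt_pow_succ_log_self (by norm_num) W
    have h3 : 2 ^ (Nat.log 2 W + 1 + 1) = 2 * 2 ^ (Nat.log 2 W + 1) := by ring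
    omega

open Classical in
theorem lvl : StLvl := by
  intro K K₁ hK
  obtain ⟨Q, hQ⟩ := lvl_series
  obtain ⟨W₀, hW32, hW₀⟩ := lvl_W₀ K
  refine ⟨49 * K₁ + 6 * K₁ * K ^ 4 * Q, W₀, fun N => ?_⟩
  refine ⟨fun W => if h : ∃ i, lvl_P K W i then Nat.find h else 6, lvl_F K K₁ N, ?_, ?_⟩
  · intro W
    exact lvl_F_le K K₁ N W Q hK hQ
  · intro W hW hWN
    have hj := lvl_exists K W (hW32.trans hW) (hW₀ W hW)
    have hex : ∃ i, lvl_P K W i := ⟨_, hj⟩
    simp only [dif_pos hex]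
    have hPi : lvl_P K W (Nat.find hex) := Nat.find_spec hex
    have hij : Nat.find hex ≤ Nat.log 2 W + 1 := Nat.find_min' hex hj
    have hmin : ∀ j, j < Nat.find hex → ¬ lvl_P K W j := fun j hj => Nat.find_min hex hj
    generalize Nat.find hex = i at hPi hij hmin ⊢
    refine ⟨hPi.1, hPi.2, ?_⟩
    intro W' hW'
    -- the cost per unit on the last stretch
    have hkap : ∀ d, W < d + (K * (i + 1)) ^ 2 → d ≤ W → K₁ * (i + 1) ^ 2 ≤ lvl_kap K K₁ N d := by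
      intro d hd1 hd2
      rcases Nat.lt_or_ge 6 i with h7 | h7
      · -- i ≥ 7
        have hnot : ¬ lvl_P K W (i - 1) := hmin (i - 1) (by omega)
        have h6 : 6 ≤ i - 1 := by omega
        have e1 : i - 1 + 1 = i := by omega
        unfold lvl_P at hnot
        push Not at hnot
        obtain ⟨d₀, hd0a, hd0b, hd0c⟩ := hnot h6
        rw [e1] at hd0c
        have hr1 : rho K (i - 1) ≤ rho K i := lvl_rho_mono (by omega)
        have hr2 : rho K i ≤ rho K (Nat.log 2 W + 1) := lvl_rho_mono hij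
        have hr3 := hW₀ W hW
        obtain ⟨m, hm⟩ := hd0c
        have hm1 : 1 ≤ m := by
          rcases Nat.eq_zero_or_pos m with h0 | h0
          · rw [h0, mul_zero] at hm
            omega
          · exact h0
        have hS : lvl_S K i d := by
          refine ⟨m, hm1, ?_, ?_⟩
          · rw [mul_comm, ← hm]
            unfold lvl_R
            omega
          · rw [mul_comm, ← hm]
            unfold lvl_R
            omega
        have hiN : i ∈ range (N + 1) := by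
          rw [mem_range]
          have : Nat.log 2 W + 1 ≤ W := by
            have := Nat.log_lt_self 2 (x := W) (by omega)
            omega
          omega
        unfold lvl_kap
        have : K₁ * (i + 1) ^ 2 ≤ ∑ i ∈ range (N + 1),
            if lvl_S K i d then K₁ * (i + 1) ^ 2 else 0 := by
          have h9 := single_le_sum (f := fun i => if lvl_S K i d then K₁ * (i + 1) ^ 2 else 0)
            (fun _ _ => Nat.zero_le _) hiN
          simp only [if_pos hS] at h9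
          exact h9
        omega
      · have h6 : i = 6 := le_antisymm h7 hPi.1
        unfold lvl_kap
        rw [h6]
        have : K₁ * (6 + 1) ^ 2 = 49 * K₁ := by ring
        omega
    have hsplit : lvl_F K K₁ N W = lvl_F K K₁ N W' + ∑ d ∈ Ioc W' W, lvl_kap K K₁ N d := by
      unfold lvl_F
      have : Icc 1 W = Icc 1 W' ∪ Ioc W' W := by
        ext d
        simp only [mem_Icc, mem_union, mem_Ioc]
        omega
      rw [this, sum_union]
      rw [disjoint_left]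
      intro d hd1 hd2
      rw [mem_Icc] at hd1
      rw [mem_Ioc] at hd2
      omega
    have hlow : K₁ * (i + 1) ^ 4 ≤ ∑ d ∈ Ioc W' W, lvl_kap K K₁ N d := by
      have hsub : Ioc (W - (K * (i + 1)) ^ 2) W ⊆ Ioc W' W := by
        intro d hd
        rw [mem_Ioc] at hd ⊢
        omega
      calc K₁ * (i + 1) ^ 4 ≤ (K * (i + 1)) ^ 2 * (K₁ * (i + 1) ^ 2) := by
            have : 1 ≤ K ^ 2 := Nat.one_le_pow _ _ hK
            calc K₁ * (i + 1) ^ 4 = 1 * (K₁ * (i + 1) ^ 4) := by ring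
              _ ≤ K ^ 2 * (K₁ * (i + 1) ^ 4) := Nat.mul_le_mul_right _ this
              _ = _ := by ring
        _ = ∑ d ∈ Ioc (W - (K * (i + 1)) ^ 2) W, K₁ * (i + 1) ^ 2 := by
            rw [sum_const, Nat.card_Ioc, smul_eq_mul]
            congr 1
            omega
        _ ≤ ∑ d ∈ Ioc (W - (K * (i + 1)) ^ 2) W, lvl_kap K K₁ N d := by
            refine sum_le_sum fun d hd => ?_
            rw [mem_Ioc] at hd
            exact hkap d (by omega) hd.2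
        _ ≤ _ := sum_le_sum_of_subset hsub
    omega

end LIV
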