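import Pool.Agent.LIV.St

/-!
# MOM1: the average of the squared position weight
-/

set_option autoImplicit false

namespace LIV

open Pool.Agent.LibHelper3 CMG Finset

theorem mom1_sqrt (t : ℕ) : ∀ (θ : ℝ) (s : ℕ × ℕ), 0 ≤ up θ s →
    Ek t (fun k => Real.sqrt (up (rt t k θ) (rp t k s))) ≤
      (97 / 100) ^ t * Real.sqrt (up θ s) + 25 * (1 - (97 / 100) ^ t) := by
  induction t with
  | zero =>
    intro θ s hs
    rw [Ek_zero, rt_zero, rp_zero, pow_zero, one_mul]
    linarith
  | succ t ih =>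
    intro θ s hs
    rw [Ek_step t θ s (fun θ s => Real.sqrt (up θ s))]
    have u0 : 0 ≤ up (θ / 2) (ps 0 s) := by
      have := up_ps_nonneg hs 0
      rwa [Nat.cast_zero, zero_add] at this
    have u1 : 0 ≤ up ((1 + θ) / 2) (ps 1 s) := by
      have := up_ps_nonneg hs 1
      rwa [Nat.cast_one] at this
    have h0 := ih (θ / 2) (ps 0 s) u0
    have h1 := ih ((1 + θ) / 2) (ps 1 s) u1
    have hp : (0 : ℝ) ≤ (97 / 100) ^ t := by positivity
    have h3 := mul_le_mul_of_nonneg_left (wina_pt θ s hs) hp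
    rw [pow_succ]
    linarith

theorem mom1 : StMom1 := by
  intro t θ s hs
  have h1 : Ek t (fun k => pw (rt t k θ) (rp t k s) ^ 2) ≤
      Ek t (fun k => 1 + Real.sqrt (up (rt t k θ) (rp t k s))) := by
    refine Ek_mono fun k _ => ?_
    rw [pw_sq]
    have hu := up_rp_nonneg t k hs
    refine Real.sqrt_le_iff.2 ⟨by positivity, ?_⟩
    have h2 := Real.sq_sqrt hu
    have h3 := Real.sqrt_nonneg (up (rt t k θ) (rp t k s))
    nlinarith
  rw [Ek_add, Ek_const] at h1
  have h2 := mom1_sqrt t θ s hs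
  have hp : (0 : ℝ) ≤ (97 / 100) ^ t := by positivity
  have h3 : Real.sqrt (up θ s) ≤ pw θ s ^ 2 := by
    rw [pw_sq]
    exact Real.sqrt_le_sqrt (by linarith)
  have h4 := mul_le_mul_of_nonneg_left h3 hp
  linarith

end LIV
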