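import Pool.Agent.LIV.St

/-!
# Exponential moments of the exponent
-/

set_option autoImplicit false

namespace LIV

open Pool.Agent.LibHelper3 CMG Finset

/-- one digit: the two increments are `0` and `1` in some order -/
theorem mom2_step (s : ℕ × ℕ) :
    ((ps 0 s).1 = s.1 ∧ (ps 1 s).1 = s.1 + 1) ∨ ((ps 0 s).1 = s.1 + 1 ∧ (ps 1 s).1 = s.1) := by
  have h0 : (ps 0 s).1 = s.1 + (3 ^ s.1 * 0 + s.2) % 2 := rfl
  have h1 : (ps 1 s).1 = s.1 + (3 ^ s.1 * 1 + s.2) % 2 := rfl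
  have h3 : 3 ^ s.1 % 2 = 1 := by
    rw [Nat.pow_mod]
    norm_num
  omega

theorem mom2 : StMom2 := by
  intro t
  induction t with
  | zero =>
    intro μ s
    rw [Ek_zero, rp_zero]
    simp
  | succ t ih =>
    intro μ s
    have hG := Ek_step t 0 s (fun _ x => Real.exp (μ * (((x.1 : ℕ) : ℝ) - s.1 -
      ((t + 1 : ℕ) : ℝ) / 2)))
    rw [hG]
    -- one digit
    have key : ∀ (s' : ℕ × ℕ) (e : ℝ), ((s'.1 : ℕ) : ℝ) = s.1 + e →
        Ek t (fun k => Real.exp (μ * (((rp t k s').1 : ℝ) - s.1 - ((t + 1 : ℕ) : ℝ) / 2))) ≤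
          Real.exp (μ * (e - 1 / 2)) * Real.exp (μ ^ 2 * t / 8) := by
      intro s' e he
      have h1 : (fun k : ℕ => Real.exp (μ * (((rp t k s').1 : ℝ) - s.1 -
          ((t + 1 : ℕ) : ℝ) / 2))) = fun k => Real.exp (μ * (e - 1 / 2)) *
            Real.exp (μ * (((rp t k s').1 : ℝ) - s'.1 - t / 2)) := by
        funext k
        rw [← Real.exp_add]
        congr 1
        rw [he]
        push_cast
        ring
      rw [h1, Ek_mul]
      exact mul_le_mul_of_nonneg_left (ih μ s') (Real.exp_pos _).le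
    have hfin : (Real.exp (μ * (0 - 1 / 2)) * Real.exp (μ ^ 2 * t / 8) +
        Real.exp (μ * (1 - 1 / 2)) * Real.exp (μ ^ 2 * t / 8)) / 2 ≤
          Real.exp (μ ^ 2 * ((t + 1 : ℕ) : ℝ) / 8) := by
      have h1 := Real.cosh_le_exp_half_sq (μ / 2)
      rw [Real.cosh_eq] at h1
      have h2 : Real.exp (μ ^ 2 * ((t + 1 : ℕ) : ℝ) / 8) =
          Real.exp ((μ / 2) ^ 2 / 2) * Real.exp (μ ^ 2 * t / 8) := by
        rw [← Real.exp_add]
        congr 1
        push_cast
        ring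
      have h3 : μ * (0 - 1 / 2) = -(μ / 2) := by ring
      have h4 : μ * (1 - 1 / 2) = μ / 2 := by ring
      rw [h2, h3, h4]
      have h5 := mul_le_mul_of_nonneg_right h1 (Real.exp_pos (μ ^ 2 * t / 8)).le
      linarith
    rcases mom2_step s with ⟨ha, hb⟩ | ⟨ha, hb⟩
    · have k0 := key (ps 0 s) 0 (by rw [ha, add_zero])
      have k1 := key (ps 1 s) 1 (by rw [hb]; push_cast; ring)
      linarith
    · have k0 := key (ps 0 s) 1 (by rw [ha]; push_cast; ring)
      have k1 := key (ps 1 s) 0 (by rw [hb, add_zero])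
      linarith

end LIV
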