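import Mathlib
import Pool.Agent.LIV.St

/-!
# MOM3: the eighth moment of the normalised exponent
-/

set_option autoImplicit false

namespace LIV

open Pool.Agent.LibHelper3 CMG Finset

theorem mom3_exp : Real.exp (1 / 8) ≤ 6 / 5 := by
  have h1 : Real.exp (1 / 8) ^ 8 = Real.exp 1 := by
    rw [← Real.exp_nat_mul]
    norm_num
  have h2 := Real.exp_one_lt_d9
  by_contra hc
  push Not at hc
  have h3 : (6 / 5 : ℝ) ^ 8 ≤ Real.exp (1 / 8) ^ 8 :=
    pow_le_pow_left₀ (by norm_num) hc.le 8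
  rw [h1] at h3
  norm_num at h3
  linarith

theorem mom3_pt (z : ℝ) : |z| ^ 8 ≤ 40320 * Real.exp z + 40320 * Real.exp (-z) := by
  have h1 : |z| ^ 8 / (Nat.factorial 8 : ℝ) ≤ Real.exp |z| :=
    Real.pow_div_factorial_le_exp _ (abs_nonneg z) 8
  have h2 : (Nat.factorial 8 : ℝ) = 40320 := by norm_num [Nat.factorial]
  rw [h2, div_le_iff₀ (by norm_num)] at h1
  have h3 : Real.exp |z| ≤ Real.exp z + Real.exp (-z) := by
    rcases abs_cases z with ⟨h, _⟩ | ⟨h, _⟩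
    · rw [h]
      linarith [Real.exp_pos (-z)]
    · rw [h]
      linarith [Real.exp_pos z]
  linarith

theorem mom3 (h : StMom2) : StMom3 := by
  intro m s hm
  have hm0 : (0 : ℝ) < m := by exact_mod_cast hm
  have a1 := h (m ^ 2) (1 / m) s
  have a2 := h (m ^ 2) (-(1 / m)) s
  have e1 : (1 / (m : ℝ)) ^ 2 * ((m ^ 2 : ℕ) : ℝ) / 8 = 1 / 8 := by
    push_cast
    field_simp
  have e2 : (-(1 / (m : ℝ))) ^ 2 * ((m ^ 2 : ℕ) : ℝ) / 8 = 1 / 8 := by
    push_cast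
    field_simp
  rw [e1] at a1
  rw [e2] at a2
  have b1 : Ek (m ^ 2) (fun k => xi m k s ^ 8) ≤ Ek (m ^ 2) (fun k =>
      40320 * Real.exp (1 / m * (((rp (m ^ 2) k s).1 : ℝ) - s.1 - ((m ^ 2 : ℕ) : ℝ) / 2)) +
      40320 * Real.exp (-(1 / m) *
        (((rp (m ^ 2) k s).1 : ℝ) - s.1 - ((m ^ 2 : ℕ) : ℝ) / 2))) := by
    apply Ek_mono
    intro k _
    have c1 : xi m k s =
        |1 / m * (((rp (m ^ 2) k s).1 : ℝ) - s.1 - ((m ^ 2 : ℕ) : ℝ) / 2)| := by
      unfold xi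
      rw [abs_mul, abs_of_pos (by positivity : (0 : ℝ) < 1 / m)]
      push_cast
      ring
    rw [c1, neg_mul]
    exact mom3_pt _
  rw [Ek_add, Ek_mul, Ek_mul] at b1
  have := mom3_exp
  linarith

end LIV
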