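import Pool.Agent.LIV.St

/-!
# MV1: moments of the difference of the exponents
-/

set_option autoImplicit false

namespace LIV

open Pool.Agent.LibHelper3 CMG Finset

theorem mv1_main (W : ℝ) : ∀ (t : ℕ) (s : St), t ≤ dd s →
    av t (fun x => (dd x : ℝ) - W) s = (dd s : ℝ) - W ∧
    av t (fun x => ((dd x : ℝ) - W) ^ 2) s = ((dd s : ℝ) - W) ^ 2 + mv t s ∧
    av t (fun x => ((dd x : ℝ) - W) ^ 4) s ≤
      ((dd s : ℝ) - W) ^ 4 + 6 * t * ((dd s : ℝ) - W) ^ 2 + 3 * (t : ℝ) ^ 2 ∧
    mv t s ≤ t := by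
  intro t
  induction t with
  | zero =>
    intro s _
    simp [av_zero, mv]
  | succ t ih =>
    intro s hs
    rcases Nat.mod_two_eq_zero_or_one (s.a + s.b) with h | h
    · have h0 := dd_even h 0
      have h1 := dd_even h 1
      obtain ⟨a1, a2, a3, a4⟩ := ih (step 0 s) (by omega)
      obtain ⟨b1, b2, b3, b4⟩ := ih (step 1 s) (by omega)
      rw [h0] at a1 a2 a3
      rw [h1] at b1 b2 b3
      have hm : mv (t + 1) s = (mv t (step 0 s) + mv t (step 1 s)) / 2 := by
        show (if (s.a + s.b) % 2 = 1 then (1 : ℝ) else 0) + _ = _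
        rw [if_neg (by omega), zero_add]
      refine ⟨?_, ?_, ?_, ?_⟩
      · rw [av_succ, a1, b1]; ring
      · rw [av_succ, a2, b2, hm]; ring
      · rw [av_succ]
        push_cast
        nlinarith [sq_nonneg ((dd s : ℝ) - W), (Nat.cast_nonneg t : (0 : ℝ) ≤ t)]
      · rw [hm]
        push_cast
        linarith
    · have hd : 1 ≤ dd s := by omega
      have hm : mv (t + 1) s = 1 + (mv t (step 0 s) + mv t (step 1 s)) / 2 := by
        show (if (s.a + s.b) % 2 = 1 then (1 : ℝ) else 0) + _ = _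
        rw [if_pos h]
      have ht0 : (0 : ℝ) ≤ t := Nat.cast_nonneg t
      rcases dd_odd h hd with ⟨h0, h1⟩ | ⟨h1, h0⟩
      · obtain ⟨a1, a2, a3, a4⟩ := ih (step 0 s) (by omega)
        obtain ⟨b1, b2, b3, b4⟩ := ih (step 1 s) (by omega)
        have c0 : (dd (step 0 s) : ℝ) = dd s + 1 := by exact_mod_cast h0
        have c1 : (dd (step 1 s) : ℝ) = dd s - 1 := by
          have : (dd (step 1 s) : ℝ) + 1 = dd s := by exact_mod_cast h1
          linarith
        rw [c0] at a1 a2 a3
        rw [c1] at b1 b2 b3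
        refine ⟨?_, ?_, ?_, ?_⟩
        · rw [av_succ, a1, b1]; ring
        · rw [av_succ, a2, b2, hm]; ring
        · rw [av_succ]
          push_cast
          nlinarith [sq_nonneg ((dd s : ℝ) - W)]
        · rw [hm]
          push_cast
          linarith
      · obtain ⟨a1, a2, a3, a4⟩ := ih (step 0 s) (by omega)
        obtain ⟨b1, b2, b3, b4⟩ := ih (step 1 s) (by omega)
        have c1 : (dd (step 1 s) : ℝ) = dd s + 1 := by exact_mod_cast h1
        have c0 : (dd (step 0 s) : ℝ) = dd s - 1 := by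
          have : (dd (step 0 s) : ℝ) + 1 = dd s := by exact_mod_cast h0
          linarith
        rw [c0] at a1 a2 a3
        rw [c1] at b1 b2 b3
        refine ⟨?_, ?_, ?_, ?_⟩
        · rw [av_succ, a1, b1]; ring
        · rw [av_succ, a2, b2, hm]; ring
        · rw [av_succ]
          push_cast
          nlinarith [sq_nonneg ((dd s : ℝ) - W)]
        · rw [hm]
          push_cast
          linarith

theorem mv1 : StMv1 := by
  intro t s hs
  obtain ⟨h1, h2, h3, h4⟩ := mv1_main (dd s) t s hs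
  rw [sub_self] at h1 h2 h3
  refine ⟨h1, ?_, ?_, h4⟩
  · rw [h2]; ring
  · refine h3.trans (le_of_eq ?_)
    ring

end LIV
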