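import Pool.Agent.LIV.St

/-!
# MV2: the difference of the exponents moves often if it is far from multiples of a large power of 2
-/

set_option autoImplicit false

namespace LIV

open Pool.Agent.LibHelper3 CMG Finset

/-- the periodic potential -/
noncomputable def mv2_psi (k d : ℕ) : ℝ :=
  ((d % 2 ^ k : ℕ) : ℝ) * (2 ^ k - ((d % 2 ^ k : ℕ) : ℝ)) / 2 ^ k

theorem mv2_psi_bd (k d : ℕ) : 0 ≤ mv2_psi k d ∧ mv2_psi k d ≤ 2 ^ k / 4 := by
  unfold mv2_psi
  have h1 : (0 : ℝ) < 2 ^ k := by positivity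
  have h2 : ((d % 2 ^ k : ℕ) : ℝ) ≤ 2 ^ k := by
    have : d % 2 ^ k < 2 ^ k := Nat.mod_lt _ (by positivity)
    have h3 : ((d % 2 ^ k : ℕ) : ℝ) ≤ ((2 ^ k : ℕ) : ℝ) := by exact_mod_cast this.le
    simpa using h3
  have h3 : (0 : ℝ) ≤ ((d % 2 ^ k : ℕ) : ℝ) := Nat.cast_nonneg _
  generalize ((d % 2 ^ k : ℕ) : ℝ) = x at *
  generalize (2 : ℝ) ^ k = M at *
  constructor
  · exact div_nonneg (mul_nonneg h3 (by linarith)) h1.le
  · rw [div_le_iff₀ h1]
    nlinarith [sq_nonneg (M - 2 * x)]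

theorem mv2_mod {m Q r : ℕ} (hr : r < m) : (m * Q + r) % m = r := by
  rw [Nat.mul_add_mod, Nat.mod_eq_of_lt hr]

theorem mv2_psi_step {k : ℕ} (hk : 1 ≤ k) (d : ℕ) :
    (mv2_psi k (d + 2) + mv2_psi k d) / 2 =
      mv2_psi k (d + 1) + (if 2 ^ k ∣ d + 1 then 1 else 0) - 1 / 2 ^ k := by
  unfold mv2_psi
  have hm : 2 ≤ 2 ^ k := by
    calc 2 = 2 ^ 1 := rfl
      _ ≤ 2 ^ k := Nat.pow_le_pow_right (by norm_num) hk
  have e : ((2 : ℝ) ^ k) = ((2 ^ k : ℕ) : ℝ) := by push_cast; rfl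
  rw [e]
  generalize 2 ^ k = m at *
  have h1 : (0 : ℝ) < (m : ℝ) := by
    have : 0 < m := by omega
    exact_mod_cast this
  obtain ⟨Q, r, hr, hd⟩ : ∃ Q r, r < m ∧ d = m * Q + r :=
    ⟨d / m, d % m, Nat.mod_lt _ (by omega), (Nat.div_add_mod d m).symm⟩
  have e0 : d % m = r := by rw [hd]; exact mv2_mod hr
  rcases Nat.lt_or_ge (r + 1) m with h | h
  · have e1 : (d + 1) % m = r + 1 := by
      rw [hd, Nat.add_assoc]
      exact mv2_mod h
    have hnd : ¬ m ∣ d + 1 := by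
      rw [Nat.dvd_iff_mod_eq_zero, e1]
      omega
    rw [if_neg hnd, e0, e1]
    rcases Nat.lt_or_ge (r + 2) m with h' | h'
    · have e2 : (d + 2) % m = r + 2 := by
        rw [hd, Nat.add_assoc]
        exact mv2_mod h'
      rw [e2]
      push_cast
      field_simp
      ring
    · have e2 : (d + 2) % m = 0 := by
        have : d + 2 = m * (Q + 1) + 0 := by
          rw [hd, Nat.mul_add]
          omega
        rw [this]
        exact mv2_mod (by omega)
      have e3 : (m : ℝ) = r + 2 := by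
        have : m = r + 2 := by omega
        rw [this]
        push_cast
        rfl
      rw [e2, e3]
      have h2 : (0 : ℝ) < (r : ℝ) + 2 := by positivity
      push_cast
      field_simp
      ring
  · have hm2 : m = r + 1 := by omega
    have e1 : d + 1 = m * (Q + 1) + 0 := by
      rw [hd, Nat.mul_add]
      omega
    have e1' : (d + 1) % m = 0 := by
      rw [e1]
      exact mv2_mod (by omega)
    have e2 : (d + 2) % m = 1 := by
      have : d + 2 = m * (Q + 1) + 1 := by omega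
      rw [this]
      exact mv2_mod (by omega)
    have hdv : m ∣ d + 1 := Nat.dvd_of_mod_eq_zero e1'
    rw [if_pos hdv, e0, e1', e2]
    have e3 : (m : ℝ) = r + 1 := by
      rw [hm2]
      push_cast
      rfl
    rw [e3]
    have h2 : (0 : ℝ) < (r : ℝ) + 1 := by positivity
    push_cast
    field_simp
    ring

/-- the potential without the valuation -/
noncomputable def mv2_G (i J d : ℕ) : ℝ :=
  -(∑ k ∈ range J, mv2_psi (k + 1) d) - i * mv2_psi (J + 1) d

theorem mv2_min (v : ℕ) : ∀ J : ℕ, ∑ k ∈ range J, (if k < v then (1 : ℝ) else 0) = ((min J v : ℕ) : ℝ)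
  | 0 => by simp
  | J + 1 => by
    rw [sum_range_succ, mv2_min v J]
    rcases Nat.lt_or_ge J v with h | h
    · rw [if_pos h, Nat.min_eq_left h.le, Nat.min_eq_left h]
      push_cast
      rfl
    · rw [if_neg (by omega), Nat.min_eq_right h, Nat.min_eq_right (by omega), add_zero]

theorem mv2_geo (J : ℕ) : ∑ k ∈ range J, (1 : ℝ) / 2 ^ (k + 1) = 1 - 1 / 2 ^ J := by
  induction J with
  | zero => simp
  | succ J ih =>
    rw [sum_range_succ, ih, pow_succ]
    have : (0 : ℝ) < 2 ^ J := by positivity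
    field_simp
    ring

theorem mv2_geo2 (J : ℕ) : ∑ k ∈ range J, (2 : ℝ) ^ (k + 1) / 4 = (2 ^ J - 1) / 2 := by
  induction J with
  | zero => simp
  | succ J ih =>
    rw [sum_range_succ, ih, pow_succ]
    ring

theorem mv2_val {i d : ℕ} (hd : 1 ≤ d) (h : ¬ 2 ^ (i + 1) ∣ d) : padicValNat 2 d ≤ i := by
  have h1 := (padicValNat_dvd_iff_le (p := 2) (a := d) (n := i + 1) (by omega)).not.1 h
  omega

theorem mv2_G_step {i J d : ℕ} (hi : i ≤ 2 ^ J) (h : ¬ 2 ^ (i + 1) ∣ d + 1) :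
    (mv2_G i J (d + 2) + mv2_G i J d) / 2 ≤
      mv2_G i J (d + 1) - (4 + (padicValNat 2 (d + 1) : ℝ)) + 6 := by
  unfold mv2_G
  have s1 : (∑ k ∈ range J, mv2_psi (k + 1) (d + 2) + ∑ k ∈ range J, mv2_psi (k + 1) d) / 2 =
      ∑ k ∈ range J, mv2_psi (k + 1) (d + 1) +
        ∑ k ∈ range J, (if 2 ^ (k + 1) ∣ d + 1 then (1 : ℝ) else 0) - (1 - 1 / 2 ^ J) := by
    rw [← mv2_geo J, ← sum_add_distrib, sum_div, ← sum_add_distrib, ← sum_sub_distrib]
    exact sum_congr rfl fun k _ => mv2_psi_step (by omega) d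
  have s2 := mv2_psi_step (k := J + 1) (by omega) d
  have hv := mv2_val (by omega) h
  have e1 : ∀ k, (if 2 ^ (k + 1) ∣ d + 1 then (1 : ℝ) else 0) =
      if k < padicValNat 2 (d + 1) then (1 : ℝ) else 0 := by
    intro k
    have : 2 ^ (k + 1) ∣ d + 1 ↔ k < padicValNat 2 (d + 1) := by
      rw [padicValNat_dvd_iff_le (by omega)]
      omega
    simp only [this]
  rw [sum_congr rfl fun k _ => e1 k, mv2_min] at s1
  rw [e1] at s2
  have hJ : (0 : ℝ) < 2 ^ J := by positivity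
  have h3 : (i : ℝ) / 2 ^ (J + 1) ≤ 1 / 2 := by
    rw [div_le_div_iff₀ (by positivity) (by norm_num), pow_succ]
    have : (i : ℝ) ≤ 2 ^ J := by exact_mod_cast hi
    linarith
  have h4 : (0 : ℝ) ≤ 1 / 2 ^ J := by positivity
  have hi0 : (0 : ℝ) ≤ (i : ℝ) := Nat.cast_nonneg _
  have key : (padicValNat 2 (d + 1) : ℝ) ≤ ((min J (padicValNat 2 (d + 1)) : ℕ) : ℝ) +
      i * (if J < padicValNat 2 (d + 1) then (1 : ℝ) else 0) := by
    rcases Nat.lt_or_ge J (padicValNat 2 (d + 1)) with h' | h'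
    · rw [if_pos h', mul_one]
      have : (padicValNat 2 (d + 1) : ℝ) ≤ i := by exact_mod_cast hv
      have h5 : (0 : ℝ) ≤ ((min J (padicValNat 2 (d + 1)) : ℕ) : ℝ) := Nat.cast_nonneg _
      linarith
    · rw [Nat.min_eq_right h', if_neg (by omega)]
      simp
  have s3 : (i : ℝ) * ((mv2_psi (J + 1) (d + 2) + mv2_psi (J + 1) d) / 2) =
      i * mv2_psi (J + 1) (d + 1) + i * (if J < padicValNat 2 (d + 1) then (1 : ℝ) else 0) -
        i / 2 ^ (J + 1) := by
    rw [s2]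
    ring
  have e5 : (-(∑ k ∈ range J, mv2_psi (k + 1) (d + 2)) - i * mv2_psi (J + 1) (d + 2) +
      (-(∑ k ∈ range J, mv2_psi (k + 1) d) - i * mv2_psi (J + 1) d)) / 2 =
      -((∑ k ∈ range J, mv2_psi (k + 1) (d + 2) + ∑ k ∈ range J, mv2_psi (k + 1) d) / 2) -
        (i : ℝ) * ((mv2_psi (J + 1) (d + 2) + mv2_psi (J + 1) d) / 2) := by ring
  rw [e5, s1, s3]
  linarith

theorem mv2_G_bd {i J : ℕ} (hJ : 2 ^ J ≤ 2 * i) (d : ℕ) :
    mv2_G i J d ≤ 0 ∧ -(i : ℝ) * (i + 1) ≤ mv2_G i J d := by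
  unfold mv2_G
  have hi0 : (0 : ℝ) ≤ (i : ℝ) := Nat.cast_nonneg _
  have h1 : 0 ≤ ∑ k ∈ range J, mv2_psi (k + 1) d := sum_nonneg fun k _ => (mv2_psi_bd _ _).1
  have h2 : ∑ k ∈ range J, mv2_psi (k + 1) d ≤ (2 ^ J - 1) / 2 := by
    rw [← mv2_geo2]
    exact sum_le_sum fun k _ => (mv2_psi_bd _ _).2
  obtain ⟨h3, h4⟩ := mv2_psi_bd (J + 1) d
  have h5 : (2 : ℝ) ^ J ≤ 2 * i := by exact_mod_cast hJ
  have h6 : (i : ℝ) * mv2_psi (J + 1) d ≤ i * (2 ^ (J + 1) / 4) := mul_le_mul_of_nonneg_left h4 hi0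
  have h7 : (i : ℝ) * (2 ^ (J + 1) / 4) = i * 2 ^ J / 2 := by rw [pow_succ]; ring
  have h8 : (i : ℝ) * 2 ^ J ≤ i * (2 * i) := mul_le_mul_of_nonneg_left h5 hi0
  have h9 : 0 ≤ (i : ℝ) * mv2_psi (J + 1) d := mul_nonneg hi0 h3
  constructor
  · linarith
  · nlinarith

/-- the condition on the multiples passes to the children -/
theorem mv2_child {i t : ℕ} {s : St} (ht : t + 1 < dd s)
    (h : ∀ d : ℕ, d ≤ dd s + (t + 1) → dd s ≤ d + (t + 1) → ¬ 2 ^ (i + 1) ∣ d) (c : ℕ) (hc : c < 2) :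
    t < dd (step c s) ∧
      ∀ d : ℕ, d ≤ dd (step c s) + t → dd (step c s) ≤ d + t → ¬ 2 ^ (i + 1) ∣ d := by
  have h2 : dd (step c s) ≤ dd s + 1 ∧ dd s ≤ dd (step c s) + 1 := by
    rcases Nat.mod_two_eq_zero_or_one (s.a + s.b) with h0 | h0
    · rw [dd_even h0]
      omega
    · have hc' : c = 0 ∨ c = 1 := by omega
      rcases dd_odd h0 (by omega) with ⟨h1, h2⟩ | ⟨h1, h2⟩ <;> rcases hc' with rfl | rfl <;> omega
  exact ⟨by omega, fun d h3 h4 => h d (by omega) (by omega)⟩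

theorem mv2_main {i J : ℕ} (hi : i ≤ 2 ^ J) : ∀ (t : ℕ) (s : St), t < dd s →
    (∀ d : ℕ, d ≤ dd s + t → dd s ≤ d + t → ¬ 2 ^ (i + 1) ∣ d) →
    (t : ℝ) ≤ mu t s + (mv2_G i J (dd s) - (4 + (padicValNat 2 (dd s) : ℝ))) -
      av t (fun x => mv2_G i J (dd x) - (4 + (padicValNat 2 (dd x) : ℝ))) s + 6 * mv t s := by
  intro t
  induction t with
  | zero =>
    intro s _ _
    rw [av_zero, mu_zero]
    simp [mv]
  | succ t ih =>
    intro s hs h
    obtain ⟨t0, r0⟩ := mv2_child hs h 0 (by norm_num)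
    obtain ⟨t1, r1⟩ := mv2_child hs h 1 (by norm_num)
    have i0 := ih _ t0 r0
    have i1 := ih _ t1 r1
    rcases Nat.mod_two_eq_zero_or_one (s.a + s.b) with h0 | h0
    · have hm : mv (t + 1) s = (mv t (step 0 s) + mv t (step 1 s)) / 2 := by
        show (if (s.a + s.b) % 2 = 1 then (1 : ℝ) else 0) + _ = _
        rw [if_neg (by omega), zero_add]
      rw [dd_even h0] at i0 i1
      rw [mu_stay t h0, av_succ, hm]
      push_cast
      linarith
    · have hm : mv (t + 1) s = 1 + (mv t (step 0 s) + mv t (step 1 s)) / 2 := by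
        show (if (s.a + s.b) % 2 = 1 then (1 : ℝ) else 0) + _ = _
        rw [if_pos h0]
      have m0 := mu_le t (step 0 s) (by omega)
      have m1 := mu_le t (step 1 s) (by omega)
      obtain ⟨e, he⟩ : ∃ e, dd s = e + 1 := ⟨dd s - 1, by omega⟩
      have key := mv2_G_step (i := i) (J := J) (d := e) hi (by
        rw [← he]
        exact h _ (by omega) (by omega))
      rw [mu_move t h0, av_succ, hm, he]
      rcases dd_odd h0 (by omega) with ⟨h1, h2⟩ | ⟨h1, h2⟩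
      · have e0 : dd (step 0 s) = e + 2 := by omega
        have e1 : dd (step 1 s) = e := by omega
        rw [e0] at i0 m0
        rw [e1] at i1 m1
        push_cast
        linarith
      · have e0 : dd (step 1 s) = e + 2 := by omega
        have e1 : dd (step 0 s) = e := by omega
        rw [e0] at i1 m1
        rw [e1] at i0 m0
        push_cast
        linarith

theorem mv2_avh {i J : ℕ} (hJ : 2 ^ J ≤ 2 * i) : ∀ (t : ℕ) (s : St), t < dd s →
    (∀ d : ℕ, d ≤ dd s + t → dd s ≤ d + t → ¬ 2 ^ (i + 1) ∣ d) →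
    -(i : ℝ) * (i + 1) - (4 + i) ≤
      av t (fun x => mv2_G i J (dd x) - (4 + (padicValNat 2 (dd x) : ℝ))) s := by
  intro t
  induction t with
  | zero =>
    intro s hs h
    rw [av_zero]
    have h1 := (mv2_G_bd hJ (dd s)).2
    have h2 := mv2_val (by omega) (h (dd s) (by omega) (by omega))
    have h3 : (padicValNat 2 (dd s) : ℝ) ≤ i := by exact_mod_cast h2
    linarith
  | succ t ih =>
    intro s hs h
    obtain ⟨t0, r0⟩ := mv2_child hs h 0 (by norm_num)
    obtain ⟨t1, r1⟩ := mv2_child hs h 1 (by norm_num)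
    have i0 := ih _ t0 r0
    have i1 := ih _ t1 r1
    rw [av_succ]
    linarith

theorem mv2 : StMv2 := by
  intro t i s hi hs h
  obtain ⟨J, h1, h2⟩ : ∃ J, i ≤ 2 ^ J ∧ 2 ^ J ≤ 2 * i := by
    refine ⟨Nat.clog 2 i, Nat.le_pow_clog (by norm_num) i, ?_⟩
    rcases Nat.lt_or_ge 1 i with h1 | h1
    · have h3 := Nat.pow_pred_clog_lt_self (b := 2) (by norm_num) h1
      have h4 : 0 < Nat.clog 2 i := Nat.clog_pos (by norm_num) h1
      obtain ⟨p, hp⟩ : ∃ p, Nat.clog 2 i = p + 1 := ⟨Nat.clog 2 i - 1, by omega⟩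
      rw [hp] at h3 ⊢
      rw [Nat.pred_succ] at h3
      rw [pow_succ]
      omega
    · have : i = 1 := by omega
      subst this
      simp
  have a1 := mv2_main h1 t s hs h
  have a2 := mv2_avh h2 t s hs h
  have a3 := mu_le t s (by omega)
  have a4 := (mv2_G_bd h2 (dd s)).1
  nlinarith

end LIV
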