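import Mathlib
import Pool.Agent.LIV.St

/-!
# EXTREMAL MERGING: the width moves
-/

set_option autoImplicit false

namespace LIV

open Pool.Agent.LibHelper3 CMG Finset

theorem mvx_point {z τ : ℝ} (hτ : 0 < τ) : z ^ 2 ≤ τ * |z| + z ^ 4 / τ ^ 2 := by
  have h0 := abs_nonneg z
  have h2 : z ^ 2 = |z| ^ 2 := (sq_abs z).symm
  have h4 : z ^ 4 = |z| ^ 4 := by
    have : z ^ 4 = (z ^ 2) ^ 2 := by ring
    rw [this, h2]
    ring
  rw [h4, h2]
  rcases le_total |z| τ with h | h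
  · have e1 : |z| ^ 2 ≤ τ * |z| := by nlinarith
    have e2 : 0 ≤ |z| ^ 4 / τ ^ 2 := by positivity
    linarith
  · have e1 : |z| ^ 2 ≤ |z| ^ 4 / τ ^ 2 := by
      rw [le_div_iff₀ (by positivity)]
      have e3 : τ ^ 2 ≤ |z| ^ 2 := pow_le_pow_left₀ hτ.le h 2
      have e4 : |z| ^ 4 = |z| ^ 2 * |z| ^ 2 := by ring
      rw [e4]
      exact mul_le_mul_of_nonneg_left e3 (by positivity)
    have e2 : 0 ≤ τ * |z| := by positivity
    linarith

theorem mvx_point2 {z m I : ℝ} (hm : 0 < m) (hI : I = 0 ∨ I = 1)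
    (h : I = 0 → -(m / 552) < z) :
    (|z| - z) / 2 ≤ m / 552 + 552 * m * I + z ^ 2 / (552 * m) := by
  have h0 : 0 ≤ z ^ 2 / (552 * m) := by positivity
  rcases hI with hI | hI
  · have h1 := h hI
    rw [hI, mul_zero, add_zero]
    rcases abs_cases z with ⟨h2, h3⟩ | ⟨h2, h3⟩
    · rw [h2]
      have : 0 ≤ m / 552 := by positivity
      linarith
    · rw [h2]
      linarith
  · rw [hI, mul_one]
    have h5 : 0 ≤ m / 552 := by positivity
    have h6 : (|z| - z) / 2 ≤ |z| := by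
      have := neg_abs_le z
      linarith
    rcases le_total |z| (552 * m) with h7 | h7
    · linarith
    · have h8 : |z| ≤ z ^ 2 / (552 * m) := by
        rw [le_div_iff₀ (by positivity), ← sq_abs]
        nlinarith [abs_nonneg z]
      have : 0 ≤ 552 * m := by positivity
      linarith

theorem mvt (h1 : StMv1) (h2 : StMv2) : StMv := by
  refine ⟨2 / 552 ^ 2, 1 / 552, by norm_num, by norm_num, by norm_num, by norm_num, ?_⟩
  intro m i W a b hm him hab hcl
  have hm0 : (0 : ℝ) < m := by exact_mod_cast hm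
  have hW : m ^ 2 < W := by
    by_contra hc
    exact hcl 0 (Nat.zero_le _) (by omega) (dvd_zero _)
  have hmm : 1 ≤ m ^ 2 := Nat.one_le_pow _ _ hm
  have hi : 1 ≤ i := by
    by_contra hc
    have hi0 : i = 0 := by omega
    rcases Nat.even_or_odd W with he | ho
    · exact hcl W (by omega) (by omega) (by rw [hi0, zero_add, pow_one]; exact he.two_dvd)
    · exact hcl (W + 1) (by omega) (by omega)
        (by rw [hi0, zero_add, pow_one]; exact (ho.add_one).two_dvd)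
  have hdd : dd (pr a b) = W := by
    rw [dd_pr]
    omega
  obtain ⟨e1, e2, e3, e4⟩ := h1 (m ^ 2) (pr a b) (by rw [hdd]; exact hW.le)
  have e5 := h2 (m ^ 2) i (pr a b) hi (by rw [hdd]; exact hW) (by rw [hdd]; exact hcl)
  rw [hdd] at e1 e2 e3
  set V := mv (m ^ 2) (pr a b) with hV
  push_cast at e3 e4 e5
  have him' : 16 * ((i : ℝ) + 1) ≤ m := by exact_mod_cast him
  have hi' : (1 : ℝ) ≤ i := by exact_mod_cast hi
  have e6 : ((i : ℝ) + 2) ^ 2 ≤ (m : ℝ) ^ 2 / 64 := by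
    have : (i : ℝ) + 2 ≤ m / 8 := by linarith
    have h3 : ((i : ℝ) + 2) ^ 2 ≤ (m / 8) ^ 2 := pow_le_pow_left₀ (by linarith) this 2
    calc ((i : ℝ) + 2) ^ 2 ≤ (m / 8) ^ 2 := h3
      _ = (m : ℝ) ^ 2 / 64 := by ring
  have hVlow : 21 / 128 * (m : ℝ) ^ 2 ≤ V := by linarith
  -- the walk
  set Z : ℕ → ℝ := fun k => (dd (run (m ^ 2) k (pr a b)) : ℝ) - W with hZ
  have z1 : Ek (m ^ 2) Z = 0 := by
    rw [hZ, ← e1, ← Ek_run]
  have z2 : Ek (m ^ 2) (fun k => Z k ^ 2) = V := by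
    rw [← e2, ← Ek_run]
  have z4 : Ek (m ^ 2) (fun k => Z k ^ 4) ≤ 3 * ((m : ℝ) ^ 2) ^ 2 := by
    refine le_trans (le_of_eq ?_) e3
    rw [← Ek_run]
  have habs : (m : ℝ) / 69 ≤ Ek (m ^ 2) (fun k => |Z k|) := by
    have h3 : Ek (m ^ 2) (fun k => Z k ^ 2) ≤
        Ek (m ^ 2) (fun k => (7 * m) * |Z k| + Z k ^ 4 / (7 * m) ^ 2) :=
      Ek_mono fun k _ => mvx_point (by positivity)
    rw [z2, Ek_add, Ek_mul, Ek_div] at h3
    have h4 : Ek (m ^ 2) (fun k => Z k ^ 4) / (7 * (m : ℝ)) ^ 2 ≤ 3 / 49 * (m : ℝ) ^ 2 := by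
      rw [div_le_iff₀ (by positivity)]
      refine z4.trans (le_of_eq ?_)
      ring
    have h5 : (21 / 128 - 3 / 49) * (m : ℝ) ^ 2 ≤ 7 * m * Ek (m ^ 2) (fun k => |Z k|) := by
      linarith
    have h6 : (21 / 128 - 3 / 49) * (m : ℝ) ≤ 7 * Ek (m ^ 2) (fun k => |Z k|) := by
      by_contra hc
      push Not at hc
      have := mul_lt_mul_of_pos_right hc hm0
      nlinarith
    linarith
  set I : ℕ → ℝ := fun k =>
    if ((rp (m ^ 2) k b).1 : ℝ) - (rp (m ^ 2) k a).1 ≤ W - 1 / 552 * m then 1 else 0 with hI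
  have hpt : ∀ k < 2 ^ (m ^ 2), (|Z k| - Z k) / 2 ≤
      m / 552 + 552 * m * I k + Z k ^ 2 / (552 * m) := by
    intro k _
    apply mvx_point2 hm0
    · simp only [hI]
      split_ifs
      · exact Or.inr rfl
      · exact Or.inl rfl
    · intro h3
      simp only [hI] at h3
      have h4 : ¬ (((rp (m ^ 2) k b).1 : ℝ) - (rp (m ^ 2) k a).1 ≤ W - 1 / 552 * m) := by
        intro h5
        rw [if_pos h5] at h3
        exact one_ne_zero h3
      push Not at h4
      have h5 : (dd (run (m ^ 2) k (pr a b)) : ℝ) =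
          ((rp (m ^ 2) k b).1 : ℝ) - (rp (m ^ 2) k a).1 := by
        rw [winn_run, dd_pr]
        have g1 := rp_fst (m ^ 2) k a
        have g2 := rp_fst (m ^ 2) k b
        have g3 : (rp (m ^ 2) k a).1 ≤ (rp (m ^ 2) k b).1 := by omega
        have g4 : (rp (m ^ 2) k a).1 - (rp (m ^ 2) k b).1 = 0 := by omega
        rw [g4, add_zero, Nat.cast_sub g3]
      simp only [hZ]
      rw [h5]
      linarith
  have hE := Ek_mono hpt
  have hL : Ek (m ^ 2) (fun k => (|Z k| - Z k) / 2) = Ek (m ^ 2) (fun k => |Z k|) / 2 := by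
    rw [Ek_div, Ek_sub, z1, sub_zero]
  have hR : Ek (m ^ 2) (fun k => (m : ℝ) / 552 + 552 * m * I k + Z k ^ 2 / (552 * m)) =
      m / 552 + 552 * m * Ek (m ^ 2) I + V / (552 * m) := by
    rw [Ek_add, Ek_add, Ek_const, Ek_mul, Ek_div, z2]
  rw [hL, hR] at hE
  have hVup : V / (552 * m) ≤ m / 552 := by
    rw [div_le_div_iff₀ (by positivity) (by norm_num)]
    nlinarith
  have hfin : (m : ℝ) / 138 ≤ m / 552 + 552 * m * Ek (m ^ 2) I + m / 552 := by linarith
  have hfin2 : 2 / 552 * (m : ℝ) ≤ 552 * Ek (m ^ 2) I * m := by linarith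
  have hfin3 := le_of_mul_le_mul_right hfin2 hm0
  have : (2 : ℝ) / 552 ^ 2 ≤ Ek (m ^ 2) I := by
    rw [div_le_iff₀ (by norm_num)]
    linarith
  exact this

end LIV
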