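import Mathlib
import Pool.Agent.LIV.St

/-!
# Extremal merging, module NEAR: overtaking at short distance
-/

set_option autoImplicit false

namespace LIV

open Pool.Agent.LibHelper3 CMG Finset

/-- overtaking distance -/
noncomputable def near_ov (s : CMG.St) : ℝ := max 0 ((s.e : ℝ) - s.f)

theorem near_ov_nonneg (s : CMG.St) : 0 ≤ near_ov s := le_max_left _ _

theorem near_ov_zero {s : CMG.St} (h : s.e ≤ s.f) : near_ov s = 0 := by
  unfold near_ov
  apply max_eq_left
  have h2 : (s.e : ℝ) ≤ s.f := by exact_mod_cast h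
  linarith

theorem near_ov_le (s : CMG.St) : near_ov s ≤ (dd s : ℝ) * un s := by
  by_cases hM : Mg s
  · rw [near_ov_zero hM.1.le]
    unfold un
    rw [if_pos hM, mul_zero]
  · unfold un
    rw [if_neg hM, mul_one]
    unfold near_ov
    apply max_le (Nat.cast_nonneg _)
    have h1 : s.e ≤ dd s + s.f := by unfold dd; omega
    have h2 : (s.e : ℝ) ≤ (dd s : ℝ) + s.f := by exact_mod_cast h1
    linarith

theorem near_hq_nonneg (t : ℕ) : ∀ s : CMG.St, 0 ≤ hq t s := by
  induction t with
  | zero =>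
    intro s
    rw [hq_zero]
    split_ifs
    · exact sq_nonneg' s
    · exact le_rfl
  | succ t ih =>
    intro s
    rw [hq_succ]
    split_ifs
    · exact sq_nonneg' s
    · have h0 := ih (step 0 s)
      have h1 := ih (step 1 s)
      linarith

/-- Cauchy-Schwarz for the overtaking distance -/
theorem near_cs (u : ℕ) (s : CMG.St) :
    av u near_ov s ≤ Real.sqrt (av u d2 s) * Real.sqrt (av u un s) := by
  have h1 : av u near_ov s ≤ av u (fun x => (dd x : ℝ) * un x) s := av_mono u near_ov_le s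
  have h2 := Ek_cs u (fun k => (dd (run u k s) : ℝ)) (fun k => un (run u k s))
  have e1 : Ek u (fun k => (dd (run u k s) : ℝ) * un (run u k s)) =
      av u (fun x => (dd x : ℝ) * un x) s := Ek_run u (fun x => (dd x : ℝ) * un x) s
  have e2 : Ek u (fun k => (dd (run u k s) : ℝ) ^ 2) = av u d2 s := Ek_run u d2 s
  have e3 : Ek u (fun k => un (run u k s) ^ 2) = av u un s := by
    rw [← Ek_run]
    congr 1
    funext k
    unfold un
    split_ifs <;> norm_num
  rw [e1, e2, e3] at h2
  exact h1.trans h2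

/-- start with equal exponents -/
theorem near_zero {K l : ℝ} (hK : 0 < K)
    (hz : ∀ (n : ℕ) (s : CMG.St), 1 ≤ n → dd s = 0 → p n s ≤ K * (1 + l * sq s) / Real.sqrt n)
    (m u : ℕ) (hu : u ≤ m ^ 2) (s : CMG.St) (hd : dd s = 0) :
    av u near_ov s ≤ Real.sqrt (K * max 1 l * m) * Real.sqrt (1 + sq s) := by
  have hq0 := sq_nonneg' s
  rcases Nat.eq_zero_or_pos u with h0 | h0
  · subst h0
    rw [av_zero, near_ov_zero (dd_eq_zero.1 hd).le]
    positivity
  · have h1 := near_cs u s
    have h2 := av_d2 u s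
    rw [hd] at h2
    have h3 : av u d2 s ≤ u := by
      have e : ((0 : ℕ) : ℝ) ^ 2 + (u : ℝ) = u := by norm_num
      rwa [e] at h2
    have h4 : av u un s ≤ K * (1 + l * sq s) / Real.sqrt u := hz u s h0 hd
    have hu0 : (0 : ℝ) < u := by exact_mod_cast h0
    have hsu : 0 < Real.sqrt u := Real.sqrt_pos.2 hu0
    have hmx1 : (1 : ℝ) ≤ max 1 l := le_max_left _ _
    have hmx2 : l ≤ max 1 l := le_max_right _ _
    have h5 : Real.sqrt u ≤ m := by
      rw [Real.sqrt_le_left (Nat.cast_nonneg _)]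
      exact_mod_cast hu
    calc av u near_ov s ≤ Real.sqrt (av u d2 s) * Real.sqrt (av u un s) := h1
      _ ≤ Real.sqrt u * Real.sqrt (K * (1 + l * sq s) / Real.sqrt u) :=
        mul_le_mul (Real.sqrt_le_sqrt h3) (Real.sqrt_le_sqrt h4) (Real.sqrt_nonneg _)
          (Real.sqrt_nonneg _)
      _ = Real.sqrt (K * (1 + l * sq s) * Real.sqrt u) := by
        rw [← Real.sqrt_mul hu0.le]
        congr 1
        have e : (u : ℝ) = Real.sqrt u * Real.sqrt u := (Real.mul_self_sqrt hu0.le).symm
        rw [mul_div_assoc', div_eq_iff hsu.ne']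
        calc (u : ℝ) * (K * (1 + l * sq s)) =
            (Real.sqrt u * Real.sqrt u) * (K * (1 + l * sq s)) := by rw [← e]
          _ = _ := by ring
      _ ≤ Real.sqrt ((K * max 1 l * m) * (1 + sq s)) := by
        apply Real.sqrt_le_sqrt
        have h6 : 1 + l * sq s ≤ max 1 l * (1 + sq s) := by
          have : l * sq s ≤ max 1 l * sq s := mul_le_mul_of_nonneg_right hmx2 hq0
          linarith
        calc K * (1 + l * sq s) * Real.sqrt u ≤ K * (max 1 l * (1 + sq s)) * m :=
              mul_le_mul (mul_le_mul_of_nonneg_left h6 hK.le) h5 (Real.sqrt_nonneg _)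
                (by positivity)
          _ = _ := by ring
      _ = _ := Real.sqrt_mul (by positivity) _

/-- children keep the order if the exponents differ -/
theorem near_child {s : CMG.St} (h : s.e < s.f) (c : ℕ) : (step c s).e ≤ (step c s).f := by
  unfold step
  simp only
  omega

/-- the bound with the parameter `L` -/
theorem near_main {β L : ℝ} (hβ : 0 ≤ β) (hL : 0 < L) (T : ℕ)
    (hz : ∀ (u : ℕ) (s : CMG.St), u ≤ T → dd s = 0 → av u near_ov s ≤ β * Real.sqrt (1 + sq s)) :
    ∀ t ≤ T, ∀ s : CMG.St, s.e ≤ s.f →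
      av t near_ov s ≤ β / 2 * (1 / L + L) + β / (2 * L) * hq t s := by
  have key : ∀ q : ℝ, 0 ≤ q → Real.sqrt (1 + q) ≤ ((1 + q) / L + L) / 2 := by
    intro q hq1
    have h1 : 0 ≤ 1 + q := by linarith
    have h2 := Real.sq_sqrt h1
    set z := Real.sqrt (1 + q) with hz'
    rw [← h2]
    have h3 : 0 ≤ (z - L) ^ 2 := by positivity
    rw [le_div_iff₀ (by norm_num : (0 : ℝ) < 2), ← sub_nonneg]
    have e : z ^ 2 / L + L - z * 2 = (z - L) ^ 2 / L := by
      field_simp
      ring
    rw [e]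
    positivity
  intro t
  induction t with
  | zero =>
    intro _ s hs
    rw [av_zero, near_ov_zero hs]
    have := near_hq_nonneg 0 s
    positivity
  | succ t ih =>
    intro ht s hs
    by_cases hd : dd s = 0
    · rw [hq_succ, if_pos hd]
      have h1 := hz (t + 1) s ht hd
      have h2 := key (sq s) (sq_nonneg' s)
      have h3 : β * Real.sqrt (1 + sq s) ≤ β * (((1 + sq s) / L + L) / 2) :=
        mul_le_mul_of_nonneg_left h2 hβ
      have e : β * (((1 + sq s) / L + L) / 2) = β / 2 * (1 / L + L) + β / (2 * L) * sq s := by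
        field_simp
        ring
      linarith
    · rw [hq_succ, if_neg hd, av_succ]
      have hlt : s.e < s.f := by
        rcases lt_or_eq_of_le hs with h | h
        · exact h
        · exact absurd (dd_eq_zero.2 h) hd
      have h0 := ih (by omega) (step 0 s) (near_child hlt 0)
      have h1 := ih (by omega) (step 1 s) (near_child hlt 1)
      have e : β / (2 * L) * ((hq t (step 0 s) + hq t (step 1 s)) / 2) =
          (β / (2 * L) * hq t (step 0 s) + β / (2 * L) * hq t (step 1 s)) / 2 := by ring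
      rw [e]
      linarith

theorem near : StNear := by
  obtain ⟨K, l, hK, hl, hz⟩ := zero_sharp
  obtain ⟨C₂, hC₂, hh⟩ := hq_le
  have hK' : 0 < K * max 1 l := mul_pos hK (lt_of_lt_of_le one_pos (le_max_left _ _))
  refine ⟨Real.sqrt (K * max 1 l) * Real.sqrt (1 + C₂),
    mul_pos (Real.sqrt_pos.2 hK') (Real.sqrt_pos.2 (by linarith)), ?_⟩
  intro m θ s s' hm hu hu' hs
  have e0 : Ek (m ^ 2) (fun k => max 0 (((rp (m ^ 2) k s).1 : ℝ) - (rp (m ^ 2) k s').1)) =
      av (m ^ 2) near_ov (pr s s') := Ek_pair (m ^ 2) near_ov s s'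
  rw [e0]
  set β := Real.sqrt (K * max 1 l * m) with hβ
  have hβ0 : 0 ≤ β := Real.sqrt_nonneg _
  set q := sq (pr s s') with hqq
  have hq0 : 0 ≤ q := sq_nonneg' _
  set L := Real.sqrt (1 + C₂ + q) with hL
  have hin : 0 < 1 + C₂ + q := by linarith
  have hL0 : 0 < L := Real.sqrt_pos.2 hin
  have hLL : L ^ 2 = 1 + C₂ + q := Real.sq_sqrt hin.le
  have h1 := near_main hβ0 hL0 (m ^ 2)
    (fun u x hu hd => near_zero hK hz m u hu x hd) (m ^ 2) le_rfl (pr s s') hs
  have h2 := hh (m ^ 2) (pr s s')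
  have h3 : β / 2 * (1 / L + L) + β / (2 * L) * hq (m ^ 2) (pr s s') ≤ β * L := by
    have h4 : β / (2 * L) * CMG.hq (m ^ 2) (pr s s') ≤ β / (2 * L) * (q + C₂) :=
      mul_le_mul_of_nonneg_left h2 (by positivity)
    have e : β / 2 * (1 / L + L) + β / (2 * L) * (q + C₂) = β * L := by
      have e1 : q + C₂ = L ^ 2 - 1 := by linarith
      rw [e1]
      field_simp
      ring
    linarith
  have hp := one_le_pw hu
  have hp' := one_le_pw hu'
  have h5 : q ≤ pw θ s ^ 2 + pw θ s' ^ 2 := by
    have h6 := sq_pr θ s s' hu hu'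
    have h7 : Real.sqrt (up θ s) ≤ pw θ s ^ 2 := by
      rw [pw_sq]
      exact Real.sqrt_le_sqrt (by linarith)
    have h8 : Real.sqrt (up θ s') ≤ pw θ s' ^ 2 := by
      rw [pw_sq]
      exact Real.sqrt_le_sqrt (by linarith)
    linarith
  have h9 : L ≤ Real.sqrt (1 + C₂) * (pw θ s + pw θ s') := by
    rw [hL]
    apply Real.sqrt_le_iff.2
    refine ⟨by positivity, ?_⟩
    rw [mul_pow, Real.sq_sqrt (by linarith : (0 : ℝ) ≤ 1 + C₂)]
    have h10 : 1 + q ≤ (pw θ s + pw θ s') ^ 2 := by
      have : 1 ≤ pw θ s * pw θ s' := one_le_mul_of_one_le_of_one_le hp hp'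
      nlinarith
    have h11 : 1 ≤ (pw θ s + pw θ s') ^ 2 := by linarith
    nlinarith
  have h12 : β = Real.sqrt (K * max 1 l) * Real.sqrt m := Real.sqrt_mul hK'.le _
  calc av (m ^ 2) near_ov (pr s s') ≤ β * L := h1.trans h3
    _ ≤ β * (Real.sqrt (1 + C₂) * (pw θ s + pw θ s')) := mul_le_mul_of_nonneg_left h9 hβ0
    _ = _ := by rw [h12]; ring

end LIV
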