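import Mathlib
import Pool.Agent.LIV.St
import Pool.Agent.CMG.EarS

/-!
# EXTREMAL MERGING: merged windows of forms give merged windows of integers
-/

set_option autoImplicit false

namespace LIV

open Pool.Agent.LibHelper3 CMG Finset

theorem nta_period (t r : ℕ) (F : Finset (ℕ × ℕ)) (q : ℕ) :
    runF t (2 ^ t * q + r) F = runF t r F := by
  induction q with
  | zero => rw [mul_zero, zero_add]
  | succ q ih =>
    have e : 2 ^ t * (q + 1) + r = (2 ^ t * q + r) + 2 ^ t := by ring
    rw [e, runF_add_pow, ih]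

theorem nta : StNta := by
  intro t r M q _ hc
  have hc' : (runF t (2 ^ t * q + r) (F0 (2 * M) (2 ^ (2 * M)))).card ≤ 1 := by
    rw [nta_period]
    exact hc
  obtain ⟨k, hk1, hk3, hk2⟩ := earn_merged t (2 ^ t * q + r) (2 * M) (2 ^ (2 * M)) hc'
  refine ⟨k, hk1, hk3, fun u hu v hv h hh => ?_⟩
  generalize 2 ^ t * q + r = n at *
  obtain ⟨e1, e2⟩ := short_iterate_add u (3 ^ v * n) h
  have e3 : 2 ^ u * 3 ^ v * n + h = 2 ^ u * (3 ^ v * n) + h := by ring
  have ho := odds_le u h
  set o := odds u h with ho'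
  have hh' : short^[u] h ≤ 2 ^ (2 * M) := by
    calc short^[u] h ≤ 2 ^ u * h := wins_iter_le u h
      _ ≤ 2 ^ M * 2 ^ M := Nat.mul_le_mul (Nat.pow_le_pow_right (by norm_num) hu) hh
      _ = 2 ^ (2 * M) := by rw [← pow_add]; congr 1; ring
  have h4 := hk2 (v + o) (by omega) (short^[u] h) hh'
  have e5 : k + u - v = (k - (v + o)) + (u + o) := by omega
  have e6 : collatz^[u + o] (2 ^ u * (3 ^ v * n) + h) = 3 ^ (v + o) * n + short^[u] h := by
    have e7 := short_eq_collatz u (2 ^ u * (3 ^ v * n) + h)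
    rw [e2] at e7
    rw [← e7, e1, pow_add]
    ring
  rw [e3, e5, Function.iterate_add_apply, e6, h4]

end LIV
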