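import Mathlib
import Pool.Agent.LIV.St
import Pool.Agent.CMG.SyA

/-!
# EXTREMAL MERGING: symmetric windows
-/

set_option autoImplicit false

namespace LIV

open Pool.Agent.LibHelper3 CMG Finset

theorem ntb : StNtb := by
  intro M b k hk hb hk3
  set n : ℕ := 6 ^ M * (b + 2 ^ M) with hn
  have h6 : 0 < 6 ^ M := by positivity
  have hdiv : n / 6 ^ M = b + 2 ^ M := by
    rw [hn]
    exact Nat.mul_div_cancel_left _ h6
  have hbase : base M n = b := by
    unfold base
    rw [hdiv]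
    omega
  have h1 : 2 ^ M < n / 6 ^ M := by
    rw [hdiv]
    omega
  have hnb : collatz^[k] n = collatz^[k] b := by
    obtain ⟨h, hh, hm⟩ := sya_window M n n M M (by omega) (by omega) h1 (by
      have e1 : (2 : ℝ) ^ M * 3 ^ M / 6 ^ M = 1 := by
        rw [← mul_pow]
        norm_num
      rw [e1, one_mul, sub_self, abs_zero]
      positivity)
    rw [hbase] at hm
    have := hk3 M (by omega) M (by omega) h hh
    rw [← hm, Nat.add_sub_cancel] at this
    exact this
  refine ⟨hnb, fun u v hu hv m hm => ?_⟩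
  rw [abs_le] at hu hv
  obtain ⟨U, hU⟩ : ∃ U : ℕ, (U : ℤ) = u + M := ⟨(u + M).toNat, by omega⟩
  obtain ⟨V, hV⟩ : ∃ V : ℕ, (V : ℤ) = v + M := ⟨(v + M).toNat, by omega⟩
  have hm' : |(m : ℝ) - (2 : ℝ) ^ U * (3 : ℝ) ^ V / 6 ^ M * n| ≤ 2 ^ M := by
    have e1 : (2 : ℝ) ^ u * (3 : ℝ) ^ v = (2 : ℝ) ^ U * (3 : ℝ) ^ V / 6 ^ M := by
      have e2 : u = (U : ℤ) - (M : ℤ) := by omega
      have e3 : v = (V : ℤ) - (M : ℤ) := by omega
      have e4 : (6 : ℝ) ^ M = 2 ^ M * 3 ^ M := by
        rw [← mul_pow]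
        norm_num
      rw [e2, e3, zpow_sub₀ (by norm_num), zpow_sub₀ (by norm_num), zpow_natCast, zpow_natCast,
        zpow_natCast, zpow_natCast, e4]
      field_simp
    rw [← e1]
    exact hm
  obtain ⟨h, hh, hm2⟩ := sya_window M n m U V (by omega) (by omega) h1 hm'
  rw [hbase] at hm2
  have := hk3 U (by omega) V (by omega) h hh
  rw [← hm2] at this
  have e5 : ((k : ℤ) + u - v).toNat = k + U - V := by omega
  rw [e5, this, hnb]

end LIV
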