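import Pool.Agent.LIV.St

/-!
# PH0: the first phase   (helper96)
-/

set_option autoImplicit false

namespace LIV

open Pool.Agent.LibHelper3 CMG Finset

theorem ph0_iter {B : ℝ} {m₀ K₀ : ℕ} (hB : 1 ≤ B) (hP : Prp B m₀) (hK : m₀ ≤ K₀) (j : ℕ) :
    ∀ (θ : ℝ) (F : Finset (ℕ × ℕ)) (W : ℕ), Stt (2 ^ j * B) K₀ θ F W →
    ∃ (θ' : ℝ) (F' : Finset (ℕ × ℕ)) (W' : ℕ), Goes (j * K₀ ^ 2) θ F θ' F' ∧
      Stt B K₀ θ' F' W' ∧ W' ≤ W + j * K₀ ^ 2 := by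
  induction j with
  | zero =>
    intro θ F W h
    rw [pow_zero, one_mul] at h
    refine ⟨θ, F, W, ?_, h, by omega⟩
    rw [zero_mul]
    exact Goes.refl θ F
  | succ j ih =>
    intro θ F W h
    obtain ⟨θ', F', W', hg, hs, hW⟩ := hP K₀ _ θ F W hK h
    have e : max B (2 ^ (j + 1) * B / 2) = 2 ^ j * B := by
      have e1 : (2 : ℝ) ^ (j + 1) * B / 2 = 2 ^ j * B := by rw [pow_succ]; ring
      rw [e1]
      apply max_eq_right
      have : (1 : ℝ) ≤ 2 ^ j := one_le_pow₀ (by norm_num)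
      nlinarith
    rw [e] at hs
    obtain ⟨θ'', F'', W'', hg', hs', hW'⟩ := ih θ' F' W' hs
    refine ⟨θ'', F'', W'', ?_, hs', ?_⟩
    · have e2 : (j + 1) * K₀ ^ 2 = K₀ ^ 2 + j * K₀ ^ 2 := by ring
      rw [e2]
      exact hg.trans hg'
    · have e2 : (j + 1) * K₀ ^ 2 = K₀ ^ 2 + j * K₀ ^ 2 := by ring
      omega

theorem ph0_pw {θ : ℝ} {s : ℕ × ℕ} (h : 0 ≤ up θ s) : pw θ s ≤ 1 + Real.sqrt (up θ s) := by
  have h1 : Real.sqrt (1 + up θ s) ≤ 1 + Real.sqrt (up θ s) := by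
    rw [Real.sqrt_le_left (by positivity)]
    have h2 := Real.sq_sqrt h
    have h3 := Real.sqrt_nonneg (up θ s)
    nlinarith
  have h2 : 1 ≤ Real.sqrt (1 + up θ s) := by
    rw [Real.one_le_sqrt]
    linarith
  have h3 : pw θ s ≤ Real.sqrt (1 + up θ s) := by
    unfold pw
    rw [Real.sqrt_le_left (by positivity)]
    nlinarith
  exact h3.trans h1

theorem ph0_pot {lam θ σ : ℝ} {c : ℕ} {F : Finset (ℕ × ℕ)} (hl : 0 ≤ lam) (hp : Pos θ F)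
    (he : End σ c F) : pot lam θ σ c F ≤ F.card + Phi θ F := by
  have e : (F.card : ℝ) + Phi θ F = ∑ s ∈ F, (1 + Real.sqrt (up θ s)) := by
    rw [sum_add_distrib, sum_const, nsmul_eq_mul, mul_one]
    rfl
  rw [e]
  unfold pot
  refine sum_le_sum fun s hs => ?_
  have h1 : wt (lam * (σ * ((s.1 : ℝ) - c))) ≤ 1 := wt_le_one (mul_nonneg hl (he.1 s hs))
  have h2 := ph0_pw (hp s hs)
  calc pw θ s * wt (lam * (σ * ((s.1 : ℝ) - c))) ≤ pw θ s * 1 :=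
        mul_le_mul_of_nonneg_left h1 (pw_nonneg _ _)
    _ ≤ _ := by rw [mul_one]; exact h2

theorem ph0 : StPh0 := by
  intro B m₀ K₀ hB hP hK hK1
  refine ⟨301 + 27 * K₀ ^ 2, fun M => ?_⟩
  obtain ⟨t, ht⟩ : ∃ t, t = 300 * (M + 1) := ⟨_, rfl⟩
  have htr : (t : ℝ) = 300 * ((M : ℝ) + 1) := by rw [ht]; push_cast; ring
  have hM0 : (0 : ℝ) ≤ M := Nat.cast_nonneg M
  have hok : Ok M 0 (F0 M (2 ^ M)) := wine_Ok M (2 ^ M)
  have hdec : (98 / 100 : ℝ) ^ t * Phi 0 (F0 M (2 ^ M)) ≤ 1 := by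
    apply wine_decay M (2 ^ M) t
    have h1 : Real.log (1 + ((2 ^ M : ℕ) : ℝ)) ≤ M + 1 := by
      have h2 : (1 : ℝ) + ((2 ^ M : ℕ) : ℝ) ≤ 2 ^ (M + 1) := by
        push_cast
        have : (1 : ℝ) ≤ 2 ^ M := one_le_pow₀ (by norm_num)
        rw [pow_succ]
        linarith
      have h3 : Real.log (1 + ((2 ^ M : ℕ) : ℝ)) ≤ Real.log (2 ^ (M + 1)) :=
        Real.log_le_log (by positivity) h2
      rw [Real.log_pow] at h3
      have h4 : Real.log 2 ≤ 1 := by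
        have := Real.log_two_lt_d9
        linarith
      have h5 : ((M + 1 : ℕ) : ℝ) * Real.log 2 ≤ ((M + 1 : ℕ) : ℝ) * 1 :=
        mul_le_mul_of_nonneg_left h4 (Nat.cast_nonneg _)
      push_cast at h3 h5 ⊢
      linarith
    rw [htr]
    linarith
  have hav := avF_Phi t M 0 (F0 M (2 ^ M)) hok
  rw [avF_Ek] at hav
  have hav2 : Ek t (fun k => Phi (rt t k 0) (runF t k (F0 M (2 ^ M)))) ≤
      64000000 * ((M : ℝ) + 1) := by
    refine hav.trans ?_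
    rw [htr] at *
    linarith
  obtain ⟨k, hk, hPhi⟩ := exists_le_of_Ek hav2
  have hPhi' : Phi (rt t k 0) (runF t k (F0 M (2 ^ M))) ≤ 64000000 * ((M : ℝ) + 1) := hPhi
  clear hPhi
  obtain ⟨θ₁, hθ₁⟩ : ∃ θ₁, θ₁ = rt t k 0 := ⟨_, rfl⟩
  obtain ⟨G, hG⟩ : ∃ G, G = runF t k (F0 M (2 ^ M)) := ⟨_, rfl⟩
  rw [← hθ₁, ← hG] at hPhi'
  have hpos : Pos θ₁ G := by
    rw [hθ₁, hG]
    exact Pos_run (fun s hs => (hok s hs).2) t k
  have hexp : ∀ s ∈ G, s.1 ≤ M + t := by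
    intro s hs
    rw [hG] at hs
    obtain ⟨s0, hs0, rfl⟩ := mem_runF.1 hs
    have h1 := (rp_fst t k s0).2
    have h2 := (hok s0 hs0).1
    omega
  have hokG : Ok (M + t) θ₁ G := fun s hs => ⟨hexp s hs, hpos s hs⟩
  have hcard := card_le_Phi (M + t) θ₁ G hokG
  push_cast at hcard
  rw [htr] at hcard
  have hcp : (G.card : ℝ) + Phi θ₁ G ≤ 67000000 * ((M : ℝ) + 1) := by linarith
  have hne : G.Nonempty := by
    rw [hG]
    apply runF_nonempty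
    exact ⟨(0, 0), by simp [F0]⟩
  obtain ⟨l, hl⟩ := exists_end_left hne
  obtain ⟨r, hr⟩ := exists_end_right hne
  have hlr := hl.le hr
  obtain ⟨W, rfl⟩ := Nat.exists_eq_add_of_le hlr
  have hWle : W ≤ M + t := by
    obtain ⟨s, hs, hs1⟩ := hr.2
    have := hexp s hs
    omega
  obtain ⟨j, hj⟩ : ∃ j, j = 27 + M := ⟨_, rfl⟩
  have hX : 67000000 * ((M : ℝ) + 1) ≤ 2 ^ j * B := by
    have h1 : (M : ℝ) + 1 ≤ 2 ^ M := by
      have : M + 1 ≤ 2 ^ M := Nat.lt_two_pow_self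
      exact_mod_cast this
    have h2 : (2 : ℝ) ^ j = 134217728 * 2 ^ M := by
      rw [hj, pow_add]
      norm_num
    have h3 : (0 : ℝ) ≤ 2 ^ j := by positivity
    have h4 : (2 : ℝ) ^ j * 1 ≤ 2 ^ j * B := mul_le_mul_of_nonneg_left hB h3
    rw [h2] at *
    linarith
  have hlam : (0 : ℝ) ≤ 1 / (K₀ : ℝ) := by positivity
  have hStt : Stt (2 ^ j * B) K₀ θ₁ G W :=
    ⟨hpos, l, hl, hr, (ph0_pot hlam hpos hl).trans (hcp.trans hX),
      (ph0_pot hlam hpos hr).trans (hcp.trans hX)⟩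
  obtain ⟨θ', F', W', hg, hs, hW⟩ := ph0_iter hB hP hK j θ₁ G W hStt
  have hg0 : Goes t 0 (F0 M (2 ^ M)) θ₁ G := ⟨k, hk, hG, hθ₁⟩
  have e1 : (301 + 27 * K₀ ^ 2) * (M + 1) = 301 * (M + 1) + (27 * (M + 1)) * K₀ ^ 2 := by ring
  have e2 : j * K₀ ^ 2 ≤ (27 * (M + 1)) * K₀ ^ 2 := Nat.mul_le_mul_right _ (by omega)
  refine ⟨t + j * K₀ ^ 2, θ', F', W', ?_, hg0.trans hg, hs, ?_⟩
  · rw [e1]
    omega
  · rw [e1]
    omega

end LIV
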