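import Pool.Agent.LIV.St

/-!
# Extremal merging: from large width to bounded width
-/

set_option autoImplicit false

namespace LIV

theorem ph1 (h : StLvl) : StPh1 := by
  intro B K₀ K₁ hK hR
  obtain ⟨K₂, W₀, hL⟩ := h K₀ K₁ hK
  refine ⟨K₂, W₀, ?_⟩
  intro θ F W hS
  obtain ⟨lev, Fc, hF, hlev⟩ := hL W
  have key : ∀ W₁ : ℕ, W₁ ≤ W → ∀ (θ : ℝ) (F : Finset (ℕ × ℕ)), Stt B K₀ θ F W₁ →
      ∃ (n : ℕ) (θ' : ℝ) (F' : Finset (ℕ × ℕ)) (W' : ℕ), n ≤ Fc W₁ ∧ Goes n θ F θ' F' ∧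
        Stt B K₀ θ' F' W' ∧ W' < W₀ := by
    intro W₁
    induction W₁ using Nat.strong_induction_on with
    | _ W₁ ih =>
      intro hW θ F hS
      by_cases hlt : W₁ < W₀
      · exact ⟨0, θ, F, W₁, Nat.zero_le _, Goes.refl θ F, hS, hlt⟩
      · obtain ⟨h6, hd, hdec⟩ := hlev W₁ (not_lt.mp hlt) hW
        obtain ⟨n, θ', F', W', hn, hg, hS', hW'⟩ := hR (lev W₁) θ F W₁ h6 hS hd
        have hT : 0 < (K₀ * (lev W₁ + 1)) ^ 2 := by positivity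
        have hlt' : W' < W₁ := by omega
        obtain ⟨n', θ'', F'', W'', hn', hg', hS'', hW''⟩ := ih W' hlt' (by omega) θ' F' hS'
        have h1 := hdec W' hW'
        exact ⟨n + n', θ'', F'', W'', by omega, hg.trans hg', hS'', hW''⟩
  obtain ⟨n, θ', F', W', hn, hg, hS', hW'⟩ := key W le_rfl θ F hS
  exact ⟨n, θ', F', W', hn.trans (hF W), hg, hS', hW'⟩

end LIV
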