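import Pool.Agent.LIV.St

/-!
# PH2: the last phase
-/

set_option autoImplicit false

namespace LIV

open Pool.Agent.LibHelper3 CMG Finset

/-- the sum of the weights of the positions is bounded -/
theorem ph2_sum {B : ℝ} {K₀ W₀ : ℕ} {θ : ℝ} {F : Finset (ℕ × ℕ)} {W : ℕ} (hK : 1 ≤ K₀)
    (h : Stt B K₀ θ F W) (hW : W < W₀) :
    ∑ s ∈ F, pw θ s ≤ B * (1 + (W₀ : ℝ) / K₀) ^ 2 ∧ ∀ s ∈ F, ∀ s' ∈ F,
      |(s.1 : ℝ) - s'.1| ≤ W₀ := by
  obtain ⟨hP, l, h1, h2, h3, _⟩ := h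
  have hK0 : (0 : ℝ) < K₀ := by exact_mod_cast hK
  have hWr : (W : ℝ) ≤ W₀ := by exact_mod_cast hW.le
  have hl : ∀ s ∈ F, (l : ℝ) ≤ s.1 ∧ (s.1 : ℝ) ≤ l + W₀ := by
    intro s hs
    have a1 := h1.1 s hs
    have a2 := h2.1 s hs
    push_cast at a2
    constructor <;> linarith
  have hw : (0 : ℝ) < (1 + (W₀ : ℝ) / K₀) ^ 2 := by positivity
  refine ⟨?_, fun s hs s' hs' => ?_⟩
  · rw [← div_le_iff₀ hw]
    refine le_trans ?_ h3
    unfold pot
    rw [sum_div]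
    refine sum_le_sum fun s hs => ?_
    rw [div_eq_mul_one_div]
    refine mul_le_mul_of_nonneg_left ?_ (pw_nonneg _ _)
    have e : 1 / (1 + (W₀ : ℝ) / K₀) ^ 2 = wt ((W₀ : ℝ) / K₀) := rfl
    rw [e]
    obtain ⟨a1, a2⟩ := hl s hs
    apply wt_anti
    · have : 0 ≤ (s.1 : ℝ) - l := by linarith
      positivity
    · rw [one_mul, div_eq_mul_one_div (W₀ : ℝ), mul_comm (W₀ : ℝ)]
      exact mul_le_mul_of_nonneg_left (by linarith) (by positivity)
  · obtain ⟨a1, a2⟩ := hl s hs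
    obtain ⟨a3, a4⟩ := hl s' hs'
    rw [abs_le]
    constructor <;> linarith

theorem ph2 : StPh2 := by
  intro B K₀ W₀ hK
  obtain ⟨C, hC, hsharp⟩ := sharp
  set B₂ : ℝ := max (B * (1 + (W₀ : ℝ) / K₀) ^ 2) 1 with hB₂
  have hB1 : 1 ≤ B₂ := le_max_right _ _
  set A : ℝ := B₂ * (C * (1 + W₀ + 2 * B₂ ^ 2)) with hA
  have hA0 : 0 < A := by positivity
  obtain ⟨n, hn⟩ := exists_nat_gt (A ^ 2)
  have hn0 : (0 : ℝ) < n := lt_of_le_of_lt (by positivity) hn
  have hn1 : 1 ≤ n := by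
    have : (0 : ℝ) < n := hn0
    exact_mod_cast this
  have hAn : A < Real.sqrt n := Real.lt_sqrt_of_sq_lt hn
  have hsn : 0 < Real.sqrt (n : ℝ) := Real.sqrt_pos.mpr hn0
  refine ⟨n, fun θ F W h hW => ?_⟩
  obtain ⟨hs1, hs2⟩ := ph2_sum hK h hW
  have hP := h.1
  have hsB : ∑ s ∈ F, pw θ s ≤ B₂ := hs1.trans (le_max_left _ _)
  have hcard : (F.card : ℝ) ≤ B₂ := by
    have h1 : (F.card : ℝ) = ∑ s ∈ F, (1 : ℝ) := by simp
    rw [h1]
    exact (sum_le_sum fun s hs => one_le_pw (hP s hs)).trans hsB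
  have hpw : ∀ s ∈ F, Real.sqrt (up θ s) ≤ B₂ ^ 2 := by
    intro s hs
    have h1 : pw θ s ≤ B₂ := (single_le_sum (f := fun s => pw θ s) (fun s _ => pw_nonneg θ s) hs).trans hsB
    have h2 : pw θ s ^ 2 ≤ B₂ ^ 2 := pow_le_pow_left₀ (pw_nonneg _ _) h1 2
    rw [pw_sq] at h2
    exact (Real.sqrt_le_sqrt (by linarith)).trans h2
  obtain ⟨l, ⟨_, a, ha, _⟩, _⟩ := h.2
  have hp : ∀ s ∈ F, p n (pr a s) ≤ C * (1 + W₀ + 2 * B₂ ^ 2) / Real.sqrt n := by
    intro s hs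
    refine (hsharp n (pr a s) hn1).trans ?_
    refine div_le_div_of_nonneg_right (mul_le_mul_of_nonneg_left ?_ hC.le) hsn.le
    have h1 := sq_pr θ a s (hP a ha) (hP s hs)
    have h2 := hpw a ha
    have h3 := hpw s hs
    have h4 : (dd (pr a s) : ℝ) ≤ W₀ := by
      have h5 := hs2 a ha s hs
      have h6 : (dd (pr a s) : ℝ) = |(a.1 : ℝ) - s.1| := by
        change (((s.1 - a.1) + (a.1 - s.1) : ℕ) : ℝ) = |(a.1 : ℝ) - s.1|
        rcases Nat.le_total a.1 s.1 with h | h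
        · rw [Nat.sub_eq_zero_of_le h, add_zero, Nat.cast_sub h, abs_sub_comm, abs_of_nonneg]
          have : (a.1 : ℝ) ≤ s.1 := by exact_mod_cast h
          linarith
        · rw [Nat.sub_eq_zero_of_le h, zero_add, Nat.cast_sub h, abs_of_nonneg]
          have : (s.1 : ℝ) ≤ a.1 := by exact_mod_cast h
          linarith
      rw [h6]
      exact h5
    linarith
  have hE : Ek n (fun k => ∑ s ∈ F, un (pr (rp n k a) (rp n k s))) < 1 := by
    rw [Ek_sum]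
    have h1 : ∀ s ∈ F, Ek n (fun k => un (pr (rp n k a) (rp n k s))) ≤
        C * (1 + W₀ + 2 * B₂ ^ 2) / Real.sqrt n := by
      intro s hs
      rw [Ek_pair]
      exact hp s hs
    refine (sum_le_sum h1).trans_lt ?_
    rw [sum_const, nsmul_eq_mul, ← mul_div_assoc, div_lt_one hsn]
    refine lt_of_le_of_lt ?_ hAn
    exact mul_le_mul_of_nonneg_right hcard (by positivity)
  obtain ⟨k, hk, hk1⟩ := exists_lt_of_Ek hE
  refine ⟨rt n k θ, runF n k F, ⟨k, hk, rfl, rfl⟩, ?_⟩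
  have hall : ∀ s ∈ F, rp n k s = rp n k a := by
    intro s hs
    by_contra hne
    have h1 : un (pr (rp n k a) (rp n k s)) = 1 := by
      unfold un
      rw [if_neg]
      rw [Mg_pr]
      exact fun h => hne h.symm
    have h2 := single_le_sum (f := fun s => un (pr (rp n k a) (rp n k s)))
      (fun s _ => un_nonneg _) hs
    simp only [h1] at h2
    linarith
  have h3 : runF n k F = {rp n k a} := by
    ext x
    rw [mem_runF, mem_singleton]
    constructor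
    · rintro ⟨s, hs, rfl⟩
      exact hall s hs
    · rintro rfl
      exact ⟨a, ha, rfl⟩
  rw [h3, card_singleton]

end LIV
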