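import Pool.Agent.LIV.St

/-!
# EXTREMAL MERGING: blocks which halve the potentials (module PRP)
-/

set_option autoImplicit false

namespace LIV

open Pool.Agent.LibHelper3 CMG Finset

/-- the new left end is not smaller than the old one -/
theorem prp_left {l c t k : ℕ} {F : Finset (ℕ × ℕ)} (h : End 1 l F) (h' : End 1 c (runF t k F)) :
    l ≤ c := by
  obtain ⟨x, hx, h1⟩ := h'.2
  obtain ⟨s, hs, rfl⟩ := mem_runF.1 hx
  have h2 := h.1 s hs
  have h3 : (l : ℝ) ≤ s.1 := by linarith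
  have h4 : l ≤ s.1 := by exact_mod_cast h3
  have h5 := (rp_fst t k s).1
  omega

/-- the new right end exceeds the old one by at most the number of the steps -/
theorem prp_right {r c t k : ℕ} {F : Finset (ℕ × ℕ)} (h : End (-1) r F)
    (h' : End (-1) c (runF t k F)) : c ≤ r + t := by
  obtain ⟨x, hx, h1⟩ := h'.2
  obtain ⟨s, hs, rfl⟩ := mem_runF.1 hx
  have h2 := h.1 s hs
  have h3 : (s.1 : ℝ) ≤ r := by linarith
  have h4 : s.1 ≤ r := by exact_mod_cast h3
  have h5 := (rp_fst t k s).2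
  omega

theorem prp : StPrp := by
  intro η C B m₀ hη hη16 hC hLB hB hCB m X θ F W hm hS
  obtain ⟨hPos, l, hEl, hEr, hpl, hpr⟩ := hS
  have hne := hEl.nonempty
  choose c' hc' using fun k => exists_end_left (runF_nonempty (t := m ^ 2) (k := k) hne)
  choose r' hr' using fun k => exists_end_right (runF_nonempty (t := m ^ 2) (k := k) hne)
  have h1 := hLB m 1 θ l F c' hm (Or.inl rfl) hPos hEl hc'
  have h2 := hLB m (-1) θ (l + W) F r' hm (Or.inr rfl) hPos hEr hr'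
  obtain ⟨Y, hY⟩ : ∃ Y : ℝ, Y = max B (X / 2) := ⟨_, rfl⟩
  have hYB : B ≤ Y := by rw [hY]; exact le_max_left _ _
  have hYX : X / 2 ≤ Y := by rw [hY]; exact le_max_right _ _
  rw [← hY]
  have hk : ∃ k < 2 ^ (m ^ 2),
      pot (1 / (m : ℝ)) (rt (m ^ 2) k θ) 1 (c' k) (runF (m ^ 2) k F) ≤ Y ∧
      pot (1 / (m : ℝ)) (rt (m ^ 2) k θ) (-1) (r' k) (runF (m ^ 2) k F) ≤ Y := by
    by_contra hc
    push Not at hc
    have h3 : Ek (m ^ 2) (fun _ => Y) ≤ Ek (m ^ 2) (fun k =>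
        pot (1 / (m : ℝ)) (rt (m ^ 2) k θ) 1 (c' k) (runF (m ^ 2) k F) +
        pot (1 / (m : ℝ)) (rt (m ^ 2) k θ) (-1) (r' k) (runF (m ^ 2) k F)) := by
      refine Ek_mono fun k hk => ?_
      have h4 := pot_nonneg (1 / (m : ℝ)) (rt (m ^ 2) k θ) 1 (c' k) (runF (m ^ 2) k F)
      have h5 := pot_nonneg (1 / (m : ℝ)) (rt (m ^ 2) k θ) (-1) (r' k) (runF (m ^ 2) k F)
      by_cases h6 : pot (1 / (m : ℝ)) (rt (m ^ 2) k θ) 1 (c' k) (runF (m ^ 2) k F) ≤ Y
      · have h7 := hc k hk h6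
        linarith
      · push Not at h6
        linarith
    rw [Ek_const, Ek_add] at h3
    have h4 := mul_le_mul_of_nonneg_left hpl hη.le
    have h5 := mul_le_mul_of_nonneg_left hpr hη.le
    have hX0 : 0 ≤ X := (pot_nonneg _ _ _ _ _).trans hpl
    have h6 := mul_le_mul_of_nonneg_right hη16 hX0
    linarith
  obtain ⟨k, hk, hk1, hk2⟩ := hk
  have hle := (hc' k).le (hr' k)
  refine ⟨rt (m ^ 2) k θ, runF (m ^ 2) k F, r' k - c' k, ⟨k, hk, rfl, rfl⟩,
    ⟨Pos_run hPos _ _, c' k, hc' k, ?_, hk1, ?_⟩, ?_⟩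
  · rw [Nat.add_sub_cancel' hle]
    exact hr' k
  · have e : (c' k + (r' k - c' k) : ℕ) = r' k := Nat.add_sub_cancel' hle
    rw [e]
    exact hk2
  · have h3 := prp_left hEl (hc' k)
    have h4 := prp_right hEr (hr' k)
    omega

end LIV
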