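import Mathlib
import Pool.Agent.LIV.St

set_option autoImplicit false

/-!
# RND: rounds
-/

namespace LIV

open Pool.Agent.LibHelper3 CMG Finset

theorem rnd_pow (i : ℕ) (h : 6 ≤ i) : (i + 1) ^ 2 ≤ 2 ^ i := by
  induction i, h using Nat.le_induction with
  | base => norm_num
  | succ n hn ih =>
    rw [pow_succ 2 n]
    nlinarith

theorem rnd_prep {B : ℝ} {m₀ : ℕ} (hB : 1 ≤ B) (hP : Prp B m₀) (m : ℕ) (hm : m₀ ≤ m) (i : ℕ)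
    (θ : ℝ) (F : Finset (ℕ × ℕ)) (W : ℕ) (hS : Stt (2 ^ i * B) m θ F W) :
    ∀ j ≤ i, ∃ (θ' : ℝ) (F' : Finset (ℕ × ℕ)) (W' : ℕ), Goes (j * m ^ 2) θ F θ' F' ∧
      Stt (2 ^ (i - j) * B) m θ' F' W' ∧ W' ≤ W + j * m ^ 2 := by
  intro j
  induction j with
  | zero =>
    intro _
    refine ⟨θ, F, W, ?_, ?_, by omega⟩
    · rw [zero_mul]; exact Goes.refl θ F
    · rw [Nat.sub_zero]; exact hS
  | succ j ih =>
    intro hj
    obtain ⟨θ₁, F₁, W₁, hG, hS₁, hW₁⟩ := ih (by omega)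
    obtain ⟨θ₂, F₂, W₂, hG₂, hS₂, hW₂⟩ := hP m _ θ₁ F₁ W₁ hm hS₁
    refine ⟨θ₂, F₂, W₂, ?_, ?_, ?_⟩
    · rw [add_mul, one_mul]
      exact hG.trans hG₂
    · refine hS₂.mono (max_le ?_ ?_)
      · have : (1 : ℝ) ≤ 2 ^ (i - (j + 1)) := one_le_pow₀ (by norm_num)
        nlinarith
      · have e : i - j = (i - (j + 1)) + 1 := by omega
        rw [e, pow_succ]
        apply le_of_eq
        ring
    · rw [add_mul, one_mul]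
      omega

theorem rnd_iter {B c₀ : ℝ} {m₀ : ℕ} (hc : 0 < c₀) (hBlk : Blk B c₀ m₀) (m : ℕ) (hm : m₀ ≤ m)
    (i : ℕ) (hi : 16 * (i + 1) ≤ m) (W : ℕ)
    (hd : ∀ d : ℕ, d ≤ W + (i + 2) * m ^ 2 → W ≤ d + (i + 2) * m ^ 2 → ¬ 2 ^ (i + 1) ∣ d)
    (θ : ℝ) (F : Finset (ℕ × ℕ)) (W₁ : ℕ) (hS : Stt B m θ F W₁) (hW₁ : W₁ ≤ W + i * m ^ 2) :
    ∀ N : ℕ, ∃ (n : ℕ) (θ' : ℝ) (F' : Finset (ℕ × ℕ)) (W' : ℕ), n ≤ N * m ^ 2 ∧
      Goes n θ F θ' F' ∧ Stt B m θ' F' W' ∧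
      (W' + m ^ 2 ≤ W ∨ (W' : ℝ) ≤ W + i * m ^ 2 - N * (c₀ * m)) := by
  intro N
  induction N with
  | zero =>
    refine ⟨0, θ, F, W₁, by omega, Goes.refl θ F, hS, Or.inr ?_⟩
    have : (W₁ : ℝ) ≤ W + i * m ^ 2 := by exact_mod_cast hW₁
    simpa using this
  | succ N ih =>
    obtain ⟨n, θ', F', W', hn, hG, hS', hor⟩ := ih
    by_cases hA : W' + m ^ 2 ≤ W
    · refine ⟨n, θ', F', W', ?_, hG, hS', Or.inl hA⟩
      rw [add_mul, one_mul]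
      omega
    · have hB' : (W' : ℝ) ≤ W + i * m ^ 2 - N * (c₀ * m) := hor.resolve_left hA
      have h0 : (0 : ℝ) ≤ N * (c₀ * m) := by positivity
      have hW' : W' ≤ W + i * m ^ 2 := by
        have : (W' : ℝ) ≤ W + i * m ^ 2 := by linarith
        exact_mod_cast this
      push Not at hA
      have hd' : ∀ d : ℕ, d ≤ W' + m ^ 2 → W' ≤ d + m ^ 2 → ¬ 2 ^ (i + 1) ∣ d := by
        intro d h1 h2
        have e1 : (i + 2) * m ^ 2 = i * m ^ 2 + m ^ 2 + m ^ 2 := by ring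
        apply hd d
        · rw [e1]; omega
        · rw [e1]; omega
      obtain ⟨θ'', F'', W'', hG'', hS'', hW''⟩ := hBlk m i θ' F' W' hm hi hS' hd'
      refine ⟨n + m ^ 2, θ'', F'', W'', ?_, hG.trans hG'', hS'', Or.inr ?_⟩
      · rw [add_mul, one_mul]
        omega
      · push_cast
        linarith

theorem rnd (h : StScl) : StRnd := by
  intro B c₀ m₀ K₀ hB hc hBlk hPrp hmK hK
  refine ⟨⌈(1 + K₀ / c₀) * (K₀ : ℝ) ^ 2⌉₊, ?_⟩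
  intro i θ F W hi hS hd
  have hK1 : 1 ≤ K₀ := by omega
  have hKr : (1 : ℝ) ≤ K₀ := by exact_mod_cast hK1
  set m := K₀ * (i + 1) with hmdef
  have hKm : K₀ ≤ m := by
    rw [hmdef]
    exact Nat.le_mul_of_pos_right K₀ (by omega)
  have hm0 : m₀ ≤ m := hmK.trans hKm
  have hm1 : 1 ≤ m := hK1.trans hKm
  have hmr : (1 : ℝ) ≤ m := by exact_mod_cast hm1
  have h16 : 16 * (i + 1) ≤ m := by
    rw [hmdef]
    exact Nat.mul_le_mul_right _ hK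
  -- (1)
  have hS1 : Stt (2 ^ i * B) m θ F W := by
    have h1 := (h B θ K₀ m F W hK1 hKm).2 hS
    refine h1.mono ?_
    have e1 : ((m : ℝ) / K₀) = i + 1 := by
      rw [hmdef]
      push_cast
      rw [mul_div_assoc, mul_comm, div_mul_cancel₀]
      exact (by linarith : (K₀ : ℝ) ≠ 0)
    rw [e1]
    have h2 : ((i : ℝ) + 1) ^ 2 ≤ 2 ^ i := by exact_mod_cast rnd_pow i hi
    exact mul_le_mul_of_nonneg_right h2 (by linarith)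
  -- (2)
  obtain ⟨θ₁, F₁, W₁, hG₁, hS₁, hW₁⟩ := rnd_prep hB hPrp m hm0 i θ F W hS1 i le_rfl
  rw [Nat.sub_self, pow_zero, one_mul] at hS₁
  -- (3)
  have hd' : ∀ d : ℕ, d ≤ W + (i + 2) * m ^ 2 → W ≤ d + (i + 2) * m ^ 2 → ¬ 2 ^ (i + 1) ∣ d := by
    intro d h1 h2
    exact hd d h1 h2
  obtain ⟨n, θ', F', W', hn, hG', hS', hor⟩ := rnd_iter hc hBlk m hm0 i h16 W hd' θ₁ F₁ W₁ hS₁ hW₁
    (⌈((i : ℝ) + 1) * m / c₀⌉₊ + 1)
  have hN : ((i : ℝ) + 1) * m / c₀ ≤ ⌈((i : ℝ) + 1) * m / c₀⌉₊ := Nat.le_ceil _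
  have hN' : ((i : ℝ) + 1) * m ≤ ⌈((i : ℝ) + 1) * m / c₀⌉₊ * c₀ := by
    rwa [div_le_iff₀ hc] at hN
  have hW' : W' + m ^ 2 ≤ W := by
    rcases hor with h1 | h1
    · exact h1
    · have h2 : ((⌈((i : ℝ) + 1) * m / c₀⌉₊ + 1 : ℕ) : ℝ) * (c₀ * m) =
          (⌈((i : ℝ) + 1) * m / c₀⌉₊ * c₀) * m + c₀ * m := by
        push_cast
        ring
      rw [h2] at h1
      have h3 : ((i : ℝ) + 1) * m * m ≤ (⌈((i : ℝ) + 1) * m / c₀⌉₊ * c₀) * m :=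
        mul_le_mul_of_nonneg_right hN' (by linarith)
      have h4 : 0 ≤ c₀ * m := by positivity
      have h5 : ((W' + m ^ 2 : ℕ) : ℝ) ≤ W := by
        push_cast
        nlinarith
      exact_mod_cast h5
  refine ⟨i * m ^ 2 + n, θ', F', W', ?_, hG₁.trans hG', (h B θ' K₀ m F' W' hK1 hKm).1 hS', ?_⟩
  · -- the cost
    have hN2 : (⌈((i : ℝ) + 1) * m / c₀⌉₊ : ℝ) < ((i : ℝ) + 1) * m / c₀ + 1 :=
      Nat.ceil_lt_add_one (by positivity)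
    have hnr : (n : ℝ) ≤ (⌈((i : ℝ) + 1) * m / c₀⌉₊ + 1) * (m : ℝ) ^ 2 := by exact_mod_cast hn
    have hm2 : (0 : ℝ) ≤ (m : ℝ) ^ 2 := by positivity
    have e1 : (m : ℝ) = K₀ * (i + 1) := by rw [hmdef]; push_cast; ring
    have h6 : (6 : ℝ) ≤ i := by exact_mod_cast hi
    have key : ((i * m ^ 2 + n : ℕ) : ℝ) ≤
        ((⌈(1 + K₀ / c₀) * (K₀ : ℝ) ^ 2⌉₊ * (i + 1) ^ 4 : ℕ) : ℝ) := by
      push_cast
      calc (i : ℝ) * (m : ℝ) ^ 2 + n ≤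
          i * (m : ℝ) ^ 2 + (⌈((i : ℝ) + 1) * m / c₀⌉₊ + 1) * (m : ℝ) ^ 2 := by linarith
        _ ≤ i * (m : ℝ) ^ 2 + (((i : ℝ) + 1) * m / c₀ + 1 + 1) * (m : ℝ) ^ 2 := by
            have := mul_le_mul_of_nonneg_right hN2.le hm2
            linarith
        _ = (((i : ℝ) + 2) + ((i : ℝ) + 1) ^ 2 * (K₀ / c₀)) * ((K₀ : ℝ) ^ 2 * (i + 1) ^ 2) := by
            rw [e1]
            field_simp
            ring
        _ ≤ (((i : ℝ) + 1) ^ 2 + ((i : ℝ) + 1) ^ 2 * (K₀ / c₀)) *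
              ((K₀ : ℝ) ^ 2 * (i + 1) ^ 2) := by
            apply mul_le_mul_of_nonneg_right _ (by positivity)
            nlinarith
        _ = (1 + K₀ / c₀) * (K₀ : ℝ) ^ 2 * ((i : ℝ) + 1) ^ 4 := by ring
        _ ≤ (⌈(1 + K₀ / c₀) * (K₀ : ℝ) ^ 2⌉₊ : ℝ) * ((i : ℝ) + 1) ^ 4 :=
            mul_le_mul_of_nonneg_right (Nat.le_ceil _) (by positivity)
    exact_mod_cast key
  · exact hW'

end LIV
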