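import Mathlib
import Pool.Agent.LIV.St

/-!
# EXTREMAL MERGING: change of the scale of the potentials
-/

set_option autoImplicit false

namespace LIV

open Pool.Agent.LibHelper3 CMG Finset

theorem scl_wt {r a b : ℝ} (ha : 0 ≤ a) (hb : 0 ≤ b) (hr : 0 ≤ r) (h : 1 + b ≤ r * (1 + a)) :
    wt a ≤ r ^ 2 * wt b := by
  unfold wt
  have h1 : (0 : ℝ) < (1 + a) ^ 2 := by positivity
  have h2 : (0 : ℝ) < (1 + b) ^ 2 := by positivity
  rw [mul_one_div, div_le_div_iff₀ h1 h2, one_mul, ← mul_pow]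
  exact pow_le_pow_left₀ (by positivity) h 2

theorem scl_down {m m' : ℕ} (hm : 1 ≤ m) (hmm : m ≤ m') {θ σ : ℝ} {c : ℕ} {F : Finset (ℕ × ℕ)}
    (hE : End σ c F) : pot (1 / (m : ℝ)) θ σ c F ≤ pot (1 / (m' : ℝ)) θ σ c F := by
  have hm0 : (0 : ℝ) < m := by exact_mod_cast hm
  have hmm0 : (m : ℝ) ≤ m' := by exact_mod_cast hmm
  have hm1 : (0 : ℝ) < m' := lt_of_lt_of_le hm0 hmm0
  unfold pot
  apply sum_le_sum
  intro s hs
  have hv := hE.1 s hs
  apply mul_le_mul_of_nonneg_left _ (pw_nonneg _ _)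
  apply wt_anti
  · positivity
  · exact mul_le_mul_of_nonneg_right (one_div_le_one_div_of_le hm0 hmm0) hv

theorem scl_up {m m' : ℕ} (hm : 1 ≤ m) (hmm : m ≤ m') {θ σ : ℝ} {c : ℕ} {F : Finset (ℕ × ℕ)}
    (hE : End σ c F) :
    pot (1 / (m' : ℝ)) θ σ c F ≤ ((m' : ℝ) / m) ^ 2 * pot (1 / (m : ℝ)) θ σ c F := by
  have hm0 : (0 : ℝ) < m := by exact_mod_cast hm
  have hmm0 : (m : ℝ) ≤ m' := by exact_mod_cast hmm
  have hm1 : (0 : ℝ) < m' := lt_of_lt_of_le hm0 hmm0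
  have hr : 1 ≤ (m' : ℝ) / m := by
    rw [le_div_iff₀ hm0]
    linarith
  unfold pot
  rw [mul_sum]
  apply sum_le_sum
  intro s hs
  have hv := hE.1 s hs
  set v : ℝ := σ * ((s.1 : ℝ) - c) with hvd
  have h1 : wt (1 / (m' : ℝ) * v) ≤ ((m' : ℝ) / m) ^ 2 * wt (1 / (m : ℝ) * v) := by
    apply scl_wt (by positivity) (by positivity) (by positivity)
    have e : (m' : ℝ) / m * (1 + 1 / (m' : ℝ) * v) = (m' : ℝ) / m + 1 / (m : ℝ) * v := by
      field_simp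
    rw [e]
    linarith
  calc pw θ s * wt (1 / (m' : ℝ) * v) ≤
      pw θ s * (((m' : ℝ) / m) ^ 2 * wt (1 / (m : ℝ) * v)) :=
        mul_le_mul_of_nonneg_left h1 (pw_nonneg _ _)
    _ = ((m' : ℝ) / m) ^ 2 * (pw θ s * wt (1 / (m : ℝ) * v)) := by ring

theorem scl : StScl := by
  intro X θ m m' F W hm hmm
  constructor
  · rintro ⟨h1, l, h2, h3, h4, h5⟩
    exact ⟨h1, l, h2, h3, (scl_down hm hmm h2).trans h4, (scl_down hm hmm h3).trans h5⟩
  · rintro ⟨h1, l, h2, h3, h4, h5⟩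
    refine ⟨h1, l, h2, h3, (scl_up hm hmm h2).trans ?_, (scl_up hm hmm h3).trans ?_⟩
    · exact mul_le_mul_of_nonneg_left h4 (by positivity)
    · exact mul_le_mul_of_nonneg_left h5 (by positivity)

end LIV
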