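import Pool.Agent.LIV.St

/-!
# Extremal merging: sorting the forms (module SRT)
-/

set_option autoImplicit false

namespace LIV

open Pool.Agent.LibHelper3 CMG Finset

/-- **SRT.** -/
theorem srt : StSrt := by
  classical
  intro σ c F hσ hEnd
  let r : ℕ × ℕ → ℕ × ℕ → Prop := fun s s' => σ * (s.1 : ℝ) ≤ σ * s'.1
  have h1 : Std.Total r := ⟨fun s s' => le_total _ _⟩
  have h2 : IsTrans (ℕ × ℕ) r := ⟨fun a b c h h' => le_trans h h'⟩
  have hperm : (F.toList.insertionSort r).Perm F.toList := List.perm_insertionSort r F.toList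
  have hpw : (F.toList.insertionSort r).Pairwise r := List.pairwise_insertionSort r F.toList
  have hnd : (F.toList.insertionSort r).Nodup := hperm.nodup_iff.2 F.nodup_toList
  have hmem : ∀ s, s ∈ F.toList.insertionSort r ↔ s ∈ F := fun s => by
    rw [hperm.mem_iff, Finset.mem_toList]
  obtain ⟨s₀, hs₀, hc⟩ := hEnd.2
  rcases hl : F.toList.insertionSort r with _ | ⟨a, l⟩
  · have h3 := (hmem s₀).2 hs₀
    rw [hl] at h3
    simp at h3
  · rw [hl] at hpw hnd
    simp only [hl] at hmem
    have haF : a ∈ F := (hmem a).1 List.mem_cons_self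
    refine ⟨a, l, hnd, ?_, ?_, hpw⟩
    · ext s
      rw [List.mem_toFinset, hmem]
    · have h3 := hEnd.1 a haF
      have h4 : σ * (a.1 : ℝ) ≤ σ * s₀.1 := by
        have h5 := (hmem s₀).2 hs₀
        rcases List.mem_cons.1 h5 with h6 | h6
        · rw [h6]
        · exact (List.pairwise_cons.1 hpw).1 s₀ h6
      rw [hc] at h4
      have h5 : (a.1 : ℝ) = c := by
        rcases hσ with h6 | h6
        · rw [h6] at h3 h4
          linarith
        · rw [h6] at h3 h4
          linarith
      exact_mod_cast h5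

end LIV
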