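import Mathlib
import Pool.Agent.LIV.Key
import Pool.Agent.LIV.Fin
import Pool.Agent.LIV.FinR
import Pool.Agent.LIV.Cnt
import Pool.Agent.LIV.Nta
import Pool.Agent.LIV.Ntb
import Pool.Agent.LIV.Mom1
import Pool.Agent.LIV.Mom2
import Pool.Agent.LIV.Mom3
import Pool.Agent.LIV.Hol
import Pool.Agent.LIV.Adj1
import Pool.Agent.LIV.Adj2
import Pool.Agent.LIV.Srt
import Pool.Agent.LIV.Lbp
import Pool.Agent.LIV.Lb
import Pool.Agent.LIV.Near
import Pool.Agent.LIV.Far
import Pool.Agent.LIV.Ovs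
import Pool.Agent.LIV.Mv1
import Pool.Agent.LIV.Mv2
import Pool.Agent.LIV.MvX
import Pool.Agent.LIV.Prp
import Pool.Agent.LIV.Blk
import Pool.Agent.LIV.Scl
import Pool.Agent.LIV.Rnd
import Pool.Agent.LIV.Lvl
import Pool.Agent.LIV.Ph0
import Pool.Agent.LIV.Ph1
import Pool.Agent.LIV.Ph2
import Pool.Agent.LIV.Lod

/-!
# EXTREMAL MERGING: assembly
-/

set_option autoImplicit false

namespace LIV

/-- windows of size `n ^ c` inside predecessor sets -/
theorem extremal : StFin :=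
  fin (cnt (key (lb srt (lbp adj1 adj2) adj2 (hol mom1 (mom3 mom2))) (ovs near far)
    (mvt mv1 mv2) prp blk (rnd scl) ph0 (ph1 lvl) ph2) nta ntb lod)

/-- windows of size `n ^ c` inside predecessor sets, real `x` -/
theorem extremalR : StFinR :=
  finr (cnt (key (lb srt (lbp adj1 adj2) adj2 (hol mom1 (mom3 mom2))) (ovs near far)
    (mvt mv1 mv2) prp blk (rnd scl) ph0 (ph1 lvl) ph2) nta ntb lod)

end LIV
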