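import Mathlib
import Pool.Agent.LIV.St

/-!
# Module OVS: the extreme walkers are rarely overtaken
-/

set_option autoImplicit false

namespace LIV

open Pool.Agent.LibHelper3 CMG Finset

/-- the near and the far bound together, for one pair -/
theorem ovs_term {C : ℝ} (hC : 0 < C)
    (hN : ∀ (m : ℕ) (θ : ℝ) (s s' : ℕ × ℕ), 1 ≤ m → 0 ≤ up θ s → 0 ≤ up θ s' → s.1 ≤ s'.1 →
      Ek (m ^ 2) (fun k => max 0 (((rp (m ^ 2) k s).1 : ℝ) - (rp (m ^ 2) k s').1)) ≤
        C * Real.sqrt m * (pw θ s + pw θ s'))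
    (hF : StFar) {m : ℕ} (hm : 1 ≤ m) {θ : ℝ} {s s' : ℕ × ℕ} (hs : 0 ≤ up θ s)
    (hs' : 0 ≤ up θ s') (h : s.1 ≤ s'.1) {R δ : ℝ} (hR : 0 ≤ R) (hδ : Real.exp (5 - R) ≤ δ) :
    Ek (m ^ 2) (fun k => max 0 (((rp (m ^ 2) k s).1 : ℝ) - (rp (m ^ 2) k s').1)) ≤
      (C * Real.sqrt m * (1 + R) ^ 2 * (pw θ s + pw θ s') + m * δ) *
        wt (((s'.1 : ℝ) - s.1) / m) := by
  have hm0 : (0 : ℝ) < m := by exact_mod_cast hm
  have hss : (s.1 : ℝ) ≤ s'.1 := by exact_mod_cast h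
  have hδ0 : 0 < δ := (Real.exp_pos _).trans_le hδ
  obtain ⟨v, hv⟩ : ∃ v : ℝ, v = ((s'.1 : ℝ) - s.1) / m := ⟨_, rfl⟩
  have hv0 : 0 ≤ v := by
    rw [hv]
    exact div_nonneg (by linarith) hm0.le
  have hw0 : 0 ≤ wt v := wt_nonneg v
  have hp1 : 0 ≤ pw θ s := pw_nonneg θ s
  have hp2 : 0 ≤ pw θ s' := pw_nonneg θ s'
  have hA : 0 ≤ C * Real.sqrt m * (pw θ s + pw θ s') := by positivity
  have hB : 0 ≤ (m : ℝ) * δ := by positivity
  rw [← hv]
  rcases le_total v R with h1 | h1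
  · have h2 := hN m θ s s' hm hs hs' h
    have h3 : 1 ≤ (1 + R) ^ 2 * wt v := by
      have h4 : wt R ≤ wt v := wt_anti hv0 h1
      have h5 : (1 + R) ^ 2 * wt R = 1 := by
        unfold wt
        field_simp
      have h6 : (1 + R) ^ 2 * wt R ≤ (1 + R) ^ 2 * wt v :=
        mul_le_mul_of_nonneg_left h4 (by positivity)
      linarith
    have h7 : C * Real.sqrt m * (pw θ s + pw θ s') * 1 ≤
        C * Real.sqrt m * (pw θ s + pw θ s') * ((1 + R) ^ 2 * wt v) :=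
      mul_le_mul_of_nonneg_left h3 hA
    have h8 : 0 ≤ (m : ℝ) * δ * wt v := mul_nonneg hB hw0
    nlinarith
  · have h2 := hF m s s' hm
    have h3 : 3 * ((s'.1 : ℝ) - s.1) / m = 3 * v := by
      rw [hv]
      ring
    rw [h3] at h2
    have h4 : Real.exp (5 - 3 * v) ≤ δ * wt v := by
      have e1 : Real.exp (5 - 3 * v) = Real.exp (5 - v) * Real.exp (-(2 * v)) := by
        rw [← Real.exp_add]
        congr 1
        ring
      have e2 : Real.exp (5 - v) ≤ δ := (Real.exp_le_exp.2 (by linarith)).trans hδ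
      have e3 : Real.exp (-(2 * v)) ≤ wt v := by
        unfold wt
        rw [Real.exp_neg, ← one_div]
        apply one_div_le_one_div_of_le (by positivity)
        have e4 : 1 + v ≤ Real.exp v := by
          have := Real.add_one_le_exp v
          linarith
        have e5 : Real.exp (2 * v) = Real.exp v ^ 2 := by
          rw [← Real.exp_nat_mul]
          norm_num
        rw [e5]
        exact pow_le_pow_left₀ (by linarith) e4 2
      rw [e1]
      exact mul_le_mul e2 e3 (Real.exp_pos _).le hδ0.le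
    have h5 : (m : ℝ) * Real.exp (5 - 3 * v) ≤ m * (δ * wt v) :=
      mul_le_mul_of_nonneg_left h4 hm0.le
    have h6 : 0 ≤ C * Real.sqrt m * (1 + R) ^ 2 * (pw θ s + pw θ s') * wt v := by positivity
    nlinarith

/-- **OVS** -/
theorem ovs (hN : StNear) (hF : StFar) : StOvs := by
  intro B ε hB hε
  obtain ⟨C, hC, hN⟩ := hN
  have hB0 : 0 < B := by linarith
  obtain ⟨δ, hδ⟩ : ∃ δ : ℝ, δ = ε / (2 * B) := ⟨_, rfl⟩
  have hδ0 : 0 < δ := by rw [hδ]; positivity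
  obtain ⟨R, hR0, hR⟩ : ∃ R : ℝ, 0 ≤ R ∧ Real.exp (5 - R) ≤ δ := by
    refine ⟨max 0 (5 - Real.log δ), le_max_left _ _, ?_⟩
    have h1 : 5 - Real.log δ ≤ max 0 (5 - Real.log δ) := le_max_right _ _
    calc Real.exp (5 - max 0 (5 - Real.log δ)) ≤ Real.exp (Real.log δ) :=
          Real.exp_le_exp.2 (by linarith)
      _ = δ := Real.exp_log hδ0
  obtain ⟨Q, hQ⟩ : ∃ Q : ℝ, Q = 2 * C * (1 + R) ^ 2 * (B + 1) * B / ε := ⟨_, rfl⟩
  have hQ0 : 0 ≤ Q := by rw [hQ]; positivity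
  obtain ⟨m₁, hm₁⟩ := exists_nat_ge (Q ^ 2)
  refine ⟨max 1 m₁, ?_⟩
  intro m σ θ c F a hm hσ hP hE ha hac hpot
  have hm1 : 1 ≤ m := (le_max_left _ _).trans hm
  have hm2 : (m₁ : ℝ) ≤ m := by exact_mod_cast (le_max_right _ _).trans hm
  have hm0 : (0 : ℝ) < m := by exact_mod_cast hm1
  have hQm : Q ≤ Real.sqrt m := Real.le_sqrt_of_sq_le (hm₁.trans hm2)
  have hsm : Real.sqrt m * Real.sqrt m = m := Real.mul_self_sqrt hm0.le
  have hs0 : 0 ≤ Real.sqrt m := Real.sqrt_nonneg _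
  -- the weight of `a`
  have hpa : pw θ a ≤ B := by
    have h1 : pw θ a * wt (1 / (m : ℝ) * (σ * ((a.1 : ℝ) - c))) ≤ pot (1 / (m : ℝ)) θ σ c F := by
      unfold pot
      exact single_le_sum (f := fun s : ℕ × ℕ => pw θ s * wt (1 / (m : ℝ) * (σ * ((s.1 : ℝ) - c))))
        (fun s _ => mul_nonneg (pw_nonneg _ _) (wt_nonneg _)) ha
    rw [hac, sub_self, mul_zero, mul_zero, wt_zero, mul_one] at h1
    exact h1.trans hpot
  obtain ⟨K, hK⟩ : ∃ K : ℝ, K = C * Real.sqrt m * (1 + R) ^ 2 * (B + 1) + m * δ := ⟨_, rfl⟩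
  have hK0 : 0 ≤ K := by rw [hK]; positivity
  -- one term
  have hterm : ∀ s ∈ F, Ek (m ^ 2)
      (fun k => max 0 (σ * (((rp (m ^ 2) k a).1 : ℝ) - (rp (m ^ 2) k s).1))) ≤
      K * (pw θ s * wt (1 / (m : ℝ) * (σ * ((s.1 : ℝ) - c)))) := by
    intro s hs
    have hq1 : 1 ≤ pw θ s := one_le_pw (hP s hs)
    have hend := hE.1 s hs
    have hfin : ∀ w : ℝ, 0 ≤ w →
        (C * Real.sqrt m * (1 + R) ^ 2 * (pw θ a + pw θ s) + m * δ) * w ≤ K * (pw θ s * w) := by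
      intro w hw
      rw [hK, ← mul_assoc]
      apply mul_le_mul_of_nonneg_right _ hw
      have g1 : pw θ a + pw θ s ≤ (B + 1) * pw θ s := by nlinarith
      have g2 : C * Real.sqrt m * (1 + R) ^ 2 * (pw θ a + pw θ s) ≤
          C * Real.sqrt m * (1 + R) ^ 2 * ((B + 1) * pw θ s) :=
        mul_le_mul_of_nonneg_left g1 (by positivity)
      have g3 : (m : ℝ) * δ * 1 ≤ m * δ * pw θ s :=
        mul_le_mul_of_nonneg_left hq1 (by positivity)
      nlinarith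
    rcases hσ with rfl | rfl
    · have h1 : a.1 ≤ s.1 := by
        have h2 : (a.1 : ℝ) ≤ s.1 := by
          rw [hac]
          linarith
        exact_mod_cast h2
      have h2 := ovs_term hC hN hF hm1 (hP a ha) (hP s hs) h1 hR0 hR
      have h3 : (fun k => max 0 ((1 : ℝ) * (((rp (m ^ 2) k a).1 : ℝ) - (rp (m ^ 2) k s).1))) =
          fun k => max 0 (((rp (m ^ 2) k a).1 : ℝ) - (rp (m ^ 2) k s).1) := by
        funext k
        rw [one_mul]
      have h4 : 1 / (m : ℝ) * (1 * ((s.1 : ℝ) - c)) = ((s.1 : ℝ) - a.1) / m := by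
        rw [hac]
        ring
      rw [h3, h4]
      exact h2.trans (hfin _ (wt_nonneg _))
    · have h1 : s.1 ≤ a.1 := by
        have h2 : (s.1 : ℝ) ≤ a.1 := by
          rw [hac]
          linarith
        exact_mod_cast h2
      have h2 := ovs_term hC hN hF hm1 (hP s hs) (hP a ha) h1 hR0 hR
      have h3 : (fun k => max 0 ((-1 : ℝ) * (((rp (m ^ 2) k a).1 : ℝ) - (rp (m ^ 2) k s).1))) =
          fun k => max 0 (((rp (m ^ 2) k s).1 : ℝ) - (rp (m ^ 2) k a).1) := by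
        funext k
        congr 1
        ring
      have h4 : 1 / (m : ℝ) * (-1 * ((s.1 : ℝ) - c)) = ((a.1 : ℝ) - s.1) / m := by
        rw [hac]
        ring
      rw [h3, h4]
      rw [add_comm (pw θ s) (pw θ a)] at h2
      exact h2.trans (hfin _ (wt_nonneg _))
  rw [Ek_sum (m ^ 2) F
    (fun s k => max 0 (σ * (((rp (m ^ 2) k a).1 : ℝ) - (rp (m ^ 2) k s).1)))]
  have h1 : ∑ s ∈ F, Ek (m ^ 2)
      (fun k => max 0 (σ * (((rp (m ^ 2) k a).1 : ℝ) - (rp (m ^ 2) k s).1))) ≤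
      K * pot (1 / (m : ℝ)) θ σ c F := by
    unfold pot
    rw [mul_sum]
    exact sum_le_sum hterm
  have h2 : K * pot (1 / (m : ℝ)) θ σ c F ≤ K * B := mul_le_mul_of_nonneg_left hpot hK0
  have h3 : K * B ≤ ε * m := by
    rw [hK]
    have g1 : (m : ℝ) * δ * B = ε * m / 2 := by
      rw [hδ]
      field_simp
    have g2 : C * Real.sqrt m * (1 + R) ^ 2 * (B + 1) * B = Q * ε / 2 * Real.sqrt m := by
      rw [hQ]
      field_simp
    have g3 : Q * ε / 2 * Real.sqrt m ≤ Real.sqrt m * ε / 2 * Real.sqrt m := by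
      apply mul_le_mul_of_nonneg_right _ hs0
      have := mul_le_mul_of_nonneg_right hQm hε.le
      linarith
    have g4 : Real.sqrt m * ε / 2 * Real.sqrt m = ε * m / 2 := by
      rw [show Real.sqrt m * ε / 2 * Real.sqrt m = ε * (Real.sqrt m * Real.sqrt m) / 2 by ring, hsm]
    rw [add_mul, g1, g2]
    linarith
  linarith

end LIV
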