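import Mathlib
import Pool.Agent.CMG.SyT
import Pool.Agent.CMG.LoE
import Pool.Agent.CMG.ShM
import Pool.Agent.LIV.All

/-!
# Neighbouring Collatz trajectories merge

`T` is the Collatz map. For almost all `n` the trajectories of all the integers `m` with
`|m - 2 ^ u * 3 ^ v * n| ≤ exp (f n)` for some integers `|u|, |v| ≤ f n`, where
`f n = o (√(log n))`, merge with the trajectory of `n` (with the time shift `u - v`), within
`ε log n` steps. In particular some `T ^ k`, `k ≤ ε log n`, takes the same value at all integers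
of the interval `[n - exp (f n), n + exp (f n)]`; if instead `f n / √(log n) → ∞` then for almost
all `n` there is no such `k ≤ (log n) / 8`. Hence predecessor sets are locally constant.

There are also windows of polynomial size, `f n = c log n`, all of whose trajectories merge
within `ε log n` steps, at least `x ^ (1 - ε)` of them up to `x` and with the common trajectory
containing any given `a` not divisible by `3`. Hence, if some `n ≥ 1` does not reach `1`, then
there are intervals `[n - n ^ c, n + n ^ c]` at every scale no element of which reaches `1`.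

Outline of the proof. A pair of forms `3 ^ e * k + a`, `3 ^ f * k + b` is followed along the
shortcut map with random binary digits of `k`.

* `CMG.av_sq`: the normalised offset `Q = |3 ^ e * b - 3 ^ f * a| / 3 ^ max e f` has
  `E √Q ≤ 0.97 ^ j √Q₀ + 25`; `CMG.nh_sharp`: `|e - f|` is a symmetric walk which moves soon
  (`2`-adic valuation of `3 ^ d - 1`) and stays nonzero for `t` steps with probability at most
  `C |e - f| / √t`; `CMG.hq_le`: at its return to `0` the offset is still bounded on average.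
* `CMG.reach_of`: from bounded `|e - f|` and `Q` there is a bounded path to a merged pair.
* `CMG.sharp`: the pair has not merged after `t` steps with probability at most
  `C (1 + |e - f| + √Q) / √t`.
* `CMG.avF_Phi`, `CMG.card_le_Phi`: `H` forms have after `C log H` steps on average only
  `C log H` different states; consecutive ones are compared (`CMG.pF_le`), which gives
  `CMG.window_sharp`: the window has not merged after `t` steps with probability at most
  `C (V + log H) / √t`.
* `CMG.nh_lower`, `CMG.loc_nh`: the exponents of the two forms into which `2 ^ M * (p + 1)` and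
  `2 ^ M * (p + 1) - 1` are mapped, whose difference is `M`, stay different for `t` steps with
  probability at least `c M / √t` and at least `1 - t / M ^ 2`, which gives the lower bounds for
  the number of exceptions.
* `LIV.key`: the digits can be chosen so that the window of size `2 ^ M` merges within
  `C (M + 1)` steps. Let `W` be the difference between the largest and the smallest exponent of
  the forms which are left. In a block of `m ^ 2` digits the potentials of the two ends, which
  count the forms near the ends, stay bounded on average because neighbours merge (`LIV.lb`), the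
  extreme exponents are rarely overtaken (`LIV.ovs`), and their difference is a martingale with
  quadratic variation at least `c m ^ 2` unless `W` is close to a multiple of a large power of `2`
  (`LIV.mvt`). So some block reduces `W` by `c m` (`LIV.blk`). If `W` is close to a multiple of
  `2 ^ i` then `m` is of the size of `i` (`LIV.rnd`), and the total number of digits is still
  `O(W)` (`LIV.lvl`).
* `LIV.cnt`: the windows around `6 ^ M * (b + 2 ^ M)`, where the last digits of `b` are the chosen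
  ones and the image of `b` is a predecessor of `a` (`LIV.lod`, from `UPD.uniform_density`).
-/

set_option autoImplicit false

namespace LIV.ResultMerging

open Pool.Agent.LibHelper3 Filter Topology

/-- all the natural numbers `m` with `|m - 2 ^ u * 3 ^ v * n| ≤ exp y` for some integers `u`, `v`
with `|u|, |v| ≤ y` -/
def Window (y : ℝ) (n : ℕ) : Set ℕ :=
  {m | ∃ u v : ℤ, |(u : ℝ)| ≤ y ∧ |(v : ℝ)| ≤ y ∧
    |(m : ℝ) - (2 : ℝ) ^ u * (3 : ℝ) ^ v * n| ≤ Real.exp y}

/-- the `1 ≤ n ≤ x` for which there is no `k ≥ 2 M`, `k ≤ 20 (M + 1) + ε log x`, with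
`T ^ (k + u - v) m = T ^ k n` for all integers `|u|, |v| ≤ U` and all natural numbers `m` with
`|m - 2 ^ u * 3 ^ v * n| ≤ 2 ^ M` -/
def Exceptions (x ε : ℝ) (U M : ℕ) : Set ℕ :=
  {n | 1 ≤ n ∧ (n : ℝ) ≤ x ∧ ¬ ∃ k : ℕ, 2 * M ≤ k ∧
    (k : ℝ) ≤ 20 * ((M : ℝ) + 1) + ε * Real.log x ∧
    ∀ u v : ℤ, |u| ≤ U → |v| ≤ U → ∀ m : ℕ,
      |(m : ℝ) - (2 : ℝ) ^ u * (3 : ℝ) ^ v * n| ≤ 2 ^ M →
      collatz^[((k : ℤ) + u - v).toNat] m = collatz^[k] n}

/-- **Theorem.** Merging of neighbouring Collatz trajectories. -/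
theorem result :
    (∀ ε : ℝ, 0 < ε → ∃ C : ℝ, ∀ (x : ℝ) (M : ℕ), 2 ≤ x →
      ((Exceptions x ε M M).ncard : ℝ) ≤ C * x * (M + 1) / Real.sqrt (Real.log x)) ∧
    (∃ c : ℝ, 0 < c ∧ ∃ x₀ : ℝ, ∀ (x ε : ℝ) (M : ℕ), x₀ ≤ x → ε ≤ 1 / 8 →
      (((M : ℝ) + 1) ^ 2 ≤ Real.log x →
        c * x * (M + 1) / Real.sqrt (Real.log x) ≤ ((Exceptions x ε 0 M).ncard : ℝ)) ∧
      (1 ≤ M → (M : ℝ) ≤ Real.log x / 200 →
        x * (1 - Real.log x / (M : ℝ) ^ 2) ≤ ((Exceptions x ε 0 M).ncard : ℝ))) ∧
    (∃ c : ℝ, 0 < c ∧ ∃ d : ℕ → ℝ, (∀ a : ℕ, ¬ 3 ∣ a → c / a ≤ d a) ∧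
      ∀ (a : ℕ) (f : ℕ → ℝ), (∀ n, 0 ≤ f n) →
        Tendsto (fun n : ℕ => f n / Real.sqrt (Real.log n)) atTop (𝓝 0) →
        Tendsto (fun x : ℕ => ({n : ℕ | 1 ≤ n ∧ n ≤ x ∧
          ∀ m ∈ Window (f n) n, ∃ s, collatz^[s] m = a}.ncard : ℝ) / x) atTop (𝓝 (d a)) ∧
        Tendsto (fun x : ℕ => ({n : ℕ | 1 ≤ n ∧ n ≤ x ∧
          ∀ m ∈ Window (f n) n, ∀ s, collatz^[s] m ≠ a}.ncard : ℝ) / x) atTop (𝓝 (1 - d a))) ∧
    (∀ ε : ℝ, 0 < ε → ∃ c : ℝ, 0 < c ∧
      (∀ a : ℕ, ¬ 3 ∣ a → ∀ᶠ x : ℝ in atTop, x ^ (1 - ε) ≤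
        ({n : ℕ | 1 ≤ n ∧ (n : ℝ) ≤ x ∧
          n ∉ Exceptions x ε ⌊c * Real.log x⌋₊ ⌊c * Real.log x⌋₊ ∧
          ∀ m ∈ Window (c * Real.log n) n, ∃ s, collatz^[s] m = a}.ncard : ℝ)) ∧
      ((∀ n : ℕ, 1 ≤ n → ∃ k, collatz^[k] n = 1) ↔
        ∀ᶠ n : ℕ in atTop, ∃ m ∈ Window (c * Real.log n) n, ∃ k, collatz^[k] m = 1)) := by
  refine ⟨?_, ?_, ?_, ?_⟩
  · intro ε hε
    obtain ⟨C, -, h1⟩ := CMG.card_BadT ε hε
    exact ⟨C, fun x M hx => h1 x M hx⟩
  · obtain ⟨c, hc, x₁, h1⟩ := CMG.card_BadI_lower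
    obtain ⟨x₂, h2⟩ := CMG.card_BadI_threshold
    exact ⟨c, hc, max x₁ x₂, fun x ε M hx hε =>
      ⟨fun hM => h1 x ε M ((le_max_left _ _).trans hx) hε hM,
        fun hM1 hM => h2 x ε M ((le_max_right _ _).trans hx) hε hM1 hM⟩⟩
  · obtain ⟨c, hc, h⟩ := UPD.uniform_density
    choose d h3 hn3 hd using h
    exact ⟨c, hc, d, hn3, fun a f hf0 hf => CMG.pred_windows_Z a (d a) (hd a) f hf0 hf⟩
  · exact LIV.extremalR

end LIV.ResultMerging
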